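import Mathlib

/-!
# Weak and strong Sobolev closures of the diffeomorphisms between two domains
-/

namespace Pool.Agent.FC472D.Sob

open MeasureTheory Filter Topology Set
open scoped ENNReal ContDiff RealInnerProductSpace

variable {E : Type} [NormedAddCommGroup E] [InnerProductSpace ℝ E] [FiniteDimensional ℝ E]
  [MeasurableSpace E] [BorelSpace E]

/-- `G` is a weak (distributional) differential of the map `f` in the open set `Ω`: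
`∫_Ω (∂_v φ) f = - ∫_Ω φ (G v)` for every test function `φ ∈ C_c^∞(Ω)` and every vector `v`. -/
def IsWeakDeriv (Ω : Set E) (f : E → E) (G : E → E →L[ℝ] E) : Prop :=
  ∀ φ : E → ℝ, ContDiff ℝ ∞ φ → HasCompactSupport φ → tsupport φ ⊆ Ω → ∀ v : E,
    ∫ x in Ω, (fderiv ℝ φ x v) • f x = -∫ x in Ω, φ x • (G x v)

/-- `f ∈ W^{1,p}(Ω, E)` with weak differential `G`: both are in `L^p(Ω)`. -/
def IsSobolev (Ω : Set E) (p : ℝ≥0∞) (f : E → E) (G : E → E →L[ℝ] E) : Prop :=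
  MemLp f p (volume.restrict Ω) ∧ MemLp G p (volume.restrict Ω) ∧ IsWeakDeriv Ω f G

/-- `g` is a `C^m` diffeomorphism of the open set `Ω` onto the open set `Ω'`. -/
def IsDiffeo (m : ℕ∞) (Ω Ω' : Set E) (g : E → E) : Prop :=
  ContDiffOn ℝ m g Ω ∧ BijOn g Ω Ω' ∧
    ∃ h : E → E, ContDiffOn ℝ m h Ω' ∧ MapsTo h Ω' Ω ∧ ∀ y ∈ Ω', g (h y) = y

/-- `f_k ⇀ f` and `G_k ⇀ G` weakly in `L^p(Ω)`, i.e. tested against every function of
`L^q(Ω)`, `1/p + 1/q = 1`. -/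
def WeakConv (Ω : Set E) (p : ℝ≥0∞) (fk : ℕ → E → E) (Gk : ℕ → E → E →L[ℝ] E)
    (f : E → E) (G : E → E →L[ℝ] E) : Prop :=
  ∀ q : ℝ≥0∞, p.HolderConjugate q → ∀ ψ : E → E, MemLp ψ q (volume.restrict Ω) →
    Tendsto (fun k => ∫ x in Ω, ⟪fk k x, ψ x⟫) atTop (𝓝 (∫ x in Ω, ⟪f x, ψ x⟫)) ∧
    ∀ v : E, Tendsto (fun k => ∫ x in Ω, ⟪Gk k x v, ψ x⟫) atTop (𝓝 (∫ x in Ω, ⟪G x v, ψ x⟫))

/-- `f_k → f` and `G_k → G` in the norm of `L^p(Ω)`. -/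
def StrongConv (Ω : Set E) (p : ℝ≥0∞) (fk : ℕ → E → E) (Gk : ℕ → E → E →L[ℝ] E)
    (f : E → E) (G : E → E →L[ℝ] E) : Prop :=
  Tendsto (fun k => eLpNorm (fun x => fk k x - f x) p (volume.restrict Ω)) atTop (𝓝 0) ∧
    Tendsto (fun k => eLpNorm (fun x => Gk k x - G x) p (volume.restrict Ω)) atTop (𝓝 0)

/-- The weak `W^{1,p}` closure of the `C^m` diffeomorphisms of `Ω` onto `Ω'`: the maps
`f ∈ W^{1,p}(Ω, E)` with values in `Ω'` (a.e.) for which there are `C^m` diffeomorphisms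
`fk k ∈ W^{1,p}(Ω, E)` of `Ω` onto `Ω'` with `fk k ⇀ f` weakly in `W^{1,p}`. -/
def weakClosure (m : ℕ∞) (Ω Ω' : Set E) (p : ℝ≥0∞) : Set (E → E) :=
  {f | (∀ᵐ x ∂(volume.restrict Ω), f x ∈ Ω') ∧
    ∃ (G : E → E →L[ℝ] E) (fk : ℕ → E → E) (Gk : ℕ → E → E →L[ℝ] E), IsSobolev Ω p f G ∧
      (∀ k, IsDiffeo m Ω Ω' (fk k) ∧ IsSobolev Ω p (fk k) (Gk k)) ∧ WeakConv Ω p fk Gk f G}

/-- The strong `W^{1,p}` closure of the `C^m` diffeomorphisms of `Ω` onto `Ω'`: as for the weak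
closure, with convergence in the norm of `W^{1,p}`. -/
def strongClosure (m : ℕ∞) (Ω Ω' : Set E) (p : ℝ≥0∞) : Set (E → E) :=
  {f | (∀ᵐ x ∂(volume.restrict Ω), f x ∈ Ω') ∧
    ∃ (G : E → E →L[ℝ] E) (fk : ℕ → E → E) (Gk : ℕ → E → E →L[ℝ] E), IsSobolev Ω p f G ∧
      (∀ k, IsDiffeo m Ω Ω' (fk k) ∧ IsSobolev Ω p (fk k) (Gk k)) ∧ StrongConv Ω p fk Gk f G}

end Pool.Agent.FC472D.Sob
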