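import Mathlib

/-!
# Sobolev maps between domains of `ℝⁿ` and closures of diffeomorphisms
-/

namespace Pool.Agent.FC472D

open MeasureTheory Filter Topology Set
open scoped ENNReal ContDiff

/-- The Euclidean space `ℝⁿ`. -/
abbrev Rn (n : ℕ) : Type := EuclideanSpace ℝ (Fin n)

/-- `G` is a weak (distributional) differential of the map `f` in the open set `Ω`:
`∫_Ω (∂_v φ) f = - ∫_Ω φ (G v)` for every test function `φ ∈ C_c^∞(Ω)` and every vector `v`. -/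
def IsWeakDeriv {n : ℕ} (Ω : Set (Rn n)) (f : Rn n → Rn n) (G : Rn n → Rn n →L[ℝ] Rn n) : Prop :=
  ∀ φ : Rn n → ℝ, ContDiff ℝ ∞ φ → HasCompactSupport φ → tsupport φ ⊆ Ω → ∀ v : Rn n,
    ∫ x in Ω, (fderiv ℝ φ x v) • f x = -∫ x in Ω, φ x • (G x v)

lemma integrable_smul_Lp {n : ℕ} {F : Type*} [NormedAddCommGroup F] [NormedSpace ℝ F]
    {μ : Measure (Rn n)} [IsLocallyFiniteMeasure μ] {p : ℝ≥0∞} [hp : Fact (1 ≤ p)]
    (h : Lp F p μ) {ψ : Rn n → ℝ} (hψ : Continuous ψ) (hc : HasCompactSupport ψ) :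
    Integrable (fun x => ψ x • h x) μ :=
  ((Lp.memLp h).locallyIntegrable hp.out).integrable_smul_left_of_hasCompactSupport hψ hc

lemma integrable_smul_Lp_apply {n : ℕ} {μ : Measure (Rn n)} [IsLocallyFiniteMeasure μ]
    {p : ℝ≥0∞} [hp : Fact (1 ≤ p)]
    (h : Lp (Rn n →L[ℝ] Rn n) p μ) {ψ : Rn n → ℝ} (hψ : Continuous ψ) (hc : HasCompactSupport ψ)
    (v : Rn n) :
    Integrable (fun x => ψ x • (h x v)) μ := by
  have h1 := integrable_smul_Lp h hψ hc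
  exact h1.apply_continuousLinearMap v

/-- The ambient space of pairs (map, differential) of class `L^p`. -/
abbrev Amb (n : ℕ) (Ω : Set (Rn n)) (p : ℝ≥0∞) : Type :=
  Lp (Rn n) p (volume.restrict Ω) × Lp (Rn n →L[ℝ] Rn n) p (volume.restrict Ω)

theorem isWeakDeriv_add {n : ℕ} {Ω : Set (Rn n)} {p : ℝ≥0∞} [Fact (1 ≤ p)] {F G : Amb n Ω p}
    (hF : IsWeakDeriv Ω F.1 F.2) (hG : IsWeakDeriv Ω G.1 G.2) :
    IsWeakDeriv Ω (F + G).1 (F + G).2 := by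
  intro φ hφ hc hsub v
  have hd : Continuous (fun x => fderiv ℝ φ x v) :=
    (hφ.continuous_fderiv (by simp)).clm_apply continuous_const
  have hdc : HasCompactSupport (fun x => fderiv ℝ φ x v) := hc.fderiv_apply ℝ v
  have e1 : ∫ x in Ω, (fderiv ℝ φ x v) • ((F + G).1 : Rn n → Rn n) x =
      ∫ x in Ω, ((fderiv ℝ φ x v) • (F.1 : Rn n → Rn n) x
        + (fderiv ℝ φ x v) • (G.1 : Rn n → Rn n) x) := by
    apply integral_congr_ae
    filter_upwards [Lp.coeFn_add F.1 G.1] with x hx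
    rw [Prod.fst_add, hx, Pi.add_apply, smul_add]
  have e2 : ∫ x in Ω, φ x • (((F + G).2 : Rn n → Rn n →L[ℝ] Rn n) x v) =
      ∫ x in Ω, (φ x • ((F.2 : Rn n → Rn n →L[ℝ] Rn n) x v)
        + φ x • ((G.2 : Rn n → Rn n →L[ℝ] Rn n) x v)) := by
    apply integral_congr_ae
    filter_upwards [Lp.coeFn_add F.2 G.2] with x hx
    rw [Prod.snd_add, hx, Pi.add_apply, add_apply, smul_add]
  rw [e1, e2, integral_add (integrable_smul_Lp F.1 hd hdc) (integrable_smul_Lp G.1 hd hdc),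
    integral_add (integrable_smul_Lp_apply F.2 hφ.continuous hc v)
      (integrable_smul_Lp_apply G.2 hφ.continuous hc v), hF φ hφ hc hsub v, hG φ hφ hc hsub v]
  abel

theorem isWeakDeriv_zero {n : ℕ} {Ω : Set (Rn n)} {p : ℝ≥0∞} [Fact (1 ≤ p)] :
    IsWeakDeriv Ω (0 : Amb n Ω p).1 (0 : Amb n Ω p).2 := by
  intro φ hφ hc hsub v
  have e1 : ∫ x in Ω, (fderiv ℝ φ x v) • ((0 : Amb n Ω p).1 : Rn n → Rn n) x = 0 := by
    rw [← integral_zero (Rn n) (Rn n) (μ := volume.restrict Ω)]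
    apply integral_congr_ae
    filter_upwards [Lp.coeFn_zero (Rn n) p (volume.restrict Ω)] with x hx
    rw [Prod.fst_zero, hx, Pi.zero_apply, smul_zero]
  have e2 : ∫ x in Ω, φ x • (((0 : Amb n Ω p).2 : Rn n → Rn n →L[ℝ] Rn n) x v) = 0 := by
    rw [← integral_zero (Rn n) (Rn n) (μ := volume.restrict Ω)]
    apply integral_congr_ae
    filter_upwards [Lp.coeFn_zero (Rn n →L[ℝ] Rn n) p (volume.restrict Ω)] with x hx
    rw [Prod.snd_zero, hx, Pi.zero_apply, zero_apply, smul_zero]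
  rw [e1, e2, neg_zero]

theorem isWeakDeriv_smul {n : ℕ} {Ω : Set (Rn n)} {p : ℝ≥0∞} [Fact (1 ≤ p)] (c : ℝ)
    {F : Amb n Ω p} (hF : IsWeakDeriv Ω F.1 F.2) : IsWeakDeriv Ω (c • F).1 (c • F).2 := by
  intro φ hφ hc hsub v
  have e1 : ∫ x in Ω, (fderiv ℝ φ x v) • ((c • F).1 : Rn n → Rn n) x =
      ∫ x in Ω, c • ((fderiv ℝ φ x v) • (F.1 : Rn n → Rn n) x) := by
    apply integral_congr_ae
    filter_upwards [Lp.coeFn_smul c F.1] with x hx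
    rw [Prod.smul_fst, hx, Pi.smul_apply, smul_comm]
  have e2 : ∫ x in Ω, φ x • (((c • F).2 : Rn n → Rn n →L[ℝ] Rn n) x v) =
      ∫ x in Ω, c • (φ x • ((F.2 : Rn n → Rn n →L[ℝ] Rn n) x v)) := by
    apply integral_congr_ae
    filter_upwards [Lp.coeFn_smul c F.2] with x hx
    rw [Prod.smul_snd, hx, Pi.smul_apply, smul_apply, smul_comm]
  rw [e1, e2, integral_smul, integral_smul, hF φ hφ hc hsub v, smul_neg]

/-- The Sobolev space `W^{1,p}(Ω, ℝⁿ)`, realised as the space of pairs `(f, Df)` of an `L^p` map and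
its `L^p` weak differential. It carries the norm `max (‖f‖_{L^p}) (‖Df‖_{L^p})`, which is
equivalent to the usual Sobolev norm. -/
noncomputable def W1p (n : ℕ) (Ω : Set (Rn n)) (p : ℝ≥0∞) [Fact (1 ≤ p)] :
    Submodule ℝ (Amb n Ω p) where
  carrier := {F | IsWeakDeriv Ω F.1 F.2}
  add_mem' := isWeakDeriv_add
  zero_mem' := isWeakDeriv_zero
  smul_mem' := isWeakDeriv_smul

/-- `g` is a `C^m` diffeomorphism of the open set `Ω` onto the open set `Ω'`. -/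
def IsDiffeo {n : ℕ} (m : ℕ∞) (Ω Ω' : Set (Rn n)) (g : Rn n → Rn n) : Prop :=
  ContDiffOn ℝ m g Ω ∧ BijOn g Ω Ω' ∧
    ∃ h : Rn n → Rn n, ContDiffOn ℝ m h Ω' ∧ MapsTo h Ω' Ω ∧ ∀ y ∈ Ω', g (h y) = y

/-- The elements of `W^{1,p}(Ω, ℝⁿ)` represented by a `C^m` diffeomorphism of `Ω` onto `Ω'`. -/
def Diffeos (m : ℕ∞) {n : ℕ} (Ω Ω' : Set (Rn n)) (p : ℝ≥0∞) [Fact (1 ≤ p)] :
    Set (W1p n Ω p) :=
  {F | ∃ g : Rn n → Rn n, IsDiffeo m Ω Ω' g ∧ (F.1.1 : Rn n → Rn n) =ᵐ[volume.restrict Ω] g}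

/-- `W^{1,p}(Ω, Ω')`: the elements of `W^{1,p}(Ω, ℝⁿ)` with values in `Ω'` (almost everywhere). -/
def Valued {n : ℕ} (Ω Ω' : Set (Rn n)) (p : ℝ≥0∞) [Fact (1 ≤ p)] : Set (W1p n Ω p) :=
  {F | ∀ᵐ x ∂(volume.restrict Ω), (F.1.1 : Rn n → Rn n) x ∈ Ω'}

/-- The weak closure: all `F ∈ W^{1,p}(Ω, Ω')` for which there are diffeomorphisms
`G k ∈ W^{1,p}(Ω, ℝⁿ)` of `Ω` onto `Ω'` with `ℓ (G k) → ℓ F` for every continuous linear functional
`ℓ` on `W^{1,p}(Ω, ℝⁿ)`. -/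
def weakClosure (m : ℕ∞) {n : ℕ} (Ω Ω' : Set (Rn n)) (p : ℝ≥0∞) [Fact (1 ≤ p)] :
    Set (W1p n Ω p) :=
  {F | F ∈ Valued Ω Ω' p ∧ ∃ G : ℕ → W1p n Ω p, (∀ k, G k ∈ Diffeos m Ω Ω' p) ∧
    ∀ ℓ : W1p n Ω p →L[ℝ] ℝ, Tendsto (fun k => ℓ (G k)) atTop (𝓝 (ℓ F))}

/-- The strong closure: all `F ∈ W^{1,p}(Ω, Ω')` for which there are diffeomorphisms
`G k ∈ W^{1,p}(Ω, ℝⁿ)` of `Ω` onto `Ω'` with `G k → F` in the norm of `W^{1,p}(Ω, ℝⁿ)`. -/
def strongClosure (m : ℕ∞) {n : ℕ} (Ω Ω' : Set (Rn n)) (p : ℝ≥0∞) [Fact (1 ≤ p)] :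
    Set (W1p n Ω p) :=
  {F | F ∈ Valued Ω Ω' p ∧ ∃ G : ℕ → W1p n Ω p, (∀ k, G k ∈ Diffeos m Ω Ω' p) ∧
    Tendsto G atTop (𝓝 F)}

end Pool.Agent.FC472D
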