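import Mathlib

/-!
# The radial family of Moebius maps

For a unit vector `e` and `q ≥ 0`, `mob e q` maps every sphere `‖x‖ = r` to itself; on that sphere it
is the Moebius dilation with factor `q ^ 2` towards the pole `r • e`.
-/

namespace Pool.Agent.FC472D

open MeasureTheory Filter Topology Set Module Metric
open scoped ENNReal NNReal RealInnerProductSpace

section defs

variable {V : Type*} [NormedAddCommGroup V] [InnerProductSpace ℝ V]

/-- `‖x‖ + ⟪e, x⟫` -/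
noncomputable def sp (e x : V) : ℝ := ‖x‖ + ⟪e, x⟫

/-- `‖x‖ - ⟪e, x⟫` -/
noncomputable def sm (e x : V) : ℝ := ‖x‖ - ⟪e, x⟫

/-- the denominator -/
noncomputable def den (e : V) (q : ℝ) (x : V) : ℝ := sp e x + q ^ 4 * sm e x

/-- the conformal factor -/
noncomputable def cf (e : V) (q : ℝ) (x : V) : ℝ := 2 * q ^ 2 * ‖x‖ / den e q x

/-- auxiliary vector -/
noncomputable def wv (e : V) (q : ℝ) (x : V) : V := x - ⟪e, x⟫ • e - (q ^ 2 * sm e x) • e

/-- the Moebius map -/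
noncomputable def mob (e : V) (q : ℝ) (x : V) : V := ‖x‖ • e + cf e q x • wv e q x

variable {e : V} (he : ‖e‖ = 1)

include he

lemma abs_inner_le (x : V) : |⟪e, x⟫| ≤ ‖x‖ := by
  have := abs_real_inner_le_norm e x
  rwa [he, one_mul] at this

lemma sp_nonneg (x : V) : 0 ≤ sp e x := by
  have := abs_le.1 (abs_inner_le he x)
  unfold sp; linarith

lemma sm_nonneg (x : V) : 0 ≤ sm e x := by
  have := abs_le.1 (abs_inner_le he x)
  unfold sm; linarith

lemma den_nonneg (q : ℝ) (x : V) : 0 ≤ den e q x := by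
  have h1 := sp_nonneg he x
  have h2 := sm_nonneg he x
  unfold den; positivity

omit he in
lemma sp_add_sm (x : V) : sp e x + sm e x = 2 * ‖x‖ := by unfold sp sm; ring

lemma den_pos {q : ℝ} (hq : 0 < q) {x : V} (hx : x ≠ 0) : 0 < den e q x := by
  have h1 := sp_nonneg he x
  have h2 := sm_nonneg he x
  have h3 : 0 < ‖x‖ := norm_pos_iff.2 hx
  have h4 := sp_add_sm (e := e) x
  have h5 : 0 < q ^ 4 := by positivity
  unfold den
  rcases h1.lt_or_eq with h | h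
  · positivity
  · have : 0 < sm e x := by linarith
    positivity

lemma den_pos' (q : ℝ) {x : V} (hx : 0 < sp e x) : 0 < den e q x := by
  have h2 := sm_nonneg he x
  unfold den; positivity

lemma inner_self_e : ⟪e, e⟫ = 1 := by
  rw [real_inner_self_eq_norm_sq, he]; norm_num

lemma norm_sub_sq_e (x : V) : ‖x - ⟪e, x⟫ • e‖ ^ 2 = sp e x * sm e x := by
  rw [norm_sub_sq_real, norm_smul, he, real_inner_smul_right, real_inner_comm e x]
  unfold sp sm
  rw [mul_one, Real.norm_eq_abs, sq_abs]; ring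

lemma inner_e_proj (x : V) : ⟪x - ⟪e, x⟫ • e, e⟫ = 0 := by
  rw [inner_sub_left, real_inner_smul_left, inner_self_e he, real_inner_comm]; ring

lemma norm_proj_add_smul (x : V) (c : ℝ) : ‖(x - ⟪e, x⟫ • e) + c • e‖ ^ 2
    = sp e x * sm e x + c ^ 2 := by
  rw [norm_add_sq_real, norm_sub_sq_e he, real_inner_smul_right, inner_e_proj he, norm_smul, he,
    Real.norm_eq_abs, mul_one, sq_abs]
  ring

lemma norm_wv_sq (q : ℝ) (x : V) : ‖wv e q x‖ ^ 2 = sm e x * den e q x := by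
  have h : wv e q x = (x - ⟪e, x⟫ • e) + (-(q ^ 2 * sm e x)) • e := by
    unfold wv; rw [neg_smul]; abel
  rw [h, norm_proj_add_smul he]
  unfold den; ring

omit he in
lemma mob_eq (q : ℝ) (x : V) : mob e q x = cf e q x • (x - ⟪e, x⟫ • e) +
    (‖x‖ - cf e q x * (q ^ 2 * sm e x)) • e := by
  unfold mob wv
  rw [sub_smul, smul_sub, smul_smul]
  abel

omit he in
lemma cf_mul_den {q : ℝ} {x : V} (h : den e q x ≠ 0) : cf e q x * den e q x = 2 * q ^ 2 * ‖x‖ := by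
  unfold cf; field_simp

lemma norm_mob (q : ℝ) (x : V) : ‖mob e q x‖ = ‖x‖ := by
  have hsq : ‖mob e q x‖ ^ 2 = ‖x‖ ^ 2 := by
    by_cases hD : den e q x = 0
    · have hcf : cf e q x = 0 := by unfold cf; rw [hD, div_zero]
      unfold mob
      rw [hcf, zero_smul, add_zero, norm_smul, he, mul_one, norm_norm]
    · rw [mob_eq, norm_add_sq_real, norm_smul, mul_pow, norm_sub_sq_e he, real_inner_smul_left,
        real_inner_smul_right, inner_e_proj he, norm_smul, he, Real.norm_eq_abs, Real.norm_eq_abs,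
        mul_one, sq_abs, sq_abs]
      have h1 := cf_mul_den hD
      have h2 : den e q x = sp e x + q ^ 4 * sm e x := rfl
      linear_combination (cf e q x * sm e x) * h1 - (cf e q x ^ 2 * sm e x) * h2
  have h0 : 0 ≤ ‖mob e q x‖ := norm_nonneg _
  have h1 : 0 ≤ ‖x‖ := norm_nonneg _
  exact (pow_left_inj₀ h0 h1 two_ne_zero).1 hsq

lemma inner_mob (q : ℝ) (x : V) : ⟪e, mob e q x⟫ = ‖x‖ - cf e q x * (q ^ 2 * sm e x) := by
  rw [mob_eq, inner_add_right, real_inner_smul_right, real_inner_smul_right, inner_self_e he,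
    real_inner_comm, inner_e_proj he]
  ring

lemma mob_zero_right (q : ℝ) : mob e q (0 : V) = 0 := by
  have := norm_mob he q (0 : V)
  rwa [norm_zero, norm_eq_zero] at this

/-- group law: `mob e q⁻¹` is the inverse of `mob e q`. -/
lemma mob_inv_mob {q : ℝ} (hq : 0 < q) (x : V) : mob e q⁻¹ (mob e q x) = x := by
  by_cases hx : x = 0
  · rw [hx, mob_zero_right he, mob_zero_right he]
  have hD := (den_pos he hq hx).ne'
  have hr : ‖x‖ ≠ 0 := norm_ne_zero_iff.2 hx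
  have h1 := cf_mul_den hD
  have h2 : den e q x = sp e x + q ^ 4 * sm e x := rfl
  have h3 := sp_add_sm (e := e) x
  have hsm : sm e (mob e q x) = cf e q x * (q ^ 2 * sm e x) := by
    unfold sm; rw [norm_mob he, inner_mob he]; unfold sm; ring
  have hsp : sp e (mob e q x) = 2 * ‖x‖ - cf e q x * (q ^ 2 * sm e x) := by
    unfold sp; rw [norm_mob he, inner_mob he]; ring
  have hcf0 : cf e q x ≠ 0 := by
    unfold cf
    have : 0 < ‖x‖ := norm_pos_iff.2 hx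
    positivity
  have hden : den e q⁻¹ (mob e q x) * den e q x = 4 * ‖x‖ ^ 2 := by
    unfold den at h1 h2 ⊢
    rw [hsm, hsp]
    field_simp
    linear_combination (- q ^ 4 * sm e x + sm e x) * h1 + (2 * ‖x‖ * q ^ 2) * h3
  have hdne : den e q⁻¹ (mob e q x) ≠ 0 := by
    intro h
    rw [h, zero_mul] at hden
    have : ‖x‖ ^ 2 ≠ 0 := pow_ne_zero _ hr
    apply this; linarith
  have hcfinv : cf e q⁻¹ (mob e q x) * cf e q x = 1 := by
    have e1 : cf e q⁻¹ (mob e q x) * den e q⁻¹ (mob e q x) = 2 * q⁻¹ ^ 2 * ‖x‖ := by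
      rw [cf_mul_den hdne, norm_mob he]
    have e2 : (cf e q⁻¹ (mob e q x) * cf e q x) * (4 * ‖x‖ ^ 2) = 4 * ‖x‖ ^ 2 := by
      rw [← hden]
      calc cf e q⁻¹ (mob e q x) * cf e q x * (den e q⁻¹ (mob e q x) * den e q x)
          = (cf e q⁻¹ (mob e q x) * den e q⁻¹ (mob e q x)) * (cf e q x * den e q x) := by ring
        _ = (2 * q⁻¹ ^ 2 * ‖x‖) * (2 * q ^ 2 * ‖x‖) := by rw [e1, h1]
        _ = 4 * ‖x‖ ^ 2 := by field_simp; ring
        _ = den e q⁻¹ (mob e q x) * den e q x := by rw [hden]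
    have e3 : (4 * ‖x‖ ^ 2) ≠ 0 := by positivity
    exact mul_right_cancel₀ e3 (by rw [e2, one_mul])
  have hproj : mob e q x - ⟪e, mob e q x⟫ • e = cf e q x • (x - ⟪e, x⟫ • e) := by
    rw [inner_mob he]
    conv_lhs => rw [mob_eq]
    abel
  rw [mob_eq (q⁻¹) (mob e q x), hproj, norm_mob he, smul_smul, hcfinv, one_smul, hsm]
  have : ‖x‖ - cf e q⁻¹ (mob e q x) * (q⁻¹ ^ 2 * (cf e q x * (q ^ 2 * sm e x))) = ⟪e, x⟫ := by
    have : cf e q⁻¹ (mob e q x) * (q⁻¹ ^ 2 * (cf e q x * (q ^ 2 * sm e x)))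
        = (cf e q⁻¹ (mob e q x) * cf e q x) * ((q⁻¹ ^ 2 * q ^ 2) * sm e x) := by ring
    rw [this, hcfinv, inv_pow, inv_mul_cancel₀ (by positivity)]
    unfold sm; ring
  rw [this]
  abel

lemma mob_one (x : V) : mob e 1 x = x := by
  by_cases hx : x = 0
  · rw [hx, mob_zero_right he]
  have hr : ‖x‖ ≠ 0 := norm_ne_zero_iff.2 hx
  have hcf : cf e 1 x = 1 := by
    unfold cf den
    rw [one_pow, mul_one, one_pow, one_mul, sp_add_sm]
    field_simp
  rw [mob_eq, hcf]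
  have : ‖x‖ - 1 * (1 ^ 2 * sm e x) = ⟪e, x⟫ := by unfold sm; ring
  rw [this, one_smul]
  abel

omit he in
lemma mob_zero (x : V) : mob e 0 x = ‖x‖ • e := by
  unfold mob cf; simp

end defs

section derivative

variable {V : Type*} [NormedAddCommGroup V] [InnerProductSpace ℝ V]

/-- derivative of the norm -/
noncomputable def dR (x : V) : V →L[ℝ] ℝ := ‖x‖⁻¹ • innerSL ℝ x

lemma dR_apply (x h : V) : dR x h = ‖x‖⁻¹ * ⟪x, h⟫ := by
  simp [dR]

lemma hasFDerivAt_norm_aux {x : V} (hx : x ≠ 0) : HasFDerivAt (fun y : V => ‖y‖) (dR x) x := by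
  have h1 : HasFDerivAt (fun y : V => ‖y‖ ^ 2) (2 • (innerSL ℝ x)) x :=
    (hasStrictFDerivAt_norm_sq x).hasFDerivAt
  have h2 : ‖x‖ ^ 2 ≠ 0 := pow_ne_zero _ (norm_ne_zero_iff.2 hx)
  have h3 := h1.sqrt h2
  have h4 : (fun y : V => Real.sqrt (‖y‖ ^ 2)) = fun y => ‖y‖ := by
    ext y; rw [Real.sqrt_sq (norm_nonneg y)]
  rw [h4, Real.sqrt_sq (norm_nonneg x)] at h3
  convert h3 using 1
  ext h
  have : ‖x‖ ≠ 0 := norm_ne_zero_iff.2 hx
  rw [dR_apply]
  simp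
  ring

/-- derivative of the denominator -/
noncomputable def dDen (e : V) (q : ℝ) (ω : V →L[ℝ] ℝ) (x : V) : V →L[ℝ] ℝ :=
  (dR x + innerSL ℝ e) + (q ^ 4 • (dR x - innerSL ℝ e) + (4 * q ^ 3 * sm e x) • ω)

/-- derivative of the conformal factor -/
noncomputable def dCf (e : V) (q : ℝ) (ω : V →L[ℝ] ℝ) (x : V) : V →L[ℝ] ℝ :=
  (den e q x)⁻¹ • ((4 * q * ‖x‖) • ω + (2 * q ^ 2) • dR x - cf e q x • dDen e q ω x)

/-- derivative of the Moebius map with variable parameter; `ω` is the derivative of `q`. -/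
noncomputable def dMob (e : V) (q : ℝ) (ω : V →L[ℝ] ℝ) (x : V) : V →L[ℝ] V :=
  (dR x).smulRight e + (cf e q x • (ContinuousLinearMap.id ℝ V - (innerSL ℝ e).smulRight e -
    ((2 * q * sm e x) • ω + q ^ 2 • (dR x - innerSL ℝ e)).smulRight e)
    + (dCf e q ω x).smulRight (wv e q x))

lemma hasFDerivAt_mob {e : V} {q : V → ℝ} {ω : V →L[ℝ] ℝ} {x : V} (hx : x ≠ 0)
    (hq : HasFDerivAt q ω x) (hD : den e (q x) x ≠ 0) :
    HasFDerivAt (fun y => mob e (q y) y) (dMob e (q x) ω x) x := by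
  have hr := hasFDerivAt_norm_aux hx
  have hT : HasFDerivAt (fun y : V => ⟪e, y⟫) (innerSL ℝ e) x := (innerSL ℝ e).hasFDerivAt
  have hsm : HasFDerivAt (fun y : V => sm e y) (dR x - innerSL ℝ e) x := hr.sub hT
  have hsp : HasFDerivAt (fun y : V => sp e y) (dR x + innerSL ℝ e) x := hr.add hT
  have hden : HasFDerivAt (fun y : V => den e (q y) y) (dDen e (q x) ω x) x := by
    have h1 := hsp.add ((hq.pow 4).mul hsm)
    refine h1.congr_fderiv ?_
    ext h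
    simp [dDen]
    ring
  have hcf : HasFDerivAt (fun y : V => cf e (q y) y) (dCf e (q x) ω x) x := by
    have h1 : HasFDerivAt (fun y : V => 2 * q y ^ 2 * ‖y‖ * (den e (q y) y)⁻¹)
      ((2 * q x ^ 2 * ‖x‖) • (-(den e (q x) x ^ 2)⁻¹ • dDen e (q x) ω x) + (den e (q x) x)⁻¹ •
        ((2 * q x ^ 2) • dR x + ‖x‖ • (2 • (2 * q x) • ω))) x := by
      have h2 : HasFDerivAt (fun y : V => (den e (q y) y)⁻¹)
          (-(den e (q x) x ^ 2)⁻¹ • dDen e (q x) ω x) x :=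
        HasDerivAt.comp_hasFDerivAt (h₂ := fun z : ℝ => z⁻¹) (f := fun y : V => den e (q y) y) x
          (hasDerivAt_inv hD) hden
      have h3 : HasFDerivAt (fun y : V => 2 * q y ^ 2) (2 • (2 * q x) • ω) x := by
        refine ((hq.pow 2).const_mul 2).congr_fderiv ?_
        ext h
        simp
      exact (h3.mul hr).mul h2
    have h4 : (fun y : V => cf e (q y) y) = fun y : V => 2 * q y ^ 2 * ‖y‖ * (den e (q y) y)⁻¹ := by
      ext y; rw [cf, div_eq_mul_inv]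
    rw [h4]
    refine h1.congr_fderiv ?_
    ext h
    simp [dCf, cf]
    field_simp
    ring
  have hwv : HasFDerivAt (fun y : V => wv e (q y) y)
      (ContinuousLinearMap.id ℝ V - (innerSL ℝ e).smulRight e -
        ((2 * q x * sm e x) • ω + q x ^ 2 • (dR x - innerSL ℝ e)).smulRight e) x := by
    have h1 := ((hasFDerivAt_id x).sub (hT.smul_const e)).sub
      (((hq.pow 2).mul hsm).smul_const e)
    refine h1.congr_fderiv ?_
    ext h
    simp
    ring_nf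
  have h1 := (hr.smul_const e).add (hcf.smul hwv)
  exact h1

lemma norm_dR_le (x h : V) : |dR x h| ≤ ‖h‖ := by
  rw [dR_apply, abs_mul, abs_inv, abs_norm]
  by_cases hx : ‖x‖ = 0
  · rw [hx]; simp
  · have h1 := abs_real_inner_le_norm x h
    rw [inv_mul_le_iff₀ (lt_of_le_of_ne (norm_nonneg x) (Ne.symm hx))]
    exact h1

lemma abs_dR_add_le {e x : V} (he : ‖e‖ = 1) (hx : x ≠ 0) (h : V) :
    ‖x‖ * |dR x h + ⟪e, h⟫| ^ 2 ≤ 2 * sp e x * ‖h‖ ^ 2 := by
  have hr : 0 < ‖x‖ := norm_pos_iff.2 hx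
  have h1 : dR x h + ⟪e, h⟫ = ⟪‖x‖⁻¹ • x + e, h⟫ := by
    rw [inner_add_left, real_inner_smul_left, dR_apply]
  have h2 : ‖‖x‖⁻¹ • x + e‖ ^ 2 = 2 * sp e x / ‖x‖ := by
    rw [norm_add_sq_real, norm_smul, real_inner_smul_left, he, norm_inv, norm_norm,
      inv_mul_cancel₀ hr.ne', real_inner_comm]
    unfold sp
    field_simp
    ring
  have h3 := abs_real_inner_le_norm (‖x‖⁻¹ • x + e) h
  rw [h1]
  have h4 : |⟪‖x‖⁻¹ • x + e, h⟫| ^ 2 ≤ (‖‖x‖⁻¹ • x + e‖ * ‖h‖) ^ 2 :=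
    pow_le_pow_left₀ (abs_nonneg _) h3 2
  rw [mul_pow, h2] at h4
  calc ‖x‖ * |⟪‖x‖⁻¹ • x + e, h⟫| ^ 2 ≤ ‖x‖ * (2 * sp e x / ‖x‖ * ‖h‖ ^ 2) :=
        mul_le_mul_of_nonneg_left h4 hr.le
    _ = 2 * sp e x * ‖h‖ ^ 2 := by field_simp

/-- **Derivative estimate**: the differential is bounded by the conformal factor. -/
lemma norm_dMob_le {e x : V} (he : ‖e‖ = 1) (hx : x ≠ 0) (hx1 : ‖x‖ ≤ 1) {q : ℝ} (hq0 : 0 ≤ q)
    (hq1 : q ≤ 1) (hD : 0 < den e q x) {ω : V →L[ℝ] ℝ} {c : ℝ} (hω : ‖ω‖ ≤ c) :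
    ‖dMob e q ω x‖ ≤ (8 + 14 * c) * (1 + cf e q x) := by
  have hc0 : 0 ≤ c := (norm_nonneg _).trans hω
  have hr : 0 < ‖x‖ := norm_pos_iff.2 hx
  have hsp := sp_nonneg he x
  have hsm := sm_nonneg he x
  have hss := sp_add_sm (e := e) x
  have hcf0 : 0 ≤ cf e q x := by unfold cf; positivity
  have hcfD := cf_mul_den hD.ne'
  set α := cf e q x with hα
  set D := den e q x with hDdef
  have hDeq : D = sp e x + q ^ 4 * sm e x := rfl
  have hq4 : 0 ≤ q ^ 4 * sm e x := by positivity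
  apply ContinuousLinearMap.opNorm_le_bound _ (by positivity)
  intro h
  set ρ := dR x h with hρ
  set σ := ⟪e, h⟫ with hσ
  have hρ1 : |ρ| ≤ ‖h‖ := norm_dR_le x h
  have hσ1 : |σ| ≤ ‖h‖ := abs_inner_le he h
  have hω1 : |ω h| ≤ c * ‖h‖ := by
    rw [← Real.norm_eq_abs]
    exact (ω.le_opNorm h).trans (mul_le_mul_of_nonneg_right hω (norm_nonneg _))
  have hh : 0 ≤ ‖h‖ := norm_nonneg _
  set W := ‖wv e q x‖ with hW
  have hW0 : 0 ≤ W := norm_nonneg _
  have hWsq : W ^ 2 = sm e x * D := norm_wv_sq he q x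
  set s := W / D with hs
  have hs0 : 0 ≤ s := by positivity
  have hsW : W = s * D := by rw [hs]; field_simp
  have hssq : s ^ 2 * D = sm e x := by
    have : s ^ 2 * D * D = sm e x * D := by
      rw [← hWsq, hsW]; ring
    exact mul_right_cancel₀ hD.ne' this
  -- elementary bounds
  have b1 : q * s ≤ (1 + α) / 2 := by
    have h1 : (q * s) ^ 2 * D ≤ α * D := by
      rw [mul_pow, mul_assoc, hssq, hcfD]
      nlinarith [sq_nonneg q]
    have h2 : (q * s) ^ 2 ≤ α := le_of_mul_le_mul_right h1 hD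
    nlinarith [sq_nonneg (q * s - 1), mul_nonneg hq0 hs0]
  have b2 : q ^ 2 * s ≤ 1 := by
    have h1 : (q ^ 2 * s) ^ 2 * D ≤ 1 * D := by
      rw [mul_pow, mul_assoc, hssq]
      nlinarith
    have h2 : (q ^ 2 * s) ^ 2 ≤ 1 := le_of_mul_le_mul_right h1 hD
    have h3 : 0 ≤ q ^ 2 * s := by positivity
    nlinarith
  have b3 : s * |ρ + σ| ≤ 2 * ‖h‖ := by
    have h1 := abs_dR_add_le he hx h
    have h2 : (s * |ρ + σ|) ^ 2 * (D * ‖x‖) ≤ (2 * ‖h‖) ^ 2 * (D * ‖x‖) := by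
      calc (s * |ρ + σ|) ^ 2 * (D * ‖x‖) = (s ^ 2 * D) * (‖x‖ * |ρ + σ| ^ 2) := by ring
        _ ≤ sm e x * (2 * sp e x * ‖h‖ ^ 2) := by
            rw [hssq]; exact mul_le_mul_of_nonneg_left h1 hsm
        _ ≤ (2 * ‖x‖) * (2 * D * ‖h‖ ^ 2) := by
            apply mul_le_mul (by linarith) _ (by positivity) (by positivity)
            apply mul_le_mul_of_nonneg_right _ (by positivity)
            linarith
        _ = (2 * ‖h‖) ^ 2 * (D * ‖x‖) := by ring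
    have h3 : (s * |ρ + σ|) ^ 2 ≤ (2 * ‖h‖) ^ 2 := le_of_mul_le_mul_right h2 (by positivity)
    exact abs_le_of_sq_le_sq' h3 (by positivity) |>.2
  have b4 : |ρ - σ| ≤ 2 * ‖h‖ := by
    calc |ρ - σ| ≤ |ρ| + |σ| := abs_sub _ _
      _ ≤ 2 * ‖h‖ := by linarith
  have hsm2 : sm e x ≤ 2 := by linarith
  have hqsq : q ^ 2 ≤ 1 := by nlinarith
  -- the three terms
  have t1 : ‖ρ • e‖ ≤ ‖h‖ := by rw [norm_smul, he, mul_one]; exact hρ1
  have t2 : ‖α • (h - σ • e - ((2 * q * sm e x) * ω h + q ^ 2 * (ρ - σ)) • e)‖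
      ≤ α * ((4 + 4 * c) * ‖h‖) := by
    rw [norm_smul, Real.norm_of_nonneg hcf0]
    apply mul_le_mul_of_nonneg_left _ hcf0
    have h1 : ‖h - σ • e‖ ≤ 2 * ‖h‖ := by
      calc ‖h - σ • e‖ ≤ ‖h‖ + ‖σ • e‖ := norm_sub_le _ _
        _ ≤ ‖h‖ + ‖h‖ := by
            rw [norm_smul, he, mul_one]; exact add_le_add le_rfl hσ1
        _ = 2 * ‖h‖ := by ring
    have h2 : ‖((2 * q * sm e x) * ω h + q ^ 2 * (ρ - σ)) • e‖ ≤ (2 + 4 * c) * ‖h‖ := by
      rw [norm_smul, he, mul_one, Real.norm_eq_abs]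
      have h3 : |(2 * q * sm e x) * ω h| ≤ 4 * (c * ‖h‖) := by
        rw [abs_mul, abs_of_nonneg (by positivity : 0 ≤ 2 * q * sm e x)]
        apply mul_le_mul _ hω1 (abs_nonneg _) (by norm_num)
        nlinarith
      have h4 : |q ^ 2 * (ρ - σ)| ≤ 1 * (2 * ‖h‖) := by
        rw [abs_mul, abs_of_nonneg (by positivity : 0 ≤ q ^ 2)]
        exact mul_le_mul hqsq b4 (abs_nonneg _) (by norm_num)
      calc |(2 * q * sm e x) * ω h + q ^ 2 * (ρ - σ)|
          ≤ |(2 * q * sm e x) * ω h| + |q ^ 2 * (ρ - σ)| := abs_add_le _ _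
        _ ≤ (2 + 4 * c) * ‖h‖ := by linarith
    calc ‖h - σ • e - ((2 * q * sm e x) * ω h + q ^ 2 * (ρ - σ)) • e‖
        ≤ ‖h - σ • e‖ + ‖((2 * q * sm e x) * ω h + q ^ 2 * (ρ - σ)) • e‖ := norm_sub_le _ _
      _ ≤ (4 + 4 * c) * ‖h‖ := by linarith
  have t3 : ‖(dCf e q ω x h) • wv e q x‖ ≤ (2 + 2 * c + (4 + 10 * c) * α) * ‖h‖ := by
    rw [norm_smul, Real.norm_eq_abs, ← hW]
    have h1 : dCf e q ω x h = D⁻¹ * ((4 * q * ‖x‖) * ω h + (2 * q ^ 2) * ρ
        - α * ((ρ + σ) + (q ^ 4 * (ρ - σ) + (4 * q ^ 3 * sm e x) * ω h))) := by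
      simp [dCf, dDen, hα, hρ, hσ, hDdef]
      left
      ring
    rw [h1, abs_mul, abs_of_pos (inv_pos.2 hD)]
    have h2 : ∀ A : ℝ, D⁻¹ * A * W = s * A := by
      intro A; rw [hs]; field_simp
    rw [h2]
    have u1 : s * |(4 * q * ‖x‖) * ω h| ≤ 2 * c * (1 + α) * ‖h‖ := by
      rw [abs_mul, abs_of_nonneg (by positivity : 0 ≤ 4 * q * ‖x‖)]
      calc s * (4 * q * ‖x‖ * |ω h|) = 4 * ‖x‖ * (q * s) * |ω h| := by ring
        _ ≤ 4 * 1 * ((1 + α) / 2) * (c * ‖h‖) := by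
            apply mul_le_mul _ hω1 (abs_nonneg _) (by positivity)
            apply mul_le_mul (by linarith) b1 (by positivity) (by norm_num)
        _ = 2 * c * (1 + α) * ‖h‖ := by ring
    have u2 : s * |(2 * q ^ 2) * ρ| ≤ 2 * ‖h‖ := by
      rw [abs_mul, abs_of_nonneg (by positivity : 0 ≤ 2 * q ^ 2)]
      calc s * (2 * q ^ 2 * |ρ|) = 2 * (q ^ 2 * s) * |ρ| := by ring
        _ ≤ 2 * 1 * ‖h‖ := by
            apply mul_le_mul _ hρ1 (abs_nonneg _) (by norm_num)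
            linarith
        _ = 2 * ‖h‖ := by ring
    have u3 : s * |q ^ 4 * (ρ - σ)| ≤ 2 * ‖h‖ := by
      rw [abs_mul, abs_of_nonneg (by positivity : 0 ≤ q ^ 4)]
      calc s * (q ^ 4 * |ρ - σ|) = (q ^ 2 * s) * (q ^ 2 * |ρ - σ|) := by ring
        _ ≤ 1 * (1 * (2 * ‖h‖)) := by
            apply mul_le_mul b2 _ (by positivity) (by norm_num)
            exact mul_le_mul hqsq b4 (abs_nonneg _) (by norm_num)
        _ = 2 * ‖h‖ := by ring
    have u4 : s * |(4 * q ^ 3 * sm e x) * ω h| ≤ 8 * c * ‖h‖ := by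
      rw [abs_mul, abs_of_nonneg (by positivity : 0 ≤ 4 * q ^ 3 * sm e x)]
      calc s * (4 * q ^ 3 * sm e x * |ω h|) = 4 * (q ^ 2 * s) * (q * sm e x) * |ω h| := by ring
        _ ≤ 4 * 1 * (1 * 2) * (c * ‖h‖) := by
            apply mul_le_mul _ hω1 (abs_nonneg _) (by norm_num)
            apply mul_le_mul (by linarith) _ (by positivity) (by norm_num)
            exact mul_le_mul hq1 hsm2 hsm (by norm_num)
        _ = 8 * c * ‖h‖ := by ring
    have v1 : |(4 * q * ‖x‖) * ω h + (2 * q ^ 2) * ρ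
        - α * ((ρ + σ) + (q ^ 4 * (ρ - σ) + (4 * q ^ 3 * sm e x) * ω h))|
        ≤ |(4 * q * ‖x‖) * ω h| + |(2 * q ^ 2) * ρ| + α * (|ρ + σ| + (|q ^ 4 * (ρ - σ)|
          + |(4 * q ^ 3 * sm e x) * ω h|)) := by
      have w1 := abs_sub ((4 * q * ‖x‖) * ω h + (2 * q ^ 2) * ρ)
        (α * ((ρ + σ) + (q ^ 4 * (ρ - σ) + (4 * q ^ 3 * sm e x) * ω h)))
      have w2 := abs_add_le ((4 * q * ‖x‖) * ω h) ((2 * q ^ 2) * ρ)
      have w3 : |α * ((ρ + σ) + (q ^ 4 * (ρ - σ) + (4 * q ^ 3 * sm e x) * ω h))|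
          ≤ α * (|ρ + σ| + (|q ^ 4 * (ρ - σ)| + |(4 * q ^ 3 * sm e x) * ω h|)) := by
        rw [abs_mul, abs_of_nonneg hcf0]
        apply mul_le_mul_of_nonneg_left _ hcf0
        exact (abs_add_le _ _).trans (add_le_add le_rfl (abs_add_le _ _))
      linarith
    calc s * |(4 * q * ‖x‖) * ω h + (2 * q ^ 2) * ρ
        - α * ((ρ + σ) + (q ^ 4 * (ρ - σ) + (4 * q ^ 3 * sm e x) * ω h))|
        ≤ s * (|(4 * q * ‖x‖) * ω h| + |(2 * q ^ 2) * ρ| + α * (|ρ + σ| + (|q ^ 4 * (ρ - σ)|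
          + |(4 * q ^ 3 * sm e x) * ω h|))) := mul_le_mul_of_nonneg_left v1 hs0
      _ = s * |(4 * q * ‖x‖) * ω h| + s * |(2 * q ^ 2) * ρ| + α * (s * |ρ + σ|
          + (s * |q ^ 4 * (ρ - σ)| + s * |(4 * q ^ 3 * sm e x) * ω h|)) := by ring
      _ ≤ 2 * c * (1 + α) * ‖h‖ + 2 * ‖h‖ + α * (2 * ‖h‖ + (2 * ‖h‖ + 8 * c * ‖h‖)) := by
          apply add_le_add (add_le_add u1 u2)
          exact mul_le_mul_of_nonneg_left (add_le_add b3 (add_le_add u3 u4)) hcf0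
      _ = (2 + 2 * c + (4 + 10 * c) * α) * ‖h‖ := by ring
  have hexp : dMob e q ω x h = ρ • e
      + (α • (h - σ • e - ((2 * q * sm e x) * ω h + q ^ 2 * (ρ - σ)) • e)
        + (dCf e q ω x h) • wv e q x) := by
    simp [dMob, hα, hρ, hσ]
  rw [hexp]
  calc ‖ρ • e + (α • (h - σ • e - ((2 * q * sm e x) * ω h + q ^ 2 * (ρ - σ)) • e)
        + (dCf e q ω x h) • wv e q x)‖
      ≤ ‖ρ • e‖ + (‖α • (h - σ • e - ((2 * q * sm e x) * ω h + q ^ 2 * (ρ - σ)) • e)‖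
        + ‖(dCf e q ω x h) • wv e q x‖) :=
        (norm_add_le _ _).trans (add_le_add le_rfl (norm_add_le _ _))
    _ ≤ ‖h‖ + (α * ((4 + 4 * c) * ‖h‖) + (2 + 2 * c + (4 + 10 * c) * α) * ‖h‖) :=
        add_le_add t1 (add_le_add t2 t3)
    _ = (3 + 2 * c + (8 + 14 * c) * α) * ‖h‖ := by ring
    _ ≤ (8 + 14 * c) * (1 + α) * ‖h‖ := by
        apply mul_le_mul_of_nonneg_right _ hh
        nlinarith

end derivative

end Pool.Agent.FC472D
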