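import Mathlib
import Pool.Agent.FC472D.Mobius

/-!
# The Jacobian determinant of the radial Moebius maps
-/

namespace Pool.Agent.FC472D

open MeasureTheory Filter Topology Set Module Metric
open scoped ENNReal NNReal RealInnerProductSpace

variable {V : Type*} [NormedAddCommGroup V] [InnerProductSpace ℝ V] [FiniteDimensional ℝ V]

/-- determinant of a rank two perturbation of a multiple of the identity. -/
lemma det_rank_two (α : ℝ) (hα : α ≠ 0) (a b : V →L[ℝ] ℝ) (x e : V) :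
    (α • ContinuousLinearMap.id ℝ V + (a.smulRight x + b.smulRight e) : V →L[ℝ] V).det * α ^ 2
      = α ^ finrank ℝ V * ((α + a x) * (α + b e) - a e * b x) := by
  classical
  set B := Module.finBasis ℝ V with hB
  set U : (Fin 2 → ℝ) →ₗ[ℝ] V :=
    (LinearMap.proj 0 : (Fin 2 → ℝ) →ₗ[ℝ] ℝ).smulRight x +
    (LinearMap.proj 1 : (Fin 2 → ℝ) →ₗ[ℝ] ℝ).smulRight e with hU
  set W : V →ₗ[ℝ] (Fin 2 → ℝ) := LinearMap.pi ![(a : V →ₗ[ℝ] ℝ), (b : V →ₗ[ℝ] ℝ)] with hW
  set P := Pi.basisFun ℝ (Fin 2) with hP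
  have hmap : ((α • ContinuousLinearMap.id ℝ V + (a.smulRight x + b.smulRight e) : V →L[ℝ] V)
      : V →ₗ[ℝ] V) = α • (LinearMap.id + (α⁻¹ • U) ∘ₗ W) := by
    ext h
    simp [hU, hW, smul_smul, hα]
  show LinearMap.det _ * _ = _
  rw [hmap, LinearMap.det_smul, ← LinearMap.det_toMatrix B, map_add, LinearMap.toMatrix_id,
    LinearMap.toMatrix_comp B P B, Matrix.det_one_add_mul_comm, ← LinearMap.toMatrix_comp P B P,
    ← LinearMap.toMatrix_id P, ← map_add, LinearMap.det_toMatrix]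
  have h2 : LinearMap.det ((LinearMap.id : (Fin 2 → ℝ) →ₗ[ℝ] (Fin 2 → ℝ)) + W ∘ₗ (α⁻¹ • U))
      = (1 + α⁻¹ * a x) * (1 + α⁻¹ * b e) - (α⁻¹ * a e) * (α⁻¹ * b x) := by
    rw [← LinearMap.det_toMatrix P, Matrix.det_fin_two]
    simp [hP, hU, hW]
  rw [h2]
  field_simp

/-- **Jacobian determinant** of the Moebius map with radial parameter. -/
theorem det_dMob {e x : V} (he : ‖e‖ = 1) (hx : x ≠ 0) {q κ : ℝ} (hD : 0 < den e q x)
    (hq : 0 < q) :
    (dMob e q (κ • dR x) x).det = (cf e q x) ^ (finrank ℝ V - 1) := by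
  have hr : 0 < ‖x‖ := norm_pos_iff.2 hx
  have hcf0 : 0 < cf e q x := by unfold cf; positivity
  set τ := ⟪e, x⟫ with hτ
  set r := ‖x‖ with hrdef
  have hsm : sm e x = r - τ := rfl
  have hDeq : den e q x = (r + τ) + q ^ 4 * (r - τ) := rfl
  set a : V →L[ℝ] ℝ := dCf e q (κ • dR x) x with ha
  set b : V →L[ℝ] ℝ := dR x - cf e q x • (innerSL ℝ e) -
    (cf e q x) • ((2 * q * sm e x) • (κ • dR x) + q ^ 2 • (dR x - innerSL ℝ e))
    - (τ + q ^ 2 * sm e x) • a with hb
  have hform : dMob e q (κ • dR x) x =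
      cf e q x • ContinuousLinearMap.id ℝ V + (a.smulRight x + b.smulRight e) := by
    ext1 h
    simp only [dMob, add_apply, ContinuousLinearMap.smulRight_apply,
      smul_apply, sub_apply, ContinuousLinearMap.id_apply,
      hb, ← ha, wv, smul_eq_mul]
    rw [← hτ]
    module
  have hdet := det_rank_two (cf e q x) hcf0.ne' a b x e
  rw [← hform] at hdet
  have hxx : ⟪x, x⟫ = r ^ 2 := real_inner_self_eq_norm_sq x
  have hee : ⟪e, e⟫ = 1 := inner_self_e he
  have hxe : ⟪x, e⟫ = τ := real_inner_comm e x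
  have hRx : dR x x = r := by rw [dR_apply, hxx, ← hrdef]; field_simp
  have hRe : dR x e = τ / r := by rw [dR_apply, hxe, ← hrdef]; field_simp
  have hcfe : cf e q x = 2 * q ^ 2 * r / den e q x := rfl
  have hkey : (cf e q x + a x) * (cf e q x + b e) - a e * b x = cf e q x := by
    have hax : a x = (den e q x)⁻¹ * ((4 * q * r) * (κ * r) + (2 * q ^ 2) * r -
        cf e q x * ((r + τ) + (q ^ 4 * (r - τ) + (4 * q ^ 3 * (r - τ)) * (κ * r)))) := by
      simp only [ha, dCf, dDen, add_apply, smul_apply,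
        sub_apply, smul_eq_mul, hRx, innerSL_apply_apply, ← hτ, hsm, ← hrdef]
    have hae : a e = (den e q x)⁻¹ * ((4 * q * r) * (κ * (τ / r)) + (2 * q ^ 2) * (τ / r) -
        cf e q x * ((τ / r + 1) + (q ^ 4 * (τ / r - 1) + (4 * q ^ 3 * (r - τ)) * (κ * (τ / r))))) := by
      simp only [ha, dCf, dDen, add_apply, smul_apply,
        sub_apply, smul_eq_mul, hRe, innerSL_apply_apply, hee, hsm, ← hrdef]
    have hbx : b x = r - cf e q x * τ - cf e q x * ((2 * q * (r - τ)) * (κ * r) +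
        q ^ 2 * (r - τ)) - (τ + q ^ 2 * (r - τ)) * a x := by
      simp only [hb, add_apply, smul_apply,
        sub_apply, smul_eq_mul, hRx, innerSL_apply_apply, ← hτ, hsm]
    have hbe : b e = τ / r - cf e q x * 1 - cf e q x * ((2 * q * (r - τ)) * (κ * (τ / r)) +
        q ^ 2 * (τ / r - 1)) - (τ + q ^ 2 * (r - τ)) * a e := by
      simp only [hb, add_apply, smul_apply,
        sub_apply, smul_eq_mul, hRe, innerSL_apply_apply, hee, hsm]
    rw [hbx, hbe, hax, hae, hcfe]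
    have hDne : den e q x ≠ 0 := hD.ne'
    rw [hDeq] at hDne ⊢
    field_simp
    ring
  rw [hkey] at hdet
  have hn : 1 ≤ finrank ℝ V := by
    have : Nontrivial V := ⟨⟨x, 0, hx⟩⟩
    exact finrank_pos
  have h3 : cf e q x ^ finrank ℝ V * cf e q x = cf e q x ^ (finrank ℝ V - 1) * cf e q x ^ 2 := by
    rw [← pow_succ, ← pow_add]
    congr 1
    omega
  rw [h3] at hdet
  exact mul_right_cancel₀ (pow_ne_zero _ hcf0.ne') hdet

end Pool.Agent.FC472D
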