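import Mathlib
import Pool.Agent.FC472D.MobDet

/-!
# The family of diffeomorphisms of the unit ball and its limit
-/

namespace Pool.Agent.FC472D

open MeasureTheory Filter Topology Set Module Metric
open scoped ENNReal NNReal RealInnerProductSpace ContDiff

variable {V : Type*} [NormedAddCommGroup V] [InnerProductSpace ℝ V]

/-- radial cut-off: `0` for `‖x‖ ≤ 1/4`, `1` for `‖x‖ ≥ 1/2`. -/
noncomputable def eta (x : V) : ℝ := Real.smoothTransition ((16 * ‖x‖ ^ 2 - 1) / 3)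

lemma eta_nonneg (x : V) : 0 ≤ eta x := Real.smoothTransition.nonneg _

lemma eta_le_one (x : V) : eta x ≤ 1 := Real.smoothTransition.le_one _

lemma eta_of_le {x : V} (hx : ‖x‖ ≤ 1 / 4) : eta x = 0 := by
  apply Real.smoothTransition.zero_of_nonpos
  have h0 := norm_nonneg x
  nlinarith

lemma eta_of_ge {x : V} (hx : 1 / 2 ≤ ‖x‖) : eta x = 1 := by
  apply Real.smoothTransition.one_of_one_le
  rw [le_div_iff₀ (by norm_num)]
  nlinarith

lemma contDiff_eta : ContDiff ℝ ∞ (eta : V → ℝ) := by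
  unfold eta
  apply Real.smoothTransition.contDiff.comp
  exact ((contDiff_const.mul (contDiff_norm_sq ℝ)).sub contDiff_const).div_const _

lemma fderiv_eta (x : V) (hx : x ≠ 0) : ∃ κ : ℝ, fderiv ℝ (eta : V → ℝ) x = κ • dR x := by
  have h1 : HasFDerivAt (fun y : V => ‖y‖ ^ 2) (2 • (innerSL ℝ x)) x :=
    (hasStrictFDerivAt_norm_sq x).hasFDerivAt
  have h2 : HasDerivAt (fun s : ℝ => Real.smoothTransition ((16 * s - 1) / 3))
      (deriv (fun s : ℝ => Real.smoothTransition ((16 * s - 1) / 3)) (‖x‖ ^ 2)) (‖x‖ ^ 2) := by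
    apply DifferentiableAt.hasDerivAt
    have : ContDiff ℝ 1 (fun s : ℝ => Real.smoothTransition ((16 * s - 1) / 3)) := by
      apply Real.smoothTransition.contDiff.comp (n := 1)
      exact ((contDiff_const.mul contDiff_id).sub contDiff_const).div_const _
    exact this.differentiable (by simp) _
  have h3 := HasDerivAt.comp_hasFDerivAt (f := fun y : V => ‖y‖ ^ 2) x h2 h1
  refine ⟨deriv (fun s : ℝ => Real.smoothTransition ((16 * s - 1) / 3)) (‖x‖ ^ 2) * (2 * ‖x‖), ?_⟩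
  have h4 : HasFDerivAt (eta : V → ℝ) _ x := h3
  rw [h4.fderiv]
  ext h
  have hr : ‖x‖ ≠ 0 := norm_ne_zero_iff.2 hx
  simp [dR_apply]
  field_simp

/-- the parameter function -/
noncomputable def qc (c : ℝ) (x : V) : ℝ := 1 - (1 - c) * eta x

lemma qc_le_one {c : ℝ} (hc1 : c ≤ 1) (x : V) : qc c x ≤ 1 := by
  have := eta_nonneg x
  unfold qc
  nlinarith [mul_nonneg (sub_nonneg.2 hc1) this]

lemma le_qc {c : ℝ} (hc1 : c ≤ 1) (x : V) : c ≤ qc c x := by
  have h1 := eta_le_one x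
  have h2 : (1 - c) * eta x ≤ (1 - c) * 1 := mul_le_mul_of_nonneg_left h1 (sub_nonneg.2 hc1)
  unfold qc
  linarith

lemma qc_of_le (c : ℝ) {x : V} (hx : ‖x‖ ≤ 1 / 4) : qc c x = 1 := by
  unfold qc; rw [eta_of_le hx]; ring

lemma qc_of_ge (c : ℝ) {x : V} (hx : 1 / 2 ≤ ‖x‖) : qc c x = c := by
  unfold qc; rw [eta_of_ge hx]; ring

lemma qc_congr (c : ℝ) {x y : V} (h : ‖x‖ = ‖y‖) : qc c x = qc c y := by
  unfold qc eta; rw [h]

lemma contDiff_qc (c : ℝ) : ContDiff ℝ ∞ (qc c : V → ℝ) := by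
  unfold qc
  exact contDiff_const.sub (contDiff_const.mul contDiff_eta)

/-- differential of the parameter function -/
noncomputable def dqc (c : ℝ) (x : V) : V →L[ℝ] ℝ := -((1 - c) • fderiv ℝ (eta : V → ℝ) x)

lemma hasFDerivAt_qc (c : ℝ) (x : V) : HasFDerivAt (qc c : V → ℝ) (dqc c x) x := by
  have h : HasFDerivAt (eta : V → ℝ) (fderiv ℝ (eta : V → ℝ) x) x :=
    (contDiff_eta.differentiable (by simp) x).hasFDerivAt
  exact (h.const_mul (1 - c)).const_sub 1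

/-- the maps -/
noncomputable def Fc (e : V) (c : ℝ) (x : V) : V := mob e (qc c x) x

/-- their differentials -/
noncomputable def Gc (e : V) (c : ℝ) (x : V) : V →L[ℝ] V := dMob e (qc c x) (dqc c x) x

variable {e : V} (he : ‖e‖ = 1)

include he

lemma norm_Fc (c : ℝ) (x : V) : ‖Fc e c x‖ = ‖x‖ := norm_mob he _ _

lemma Fc_of_le (c : ℝ) {x : V} (hx : ‖x‖ ≤ 1 / 4) : Fc e c x = x := by
  unfold Fc; rw [qc_of_le c hx, mob_one he]

omit he in
lemma Fc_zero_of_ge {x : V} (hx : 1 / 2 ≤ ‖x‖) : Fc e 0 x = ‖x‖ • e := by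
  unfold Fc; rw [qc_of_ge 0 hx, mob_zero]

lemma hasFDerivAt_Fc {c : ℝ} (hc0 : 0 < c) (hc1 : c ≤ 1) {x : V} (hx : x ≠ 0) :
    HasFDerivAt (Fc e c) (Gc e c x) x := by
  have hq : 0 < qc c x := lt_of_lt_of_le hc0 (le_qc hc1 x)
  exact hasFDerivAt_mob hx (hasFDerivAt_qc c x) (den_pos he hq hx).ne'

lemma contDiffAt_mob {m : WithTop ℕ∞} {q : V → ℝ} {x : V} (hx : x ≠ 0) (hq : ContDiffAt ℝ m q x)
    (hD : den e (q x) x ≠ 0) : ContDiffAt ℝ m (fun y => mob e (q y) y) x := by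
  have h1 : ContDiffAt ℝ m (fun y : V => ‖y‖) x := contDiffAt_norm ℝ hx
  have h2 : ContDiffAt ℝ m (fun y : V => ⟪e, y⟫) x := contDiffAt_const.inner ℝ contDiffAt_id
  have h3 : ContDiffAt ℝ m (fun y : V => sm e y) x := h1.sub h2
  have h4 : ContDiffAt ℝ m (fun y : V => sp e y) x := h1.add h2
  have h5 : ContDiffAt ℝ m (fun y : V => den e (q y) y) x := h4.add ((hq.pow 4).mul h3)
  have h6 : ContDiffAt ℝ m (fun y : V => cf e (q y) y) x :=
    ((contDiffAt_const.mul (hq.pow 2)).mul h1).div h5 hD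
  have h7 : ContDiffAt ℝ m (fun y : V => wv e (q y) y) x :=
    (contDiffAt_id.sub (h2.smul contDiffAt_const)).sub
      (((hq.pow 2).mul h3).smul contDiffAt_const)
  exact (h1.smul contDiffAt_const).add (h6.smul h7)

lemma contDiff_mob_of {q : V → ℝ} (hq : ContDiff ℝ ∞ q) (hpos : ∀ x, 0 < q x)
    (h1 : ∀ x : V, ‖x‖ ≤ 1 / 4 → q x = 1) : ContDiff ℝ ∞ (fun y => mob e (q y) y) := by
  rw [contDiff_iff_contDiffAt]
  intro x
  by_cases hx : x = 0
  · have : (fun y : V => mob e (q y) y) =ᶠ[𝓝 x] fun y => y := by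
      have hmem : ball (0 : V) (1 / 4) ∈ 𝓝 x := by
        rw [hx]; exact ball_mem_nhds _ (by norm_num)
      filter_upwards [hmem] with y hy
      rw [mem_ball_zero_iff] at hy
      rw [h1 y hy.le, mob_one he]
    exact contDiffAt_id.congr_of_eventuallyEq this
  · exact contDiffAt_mob he hx hq.contDiffAt (den_pos he (hpos x) hx).ne'

lemma contDiff_Fc {c : ℝ} (hc0 : 0 < c) (hc1 : c ≤ 1) : ContDiff ℝ ∞ (Fc e c) :=
  contDiff_mob_of he (contDiff_qc c) (fun x => lt_of_lt_of_le hc0 (le_qc hc1 x))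
    (fun _ hx => qc_of_le c hx)

/-- inverse maps -/
noncomputable def Hc (e : V) (c : ℝ) (x : V) : V := mob e (qc c x)⁻¹ x

lemma contDiff_Hc {c : ℝ} (hc0 : 0 < c) (hc1 : c ≤ 1) : ContDiff ℝ ∞ (Hc e c) := by
  have hpos : ∀ x : V, 0 < qc c x := fun x => lt_of_lt_of_le hc0 (le_qc hc1 x)
  apply contDiff_mob_of he ((contDiff_qc c).inv fun x => (hpos x).ne')
    (fun x => inv_pos.2 (hpos x))
  intro x hx
  rw [Pi.inv_apply, qc_of_le c hx, inv_one]

lemma norm_Hc (c : ℝ) (x : V) : ‖Hc e c x‖ = ‖x‖ := norm_mob he _ _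

lemma Hc_Fc {c : ℝ} (hc0 : 0 < c) (hc1 : c ≤ 1) (x : V) : Hc e c (Fc e c x) = x := by
  unfold Hc
  rw [qc_congr c (norm_Fc he c x)]
  exact mob_inv_mob he (lt_of_lt_of_le hc0 (le_qc hc1 x)) x

lemma Fc_Hc {c : ℝ} (hc0 : 0 < c) (hc1 : c ≤ 1) (x : V) : Fc e c (Hc e c x) = x := by
  unfold Fc
  rw [qc_congr c (norm_Hc he c x)]
  have hpos : 0 < qc c x := lt_of_lt_of_le hc0 (le_qc hc1 x)
  have := mob_inv_mob he (inv_pos.2 hpos) x
  rwa [inv_inv] at this

/-! ### pointwise convergence -/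

omit he in
lemma tendsto_qc (x : V) : Tendsto (fun c => qc c x) (𝓝[>] (0 : ℝ)) (𝓝 (qc 0 x)) := by
  have : Continuous (fun c : ℝ => qc c x) := by unfold qc; fun_prop
  exact (this.tendsto 0).mono_left nhdsWithin_le_nhds

omit he in
lemma tendsto_dqc (x : V) : Tendsto (fun c => dqc c x) (𝓝[>] (0 : ℝ)) (𝓝 (dqc 0 x)) := by
  have : Continuous (fun c : ℝ => dqc c x) := by unfold dqc; fun_prop
  exact (this.tendsto 0).mono_left nhdsWithin_le_nhds

omit he in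
lemma continuousAt_cf {x : V} {q : ℝ} (hD : den e q x ≠ 0) : ContinuousAt (fun q => cf e q x) q := by
  have hden : Continuous (fun q => den e q x) := by unfold den; fun_prop
  have h1 : Continuous (fun q : ℝ => 2 * q ^ 2 * ‖x‖) := by fun_prop
  exact h1.continuousAt.div hden.continuousAt hD

omit he in
lemma continuousAt_mob {x : V} {q : ℝ} (hD : den e q x ≠ 0) :
    ContinuousAt (fun q => mob e q x) q := by
  have hwv : Continuous (fun q => wv e q x) := by unfold wv; fun_prop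
  exact continuousAt_const.add ((continuousAt_cf hD).smul hwv.continuousAt)

omit he in
lemma continuousAt_dMob [FiniteDimensional ℝ V] {x : V} {q : ℝ} {om : V →L[ℝ] ℝ}
    (hD : den e q x ≠ 0) :
    ContinuousAt (fun P : ℝ × (V →L[ℝ] ℝ) => dMob e P.1 P.2 x) (q, om) := by
  rw [continuousAt_clm_apply]
  intro h
  have hden : Continuous (fun q => den e q x) := by unfold den; fun_prop
  have hcf : ContinuousAt (fun P : ℝ × (V →L[ℝ] ℝ) => cf e P.1 x) (q, om) :=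
    ContinuousAt.comp (f := fun P : ℝ × (V →L[ℝ] ℝ) => P.1) (continuousAt_cf hD) continuousAt_fst
  have hwv : Continuous (fun q => wv e q x) := by unfold wv; fun_prop
  have hwv' : ContinuousAt (fun P : ℝ × (V →L[ℝ] ℝ) => wv e P.1 x) (q, om) :=
    (hwv.comp continuous_fst).continuousAt
  have hdDen : ContinuousAt (fun P : ℝ × (V →L[ℝ] ℝ) => dDen e P.1 P.2 x h) (q, om) := by
    have : (fun P : ℝ × (V →L[ℝ] ℝ) => dDen e P.1 P.2 x h) = fun P =>
        (dR x h + ⟪e, h⟫) + (P.1 ^ 4 * (dR x h - ⟪e, h⟫) + (4 * P.1 ^ 3 * sm e x) * P.2 h) := by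
      ext P; simp [dDen]
    rw [this]
    apply Continuous.continuousAt
    fun_prop
  have hinv : ContinuousAt (fun P : ℝ × (V →L[ℝ] ℝ) => (den e P.1 x)⁻¹) (q, om) :=
    ((hden.comp continuous_fst).continuousAt).inv₀ hD
  have hdCf : ContinuousAt (fun P : ℝ × (V →L[ℝ] ℝ) => dCf e P.1 P.2 x h) (q, om) := by
    have : (fun P : ℝ × (V →L[ℝ] ℝ) => dCf e P.1 P.2 x h) = fun P =>
        (den e P.1 x)⁻¹ * ((4 * P.1 * ‖x‖) * P.2 h + (2 * P.1 ^ 2) * dR x h
          - cf e P.1 x * dDen e P.1 P.2 x h) := by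
      ext P; simp [dCf]
    rw [this]
    apply hinv.mul
    apply ContinuousAt.sub
    · apply Continuous.continuousAt
      fun_prop
    · exact hcf.mul hdDen
  have hfin : (fun P : ℝ × (V →L[ℝ] ℝ) => dMob e P.1 P.2 x h) = fun P =>
      (dR x h) • e + (cf e P.1 x • (h - ⟪e, h⟫ • e -
        ((2 * P.1 * sm e x) * P.2 h + P.1 ^ 2 * (dR x h - ⟪e, h⟫)) • e)
        + (dCf e P.1 P.2 x h) • wv e P.1 x) := by
    ext1 P
    simp [dMob]
  rw [hfin]
  apply continuousAt_const.add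
  apply ContinuousAt.add
  · apply hcf.smul
    apply Continuous.continuousAt
    fun_prop
  · exact hdCf.smul hwv'

lemma tendsto_Fc {x : V} (hx : 0 < sp e x) :
    Tendsto (fun c => Fc e c x) (𝓝[>] (0 : ℝ)) (𝓝 (Fc e 0 x)) := by
  have h1 := continuousAt_mob (e := e) (x := x) (q := qc 0 x) (den_pos' he _ hx).ne'
  exact h1.tendsto.comp (tendsto_qc x)

lemma tendsto_Gc [FiniteDimensional ℝ V] {x : V} (hx : 0 < sp e x) :
    Tendsto (fun c => Gc e c x) (𝓝[>] (0 : ℝ)) (𝓝 (Gc e 0 x)) := by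
  have hD : den e (qc 0 x) x ≠ 0 := (den_pos' he (qc 0 x) hx).ne'
  have h1 : ContinuousAt (fun P : ℝ × (V →L[ℝ] ℝ) => dMob e P.1 P.2 x) (qc 0 x, dqc 0 x) :=
    continuousAt_dMob hD
  have h2 : Tendsto (fun c => (qc c x, dqc c x)) (𝓝[>] (0 : ℝ)) (𝓝 (qc 0 x, dqc 0 x)) :=
    (tendsto_qc x).prodMk_nhds (tendsto_dqc x)
  have h3 : Tendsto ((fun P : ℝ × (V →L[ℝ] ℝ) => dMob e P.1 P.2 x) ∘
      (fun c => (qc c x, dqc c x))) (𝓝[>] (0 : ℝ))
      (𝓝 ((fun P : ℝ × (V →L[ℝ] ℝ) => dMob e P.1 P.2 x) (qc 0 x, dqc 0 x))) :=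
    Tendsto.comp h1 h2
  exact h3

/-! ### the limit differential on the two special regions -/

omit he in
lemma dqc_of_lt (c : ℝ) {x : V} (hx : ‖x‖ < 1 / 4) : dqc c x = 0 := by
  have h : (eta : V → ℝ) =ᶠ[𝓝 x] fun _ => 0 := by
    have hmem : ball (0 : V) (1 / 4) ∈ 𝓝 x := isOpen_ball.mem_nhds (by simpa using hx)
    filter_upwards [hmem] with y hy
    rw [mem_ball_zero_iff] at hy
    exact eta_of_le hy.le
  unfold dqc
  rw [h.fderiv_eq]
  simp

omit he in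
lemma dqc_of_gt (c : ℝ) {x : V} (hx : 1 / 2 < ‖x‖) : dqc c x = 0 := by
  have h : (eta : V → ℝ) =ᶠ[𝓝 x] fun _ => 1 := by
    have hmem : {y : V | 1 / 2 < ‖y‖} ∈ 𝓝 x :=
      (isOpen_lt continuous_const continuous_norm).mem_nhds hx
    filter_upwards [hmem] with y hy
    exact eta_of_ge (le_of_lt hy)
  unfold dqc
  rw [h.fderiv_eq]
  simp

omit he in
lemma Gc_zero_of_gt {x : V} (hx : 1 / 2 < ‖x‖) (h : V) : Gc e 0 x h = dR x h • e := by
  unfold Gc
  rw [dqc_of_gt 0 hx, qc_of_ge 0 hx.le]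
  simp [dMob, dCf, cf]

lemma Gc_zero_of_lt {x : V} (hx0 : x ≠ 0) (hx : ‖x‖ < 1 / 4) :
    Gc e 0 x = ContinuousLinearMap.id ℝ V := by
  unfold Gc
  rw [dqc_of_lt 0 hx, qc_of_le 0 hx.le]
  have hr : ‖x‖ ≠ 0 := norm_ne_zero_iff.2 hx0
  have hden : den e 1 x = 2 * ‖x‖ := by
    unfold den; rw [one_pow, one_mul, sp_add_sm]
  have hcf : cf e 1 x = 1 := by
    unfold cf; rw [hden]; field_simp
  have hdCf : dCf e 1 (0 : V →L[ℝ] ℝ) x = 0 := by
    ext h
    simp [dCf, dDen, hcf]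
    right
    ring
  ext1 h
  simp [dMob, hcf, hdCf]
  module

/-! ### determinant and norm bounds -/

lemma det_Gc [FiniteDimensional ℝ V] {c : ℝ} (hc0 : 0 < c) (hc1 : c ≤ 1) {x : V} (hx : x ≠ 0) :
    (Gc e c x).det = (cf e (qc c x) x) ^ (finrank ℝ V - 1) := by
  have hq : 0 < qc c x := lt_of_lt_of_le hc0 (le_qc hc1 x)
  obtain ⟨κ, hκ⟩ := fderiv_eta x hx
  have h : dqc c x = (-((1 - c) * κ)) • dR x := by
    unfold dqc; rw [hκ, smul_smul]; exact (neg_smul _ _).symm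
  unfold Gc
  rw [h]
  exact det_dMob he hx (den_pos he hq hx) hq

omit he in
lemma exists_bound_dqc [FiniteDimensional ℝ V] : ∃ C : ℝ, 0 ≤ C ∧
    ∀ c : ℝ, 0 ≤ c → c ≤ 1 → ∀ x : V, ‖x‖ ≤ 1 → ‖dqc c x‖ ≤ C := by
  have hcont : Continuous (fderiv ℝ (eta : V → ℝ)) := contDiff_eta.continuous_fderiv (by simp)
  obtain ⟨C, hC⟩ := (isCompact_closedBall (0 : V) 1).exists_bound_of_continuousOn
    hcont.continuousOn
  refine ⟨max C 0, le_max_right _ _, ?_⟩
  intro c hc0 hc1 x hx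
  unfold dqc
  rw [norm_neg, norm_smul, Real.norm_of_nonneg (sub_nonneg.2 hc1)]
  have h1 := hC x (by simpa using hx)
  calc (1 - c) * ‖fderiv ℝ (eta : V → ℝ) x‖ ≤ 1 * ‖fderiv ℝ (eta : V → ℝ) x‖ :=
        mul_le_mul_of_nonneg_right (by linarith) (norm_nonneg _)
    _ ≤ max C 0 := by rw [one_mul]; exact h1.trans (le_max_left _ _)

lemma exists_bound_Gc [FiniteDimensional ℝ V] : ∃ C : ℝ, 0 < C ∧
    ∀ c : ℝ, 0 < c → c ≤ 1 → ∀ x : V, x ≠ 0 → ‖x‖ ≤ 1 →
      ‖Gc e c x‖ ^ (finrank ℝ V - 1) ≤ C * (1 + |(Gc e c x).det|) := by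
  obtain ⟨C, hC0, hC⟩ := exists_bound_dqc (V := V)
  set m := finrank ℝ V - 1 with hm
  refine ⟨((8 + 14 * C) * 2) ^ m, by positivity, ?_⟩
  intro c hc0 hc1 x hx hx1
  have hq : 0 < qc c x := lt_of_lt_of_le hc0 (le_qc hc1 x)
  have hD := den_pos he hq hx
  have h1 := norm_dMob_le he hx hx1 hq.le (qc_le_one hc1 x) hD (hC c hc0.le hc1 x hx1)
  have hcf0 : 0 < cf e (qc c x) x := by
    have : 0 < ‖x‖ := norm_pos_iff.2 hx
    unfold cf; positivity
  rw [det_Gc he hc0 hc1 hx, ← hm, abs_of_pos (pow_pos hcf0 _)]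
  set α := cf e (qc c x) x with hα
  have h2 : (1 + α) ^ m ≤ 2 ^ m * (1 + α ^ m) := by
    rcases le_total 1 α with h | h
    · calc (1 + α) ^ m ≤ (2 * α) ^ m := pow_le_pow_left₀ (by positivity) (by linarith) _
        _ = 2 ^ m * α ^ m := mul_pow _ _ _
        _ ≤ 2 ^ m * (1 + α ^ m) := by
            apply mul_le_mul_of_nonneg_left _ (by positivity); linarith
    · calc (1 + α) ^ m ≤ 2 ^ m := pow_le_pow_left₀ (by positivity) (by linarith) _
        _ = 2 ^ m * 1 := (mul_one _).symm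
        _ ≤ 2 ^ m * (1 + α ^ m) := by
            apply mul_le_mul_of_nonneg_left _ (by positivity)
            have : 0 ≤ α ^ m := by positivity
            linarith
  calc ‖Gc e c x‖ ^ m ≤ ((8 + 14 * C) * (1 + α)) ^ m := pow_le_pow_left₀ (norm_nonneg _) h1 _
    _ = (8 + 14 * C) ^ m * (1 + α) ^ m := mul_pow _ _ _
    _ ≤ (8 + 14 * C) ^ m * (2 ^ m * (1 + α ^ m)) := mul_le_mul_of_nonneg_left h2 (by positivity)
    _ = ((8 + 14 * C) * 2) ^ m * (1 + α ^ m) := by rw [mul_pow]; ring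

end Pool.Agent.FC472D
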