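import Mathlib

/-!
# The Jacobian is a null Lagrangian

For a `C¹` map `v : V → V` with compact support, `∫ det Dv = 0`.
-/

namespace Pool.Agent.FC472D

open MeasureTheory Filter Topology Set Module Metric
open scoped ENNReal NNReal Pointwise

variable {V : Type*} [NormedAddCommGroup V] [NormedSpace ℝ V] [FiniteDimensional ℝ V]

/-- `s • id + v` is bijective as soon as `s` exceeds the Lipschitz constant of `v`. -/
lemma bijective_smul_add {v : V → V} {K : ℝ≥0} (hK : LipschitzWith K v) {s : ℝ} (hs : (K : ℝ) < s) :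
    Function.Bijective (fun x => s • x + v x) := by
  have hs0 : 0 < s := lt_of_le_of_lt K.2 hs
  constructor
  · intro x y hxy
    have h1 : s • (x - y) = v y - v x := by
      have : s • x + v x = s • y + v y := hxy
      rw [smul_sub, sub_eq_sub_iff_add_eq_add, this, add_comm]
    have h2 : s * ‖x - y‖ ≤ K * ‖x - y‖ := by
      calc s * ‖x - y‖ = ‖s • (x - y)‖ := by rw [norm_smul, Real.norm_of_nonneg hs0.le]
        _ = ‖v y - v x‖ := by rw [h1]
        _ ≤ K * ‖y - x‖ := hK.norm_sub_le y x
        _ = K * ‖x - y‖ := by rw [norm_sub_rev]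
    have h3 : ‖x - y‖ ≤ 0 := by
      by_contra h
      push Not at h
      nlinarith
    exact sub_eq_zero.1 (norm_le_zero_iff.1 h3)
  · intro y
    have hc : ContractingWith (K / s.toNNReal) (fun x => s⁻¹ • (y - v x)) := by
      refine ⟨?_, ?_⟩
      · rw [← NNReal.coe_lt_coe]
        push_cast
        rw [Real.coe_toNNReal s hs0.le, div_lt_one hs0]
        exact hs
      · refine LipschitzWith.of_dist_le_mul fun a b => ?_
        rw [dist_eq_norm, dist_eq_norm, ← smul_sub, norm_smul, sub_sub_sub_cancel_left,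
          norm_inv, Real.norm_of_nonneg hs0.le]
        have := hK.norm_sub_le b a
        rw [norm_sub_rev b a] at this
        have h2 : ((K / s.toNNReal : ℝ≥0) : ℝ) = s⁻¹ * K := by
          push_cast
          rw [Real.coe_toNNReal s hs0.le]; field_simp
        rw [h2, mul_assoc]
        exact mul_le_mul_of_nonneg_left this (inv_nonneg.2 hs0.le)
    refine ⟨ContractingWith.fixedPoint _ hc, ?_⟩
    have h := hc.fixedPoint_isFixedPt
    set x := ContractingWith.fixedPoint _ hc with hx
    have h' : s⁻¹ • (y - v x) = x := h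
    have : s • x = y - v x := by
      rw [← h', smul_smul, mul_inv_cancel₀ hs0.ne', one_smul, h']
    show s • x + v x = y
    rw [this]; abel

/-- The image of a ball containing the support of `v` under `s • id + v`. -/
lemma image_ball_smul_add {v : V → V} {K : ℝ≥0} (hK : LipschitzWith K v) {s : ℝ} (hs : (K : ℝ) < s)
    {R : ℝ} (hR : ∀ x, x ∉ ball (0 : V) R → v x = 0) :
    (fun x => s • x + v x) '' ball 0 R = s • ball (0 : V) R := by
  have hs0 : 0 < s := lt_of_le_of_lt K.2 hs
  have hb := bijective_smul_add hK hs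
  have hout : ∀ x, x ∉ ball (0 : V) R → (fun x => s • x + v x) x = s • x := by
    intro x hx
    simp [hR x hx]
  ext y
  constructor
  · rintro ⟨x, hx, rfl⟩
    rw [mem_smul_set_iff_inv_smul_mem₀ hs0.ne']
    by_contra hcon
    have h1 := hout _ hcon
    rw [smul_inv_smul₀ hs0.ne'] at h1
    have h2 := hb.1 h1
    rw [h2] at hcon
    exact hcon hx
  · intro hy
    rw [mem_smul_set_iff_inv_smul_mem₀ hs0.ne'] at hy
    obtain ⟨x, hx⟩ := hb.2 y
    refine ⟨x, ?_, hx⟩
    by_contra hcon
    rw [hout x hcon] at hx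
    rw [← hx, inv_smul_smul₀ hs0.ne'] at hy
    exact hcon hy

lemma det_smul_add_pos {A : V →L[ℝ] V} {s : ℝ} (hs : ‖A‖ < s) :
    0 < ((s • ContinuousLinearMap.id ℝ V + A) : V →L[ℝ] V).det := by
  have hs0 : 0 < s := lt_of_le_of_lt (norm_nonneg A) hs
  have hne : ∀ t : ℝ, t ∈ Icc (0 : ℝ) 1 →
      ((s • ContinuousLinearMap.id ℝ V + t • A) : V →L[ℝ] V).det ≠ 0 := by
    intro t ht h0
    have h1 : LinearMap.det ((s • ContinuousLinearMap.id ℝ V + t • A : V →L[ℝ] V) : V →ₗ[ℝ] V) = 0 := h0
    have h2 := LinearMap.bot_lt_ker_of_det_eq_zero h1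
    obtain ⟨x, hx, hx0⟩ := (Submodule.ne_bot_iff _).1 h2.ne'
    have hx' : s • x + t • A x = 0 := by simpa using hx
    have h3 : s * ‖x‖ ≤ ‖A‖ * ‖x‖ := by
      have : s • x = - (t • A x) := eq_neg_of_add_eq_zero_left hx'
      calc s * ‖x‖ = ‖s • x‖ := by rw [norm_smul, Real.norm_of_nonneg hs0.le]
        _ = ‖t • A x‖ := by rw [this, norm_neg]
        _ = t * ‖A x‖ := by rw [norm_smul, Real.norm_of_nonneg ht.1]
        _ ≤ 1 * (‖A‖ * ‖x‖) := by
            apply mul_le_mul ht.2 (A.le_opNorm x) (norm_nonneg _) zero_le_one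
        _ = ‖A‖ * ‖x‖ := one_mul _
    have h4 : 0 < ‖x‖ := norm_pos_iff.2 hx0
    nlinarith
  have hcont : ContinuousOn (fun t : ℝ => ((s • ContinuousLinearMap.id ℝ V + t • A) : V →L[ℝ] V).det)
      (Icc 0 1) := by
    apply Continuous.continuousOn
    exact ContinuousLinearMap.continuous_det.comp (by fun_prop)
  have h0 : 0 < ((s • ContinuousLinearMap.id ℝ V + (0 : ℝ) • A) : V →L[ℝ] V).det := by
    rw [zero_smul, add_zero]
    show 0 < LinearMap.det ((s • ContinuousLinearMap.id ℝ V : V →L[ℝ] V) : V →ₗ[ℝ] V)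
    have : ((s • ContinuousLinearMap.id ℝ V : V →L[ℝ] V) : V →ₗ[ℝ] V) = s • LinearMap.id := rfl
    rw [this, LinearMap.det_smul, LinearMap.det_id, mul_one]
    exact pow_pos hs0 _
  by_contra hcon
  push Not at hcon
  have h1 : ((s • ContinuousLinearMap.id ℝ V + (1 : ℝ) • A) : V →L[ℝ] V).det ≤ 0 := by
    rw [one_smul]; exact hcon
  have := intermediate_value_Icc' (zero_le_one (α := ℝ)) hcont
  obtain ⟨t, ht, ht0⟩ := this ⟨h1, h0.le⟩
  exact hne t ht ht0

/-- Lagrange interpolation of `det A` by the values `det (s + A)` at large `s`. -/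
lemma exists_interpolation (s₀ : ℝ) : ∃ c : Fin (finrank ℝ V + 1) → ℝ,
    ∃ s : Fin (finrank ℝ V + 1) → ℝ, (∀ i, s₀ < s i) ∧
    (∀ A : V →L[ℝ] V, A.det = ∑ i, c i * ((s i • ContinuousLinearMap.id ℝ V + A) : V →L[ℝ] V).det) := by
  classical
  set N := finrank ℝ V with hN
  let s : Fin (N + 1) → ℝ := fun i => s₀ + 1 + i
  have hinj : Set.InjOn s (Finset.univ : Finset (Fin (N+1))) := by
    intro i _ j _ hij
    have : (i : ℝ) = (j : ℝ) := by
      simpa [s] using hij
    exact Fin.ext (by exact_mod_cast this)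
  refine ⟨fun i => (Lagrange.basis Finset.univ s i).eval 0, s, ?_, ?_⟩
  · intro i
    have : (0 : ℝ) ≤ (i : ℝ) := by positivity
    simp only [s]; linarith
  · intro A
    set P : Polynomial ℝ := (-(A : V →ₗ[ℝ] V)).charpoly with hP
    have hev : ∀ t : ℝ, P.eval t = ((t • ContinuousLinearMap.id ℝ V + A) : V →L[ℝ] V).det := by
      intro t
      rw [hP, LinearMap.eval_charpoly]
      show _ = LinearMap.det _
      congr 1
      ext x
      simp [Algebra.algebraMap_eq_smul_one]
    have hdeg : P.degree < (Finset.univ : Finset (Fin (N+1))).card := by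
      rw [Finset.card_univ, Fintype.card_fin]
      have h1 : P.natDegree = N := by rw [hP, LinearMap.charpoly_natDegree]
      calc P.degree ≤ (P.natDegree : WithBot ℕ) := Polynomial.degree_le_natDegree
        _ = (N : WithBot ℕ) := by rw [h1]
        _ < ((N + 1 : ℕ) : WithBot ℕ) := by exact_mod_cast Nat.lt_succ_self N
    have hint := Lagrange.eq_interpolate hinj hdeg
    have h0 : A.det = P.eval 0 := by rw [hev 0]; simp
    rw [h0]
    conv_lhs => rw [hint]
    rw [Lagrange.interpolate_apply, Polynomial.eval_finsetSum]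
    refine Finset.sum_congr rfl fun i _ => ?_
    rw [Polynomial.eval_mul, Polynomial.eval_C, hev, mul_comm]

variable [MeasurableSpace V] [BorelSpace V] (μ : Measure V) [μ.IsAddHaarMeasure]

/-- **The Jacobian determinant is a null Lagrangian.** -/
theorem integral_det_fderiv_eq_zero [Nontrivial V] {v : V → V} (hv : ContDiff ℝ 1 v)
    (hc : HasCompactSupport v) :
    ∫ x, (fderiv ℝ v x).det ∂μ = 0 := by
  obtain ⟨K, hK⟩ := hv.lipschitzWith_of_hasCompactSupport hc (by simp)
  obtain ⟨R, hR0, hR⟩ : ∃ R : ℝ, 0 < R ∧ tsupport v ⊆ ball 0 R := by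
    obtain ⟨R, hR⟩ := (hc.isCompact.isBounded).subset_ball 0
    exact ⟨max R 1, by positivity, hR.trans (ball_subset_ball (le_max_left _ _))⟩
  have hRv : ∀ x, x ∉ ball (0 : V) R → v x = 0 := fun x hx =>
    image_eq_zero_of_notMem_tsupport fun h => hx (hR h)
  have hRd : ∀ x, x ∉ ball (0 : V) R → fderiv ℝ v x = 0 := fun x hx => by
    apply image_eq_zero_of_notMem_tsupport (f := fderiv ℝ v)
    intro h
    exact hx (hR (tsupport_fderiv_subset ℝ h))
  have hnorm : ∀ x, ‖fderiv ℝ v x‖ ≤ K := fun x => norm_fderiv_le_of_lipschitz ℝ hK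
  have hcontD : Continuous (fderiv ℝ v) := hv.continuous_fderiv (by simp)
  have hvol : ∀ s : ℝ, (K : ℝ) < s →
      ∫ x in ball (0 : V) R, ((s • ContinuousLinearMap.id ℝ V + fderiv ℝ v x) : V →L[ℝ] V).det ∂μ
        = s ^ finrank ℝ V * μ.real (ball 0 R) := by
    intro s hs
    have hs0 : 0 < s := lt_of_le_of_lt K.2 hs
    have hder : ∀ x ∈ ball (0 : V) R, HasFDerivWithinAt (fun x => s • x + v x)
        ((fun x => (s • ContinuousLinearMap.id ℝ V + fderiv ℝ v x : V →L[ℝ] V)) x) (ball 0 R) x := by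
      intro x _
      have h1 : HasFDerivAt (fun x : V => s • x) (s • ContinuousLinearMap.id ℝ V) x :=
        (hasFDerivAt_id x).const_smul s
      exact (h1.add (hv.differentiable (by simp) x).hasFDerivAt).hasFDerivWithinAt
    have h1 := lintegral_abs_det_fderiv_eq_addHaar_image μ measurableSet_ball hder
      (bijective_smul_add hK hs).1.injOn
    rw [image_ball_smul_add hK hs hRv, Measure.addHaar_smul] at h1
    have hpos : ∀ x, 0 < ((s • ContinuousLinearMap.id ℝ V + fderiv ℝ v x) : V →L[ℝ] V).det :=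
      fun x => det_smul_add_pos (lt_of_le_of_lt (hnorm x) hs)
    rw [integral_eq_lintegral_of_nonneg_ae]
    · have h2 : ∀ x, ENNReal.ofReal
          |((fun x => (s • ContinuousLinearMap.id ℝ V + fderiv ℝ v x : V →L[ℝ] V)) x).det|
          = ENNReal.ofReal ((s • ContinuousLinearMap.id ℝ V + fderiv ℝ v x) : V →L[ℝ] V).det := by
        intro x
        rw [abs_of_pos (hpos x)]
      simp only [h2] at h1
      rw [h1, ENNReal.toReal_mul, ENNReal.toReal_ofReal (abs_nonneg _), abs_of_pos (pow_pos hs0 _)]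
      rfl
    · exact Eventually.of_forall fun x => (hpos x).le
    · apply Continuous.aestronglyMeasurable
      exact ContinuousLinearMap.continuous_det.comp (by fun_prop)
  obtain ⟨c, s, hs, hcs⟩ := exists_interpolation (V := V) (K : ℝ)
  have hzero : ∑ i, c i * (s i) ^ finrank ℝ V = 0 := by
    have := hcs 0
    simp only [add_zero] at this
    have h1 : ∀ t : ℝ, ((t • ContinuousLinearMap.id ℝ V) : V →L[ℝ] V).det = t ^ finrank ℝ V := by
      intro t
      show LinearMap.det ((t • ContinuousLinearMap.id ℝ V : V →L[ℝ] V) : V →ₗ[ℝ] V) = _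
      have : ((t • ContinuousLinearMap.id ℝ V : V →L[ℝ] V) : V →ₗ[ℝ] V) = t • LinearMap.id := rfl
      rw [this, LinearMap.det_smul, LinearMap.det_id, mul_one]
    have h2 : (0 : V →L[ℝ] V).det = 0 := by
      have := h1 0
      rw [zero_smul] at this
      rw [this, zero_pow]
      exact finrank_pos.ne'
    rw [h2] at this
    simp only [h1] at this
    exact this.symm
  have hball : ∫ x, (fderiv ℝ v x).det ∂μ = ∫ x in ball (0 : V) R, (fderiv ℝ v x).det ∂μ := by
    rw [setIntegral_eq_integral_of_forall_compl_eq_zero]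
    intro x hx
    rw [hRd x hx]
    show LinearMap.det ((0 : V →L[ℝ] V) : V →ₗ[ℝ] V) = 0
    rw [ContinuousLinearMap.coe_zero, LinearMap.det_zero, zero_pow]
    exact finrank_pos.ne'
  have hint : ∀ t : ℝ, IntegrableOn
      (fun x => ((t • ContinuousLinearMap.id ℝ V + fderiv ℝ v x) : V →L[ℝ] V).det) (ball 0 R) μ := by
    intro t
    have hco : Continuous
        (fun x => ((t • ContinuousLinearMap.id ℝ V + fderiv ℝ v x) : V →L[ℝ] V).det) :=
      ContinuousLinearMap.continuous_det.comp (by fun_prop)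
    exact (hco.continuousOn.integrableOn_compact (isCompact_closedBall 0 R)).mono_set
      ball_subset_closedBall
  rw [hball, integral_congr_ae (Eventually.of_forall fun x => hcs (fderiv ℝ v x))]
  rw [integral_finset_sum]
  · simp_rw [integral_const_mul]
    have : ∀ i, c i * ∫ x in ball (0 : V) R,
        ((s i • ContinuousLinearMap.id ℝ V + fderiv ℝ v x) : V →L[ℝ] V).det ∂μ
        = (c i * s i ^ finrank ℝ V) * μ.real (ball 0 R) := by
      intro i
      rw [hvol (s i) (hs i)]; ring
    rw [Finset.sum_congr rfl fun i _ => this i, ← Finset.sum_mul, hzero, zero_mul]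
  · intro i _
    exact (hint (s i)).const_mul (c i)

end Pool.Agent.FC472D
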