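import Mathlib
import Pool.Agent.FC472D.NullLagrangian
import Pool.Agent.FC472D.Defs

/-!
# Localised Jacobian identity

`∫ ζ det Dg = - ∫ g_i det(Dg with the i-th row replaced by Dζ)`.
-/

namespace Pool.Agent.FC472D

open MeasureTheory Filter Topology Set Module Metric
open scoped ENNReal NNReal

variable {n : ℕ}

/-- matrix of a linear map in the standard basis -/
noncomputable def mat (A : Rn n →L[ℝ] Rn n) : Matrix (Fin n) (Fin n) ℝ :=
  Matrix.of fun i j => (A (EuclideanSpace.single j 1)) i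

lemma det_mat (A : Rn n →L[ℝ] Rn n) : (mat A).det = A.det := by
  show _ = LinearMap.det (A : Rn n →ₗ[ℝ] Rn n)
  rw [← LinearMap.det_toMatrix (EuclideanSpace.basisFun (Fin n) ℝ).toBasis]
  congr 1

/-- determinant of `A` with row `i` replaced by the covector `ω`. -/
noncomputable def rowDet (A : Rn n →L[ℝ] Rn n) (i : Fin n) (ω : Rn n →L[ℝ] ℝ) : ℝ :=
  ((mat A).updateRow i (fun j => ω (EuclideanSpace.single j 1))).det

lemma abs_det_le {M : Matrix (Fin n) (Fin n) ℝ} {i₀ : Fin n} {a l : ℝ} (ha : 0 ≤ a) (hl : 0 ≤ l)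
    (h1 : ∀ i, i ≠ i₀ → ∀ j, |M i j| ≤ a) (h2 : ∀ j, |M i₀ j| ≤ l) :
    |M.det| ≤ n.factorial * (a ^ (n - 1) * l) := by
  rw [Matrix.det_apply]
  calc |∑ σ : Equiv.Perm (Fin n), Equiv.Perm.sign σ • ∏ i, M (σ i) i|
      ≤ ∑ σ : Equiv.Perm (Fin n), |Equiv.Perm.sign σ • ∏ i, M (σ i) i| :=
        Finset.abs_sum_le_sum_abs _ _
    _ ≤ ∑ _σ : Equiv.Perm (Fin n), a ^ (n - 1) * l := by
        refine Finset.sum_le_sum fun σ _ => ?_
        have h3 : |Equiv.Perm.sign σ • ∏ i, M (σ i) i| = ∏ i, |M (σ i) i| := by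
          rw [Units.smul_def, zsmul_eq_mul, abs_mul, Finset.abs_prod]
          rcases Int.units_eq_one_or (Equiv.Perm.sign σ) with h | h <;> simp [h]
        rw [h3, ← Finset.mul_prod_erase Finset.univ _ (Finset.mem_univ (σ⁻¹ i₀)), mul_comm]
        apply mul_le_mul _ _ (abs_nonneg _) (pow_nonneg ha _)
        · have h4 : (Finset.univ.erase (σ⁻¹ i₀)).card = n - 1 := by
            rw [Finset.card_erase_of_mem (Finset.mem_univ _), Finset.card_univ, Fintype.card_fin]
          calc ∏ x ∈ Finset.univ.erase (σ⁻¹ i₀), |M (σ x) x|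
              ≤ ∏ _x ∈ Finset.univ.erase (σ⁻¹ i₀), a := by
                apply Finset.prod_le_prod (fun _ _ => abs_nonneg _)
                intro i hi
                apply h1
                intro hcon
                apply Finset.ne_of_mem_erase hi
                rw [← hcon]; simp
            _ = a ^ (n - 1) := by rw [Finset.prod_const, h4]
        · have := h2 (σ⁻¹ i₀)
          simpa using this
    _ = n.factorial * (a ^ (n - 1) * l) := by
        rw [Finset.sum_const, Finset.card_univ, Fintype.card_perm, Fintype.card_fin, nsmul_eq_mul]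

lemma norm_single_one (j : Fin n) : ‖(EuclideanSpace.single j (1 : ℝ) : Rn n)‖ = 1 := by
  simp

/-- If the rows of `B` other than the `i₀`-th one vanish, the determinant of `A` with row `i₀`
replaced by `ω` is controlled by `‖A - B‖ ^ (n-1) * ‖ω‖`. -/
lemma abs_rowDet_le {A B : Rn n →L[ℝ] Rn n} {i₀ : Fin n} {ω : Rn n →L[ℝ] ℝ}
    (hB : ∀ i, i ≠ i₀ → ∀ h : Rn n, (B h) i = 0) :
    |rowDet A i₀ ω| ≤ n.factorial * (‖A - B‖ ^ (n - 1) * ‖ω‖) := by
  apply abs_det_le (i₀ := i₀) (norm_nonneg _) (norm_nonneg _)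
  · intro i hi j
    rw [Matrix.updateRow_ne hi]
    show |(A (EuclideanSpace.single j 1)) i| ≤ _
    have h1 : (A (EuclideanSpace.single j 1)) i = ((A - B) (EuclideanSpace.single j 1)) i := by
      simp [hB i hi]
    rw [h1]
    calc |((A - B) (EuclideanSpace.single j 1)) i| ≤ ‖(A - B) (EuclideanSpace.single j 1)‖ := by
          rw [← Real.norm_eq_abs]
          exact PiLp.norm_apply_le _ i
      _ ≤ ‖A - B‖ * ‖(EuclideanSpace.single j (1 : ℝ) : Rn n)‖ := (A - B).le_opNorm _
      _ = ‖A - B‖ := by rw [norm_single_one, mul_one]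
  · intro j
    rw [Matrix.updateRow_self]
    rw [← Real.norm_eq_abs]
    calc ‖ω (EuclideanSpace.single j 1)‖ ≤ ‖ω‖ * ‖(EuclideanSpace.single j (1 : ℝ) : Rn n)‖ :=
          ω.le_opNorm _
      _ = ‖ω‖ := by rw [norm_single_one, mul_one]

lemma det_row_combination (A B : Rn n →L[ℝ] Rn n) (i₀ : Fin n) (z c : ℝ) (ω : Rn n →L[ℝ] ℝ)
    (hrow : ∀ i, i ≠ i₀ → ∀ h : Rn n, (B h) i = (A h) i)
    (hrow0 : ∀ h : Rn n, (B h) i₀ = z * (A h) i₀ + c * ω h) :
    B.det = z * A.det + c * rowDet A i₀ ω := by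
  rw [← det_mat, ← det_mat]
  have h1 : mat B = (mat A).updateRow i₀
      (z • (mat A i₀) + c • (fun j => ω (EuclideanSpace.single j 1))) := by
    ext i j
    by_cases hi : i = i₀
    · subst hi
      rw [Matrix.updateRow_self]
      simp [mat, hrow0]
    · rw [Matrix.updateRow_ne hi]
      simp [mat, hrow i hi]
  rw [h1, Matrix.det_updateRow_add, Matrix.det_updateRow_smul, Matrix.det_updateRow_smul,
    Matrix.updateRow_eq_self]
  rfl

lemma det_eq_zero_of_row {B : Rn n →L[ℝ] Rn n} {i₀ : Fin n} (h : ∀ x : Rn n, (B x) i₀ = 0) :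
    B.det = 0 := by
  rw [← det_mat]
  apply Matrix.det_eq_zero_of_row_eq_zero i₀
  intro j
  simp [mat, h]

lemma rowDet_zero (A : Rn n →L[ℝ] Rn n) (i₀ : Fin n) : rowDet A i₀ 0 = 0 := by
  apply Matrix.det_eq_zero_of_row_eq_zero i₀
  intro j
  simp

lemma continuous_det' : Continuous (fun A : Rn n →L[ℝ] Rn n => A.det) :=
  ContinuousLinearMap.continuous_det

lemma continuous_mat : Continuous (mat : (Rn n →L[ℝ] Rn n) → Matrix (Fin n) (Fin n) ℝ) := by
  apply continuous_matrix
  intro i j
  show Continuous fun A : Rn n →L[ℝ] Rn n => (A (EuclideanSpace.single j 1)) i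
  fun_prop

lemma continuous_rowDet (i₀ : Fin n) :
    Continuous (fun P : (Rn n →L[ℝ] Rn n) × (Rn n →L[ℝ] ℝ) => rowDet P.1 i₀ P.2) := by
  unfold rowDet
  apply Continuous.matrix_det
  apply continuous_matrix
  intro i j
  by_cases hi : i = i₀
  · subst hi
    simp only [Matrix.updateRow_self]
    fun_prop
  · simp only [Matrix.updateRow_ne hi]
    have := continuous_mat (n := n)
    exact (Continuous.matrix_elem (continuous_mat.comp continuous_fst) i j)

/-- **Localised Jacobian identity.** -/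
theorem integral_cutoff_det {Ω : Set (Rn n)} (hΩ : IsOpen Ω) {g : Rn n → Rn n}
    (hg : ContDiffOn ℝ 1 g Ω) {ζ χ : Rn n → ℝ} (hζ : ContDiff ℝ 1 ζ) (hχ : ContDiff ℝ 1 χ)
    (hζc : HasCompactSupport ζ) (hχc : HasCompactSupport χ) (hχΩ : tsupport χ ⊆ Ω)
    (h1 : ∀ x ∈ tsupport ζ, χ =ᶠ[𝓝 x] fun _ => 1) (i₀ : Fin n) :
    ∫ x, ζ x * (fderiv ℝ g x).det = - ∫ x, (g x i₀) * rowDet (fderiv ℝ g x) i₀ (fderiv ℝ ζ x) := by
  have hne : Nontrivial (Rn n) := by
    refine ⟨⟨EuclideanSpace.single i₀ 1, 0, ?_⟩⟩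
    intro h
    have := congrArg (fun v : Rn n => v i₀) h
    simp at this
  have hsub : tsupport ζ ⊆ Ω := by
    intro x hx
    apply hχΩ
    apply subset_closure
    have : χ x = 1 := (h1 x hx).self_of_nhds
    simp [this]
  set v : Rn n → Rn n := fun x => χ x • g x +
    ((ζ x - χ x) * g x i₀) • EuclideanSpace.single i₀ (1 : ℝ) with hv
  have hgd : ∀ x ∈ Ω, ContDiffAt ℝ 1 g x := fun x hx => hg.contDiffAt (hΩ.mem_nhds hx)
  have hv0 : ∀ x, x ∉ tsupport χ → v =ᶠ[𝓝 x] fun _ => 0 := by
    intro x hx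
    have hx' : x ∉ tsupport ζ := fun h => hx (subset_closure (by
      have : χ x = 1 := (h1 x h).self_of_nhds
      simp [this]))
    filter_upwards [(notMem_tsupport_iff_eventuallyEq.1 hx),
      (notMem_tsupport_iff_eventuallyEq.1 hx')] with y hy hy'
    simp [hv, hy, hy']
  have hvc : ContDiff ℝ 1 v := by
    rw [contDiff_iff_contDiffAt]
    intro x
    by_cases hx : x ∈ tsupport χ
    · have hgx := hgd x (hχΩ hx)
      have hgi : ContDiffAt ℝ 1 (fun y => g y i₀) x := by
        have := (contDiffAt_piLp 2).1 hgx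
        exact this i₀
      exact (hχ.contDiffAt.smul hgx).add
        (((hζ.contDiffAt.sub hχ.contDiffAt).mul hgi).smul contDiffAt_const)
    · exact contDiffAt_const.congr_of_eventuallyEq (hv0 x hx)
  have hvsupp : HasCompactSupport v := by
    apply HasCompactSupport.intro hχc.isCompact
    intro x hx
    exact (hv0 x hx).self_of_nhds
  have key := integral_det_fderiv_eq_zero (volume : Measure (Rn n)) hvc hvsupp
  have hpt : ∀ x, (fderiv ℝ v x).det =
      ζ x * (fderiv ℝ g x).det + (g x i₀) * rowDet (fderiv ℝ g x) i₀ (fderiv ℝ ζ x) := by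
    intro x
    by_cases hx : x ∈ tsupport ζ
    · have hgx : DifferentiableAt ℝ g x := (hgd x (hsub hx)).differentiableAt (by simp)
      have hvx : v =ᶠ[𝓝 x] fun y => g y + ((ζ y - 1) * g y i₀) • EuclideanSpace.single i₀ (1 : ℝ) := by
        filter_upwards [h1 x hx] with y hy
        simp [hv, hy]
      have hgi : HasFDerivAt (fun y => g y i₀)
          ((EuclideanSpace.proj i₀ : Rn n →L[ℝ] ℝ).comp (fderiv ℝ g x)) x :=
        (EuclideanSpace.proj i₀ : Rn n →L[ℝ] ℝ).hasFDerivAt.comp x hgx.hasFDerivAt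
      have hζx : HasFDerivAt ζ (fderiv ℝ ζ x) x := (hζ.differentiable (by simp) x).hasFDerivAt
      have hd : HasFDerivAt (fun y => g y + ((ζ y - 1) * g y i₀) • EuclideanSpace.single i₀ (1 : ℝ))
          (fderiv ℝ g x + ((ζ x - 1) • ((EuclideanSpace.proj i₀ : Rn n →L[ℝ] ℝ).comp (fderiv ℝ g x))
            + (g x i₀) • (fderiv ℝ ζ x)).smulRight (EuclideanSpace.single i₀ (1 : ℝ))) x := by
        have := hgx.hasFDerivAt.add (((hζx.sub_const 1).mul hgi).smul_const
          (EuclideanSpace.single i₀ (1 : ℝ)))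
        exact this
      rw [hvx.fderiv_eq, hd.fderiv]
      apply det_row_combination
      · intro i hi h
        simp [hi]
      · intro h
        simp
        ring
    · have hz : ζ =ᶠ[𝓝 x] fun _ => 0 := notMem_tsupport_iff_eventuallyEq.1 hx
      have hz1 : fderiv ℝ ζ x = 0 := by
        rw [hz.fderiv_eq]; simp
      rw [hz.self_of_nhds, hz1, rowDet_zero]
      simp only [zero_mul, mul_zero, add_zero]
      apply det_eq_zero_of_row (i₀ := i₀)
      intro h
      have hvi : (fun y => v y i₀) =ᶠ[𝓝 x] fun _ => 0 := by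
        filter_upwards [hz] with y hy
        simp [hv, hy]
      have hvd : HasFDerivAt v (fderiv ℝ v x) x := (hvc.differentiable (by simp) x).hasFDerivAt
      have hgi : HasFDerivAt (fun y => v y i₀)
          ((EuclideanSpace.proj i₀ : Rn n →L[ℝ] ℝ).comp (fderiv ℝ v x)) x :=
        (EuclideanSpace.proj i₀ : Rn n →L[ℝ] ℝ).hasFDerivAt.comp x hvd
      have h0 : fderiv ℝ (fun y => v y i₀) x = 0 := by
        rw [hvi.fderiv_eq]; simp
      rw [hgi.fderiv] at h0
      have := congrArg (fun L : Rn n →L[ℝ] ℝ => L h) h0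
      simpa using this
  have hDg : ContinuousOn (fderiv ℝ g) Ω := hg.continuousOn_fderiv_of_isOpen hΩ (by simp)
  have hcomp : IsCompact (tsupport ζ) := hζc.isCompact
  have hint1 : Integrable (fun x => ζ x * (fderiv ℝ g x).det) := by
    rw [← integrableOn_iff_integrable_of_support_subset (s := tsupport ζ)]
    · apply ContinuousOn.integrableOn_compact hcomp
      apply (hζ.continuous.continuousOn).mul
      exact continuous_det'.comp_continuousOn (hDg.mono hsub)
    · intro x hx
      apply subset_tsupport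
      simp only [Function.mem_support, ne_eq, mul_eq_zero, not_or] at hx ⊢
      exact hx.1
  have hint2 : Integrable (fun x => (g x i₀) * rowDet (fderiv ℝ g x) i₀ (fderiv ℝ ζ x)) := by
    rw [← integrableOn_iff_integrable_of_support_subset (s := tsupport ζ)]
    · apply ContinuousOn.integrableOn_compact hcomp
      apply ContinuousOn.mul
      · have := hg.continuousOn.mono hsub
        exact (EuclideanSpace.proj i₀ : Rn n →L[ℝ] ℝ).continuous.comp_continuousOn this
      · have hc1 : ContinuousOn (fun x => ((fderiv ℝ g x, fderiv ℝ ζ x) :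
            (Rn n →L[ℝ] Rn n) × (Rn n →L[ℝ] ℝ))) (tsupport ζ) :=
          (hDg.mono hsub).prodMk (hζ.continuous_fderiv (by simp)).continuousOn
        have hc2 := (continuous_rowDet (n := n) i₀).comp_continuousOn hc1
        exact hc2
    · intro x hx
      by_contra hcon
      have hz : ζ =ᶠ[𝓝 x] fun _ => 0 := notMem_tsupport_iff_eventuallyEq.1 hcon
      have hz1 : fderiv ℝ ζ x = 0 := by
        rw [hz.fderiv_eq]; simp
      simp [hz1, rowDet_zero] at hx
  rw [integral_congr_ae (Eventually.of_forall hpt), integral_add hint1 hint2] at key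
  linarith

end Pool.Agent.FC472D
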