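import Mathlib

/-!
# Bounded + a.e. convergence implies weak convergence in `L^p`, `1 < p < ∞`

No representation of the dual of `L^p` is used.
-/

namespace Pool.Agent.FC472D

open MeasureTheory Filter Topology Set
open scoped ENNReal NNReal

variable {X : Type*} [MeasurableSpace X] {μ : Measure X}
  {F : Type*} [NormedAddCommGroup F] [NormedSpace ℝ F] {p : ℝ≥0∞} [hp : Fact (1 ≤ p)]

/-- restriction of an `L^p` function to a measurable set -/
noncomputable def res {S : Set X} (hS : MeasurableSet S) (u : Lp F p μ) : Lp F p μ :=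
  ((Lp.memLp u).indicator hS).toLp _

omit [NormedSpace ℝ F] hp in
lemma res_ae {S : Set X} (hS : MeasurableSet S) (u : Lp F p μ) :
    (res hS u : X → F) =ᵐ[μ] S.indicator u :=
  MemLp.coeFn_toLp _

omit [NormedSpace ℝ F] hp in
lemma res_add_res_compl {S : Set X} (hS : MeasurableSet S) (u : Lp F p μ) :
    res hS u + res hS.compl u = u := by
  apply Lp.ext
  filter_upwards [Lp.coeFn_add (res hS u) (res hS.compl u), res_ae hS u, res_ae hS.compl u]
    with x h1 h2 h3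
  rw [h1, Pi.add_apply, h2, h3]
  by_cases hx : x ∈ S <;> simp [hx]

omit [NormedSpace ℝ F] in
lemma norm_rpow_add_of_disjoint (hp_top : p ≠ ∞) {S : Set X} (u w : Lp F p μ)
    (hu : ∀ᵐ x ∂μ, x ∉ S → u x = 0) (hw : ∀ᵐ x ∂μ, x ∈ S → w x = 0) :
    ‖u + w‖ ^ p.toReal = ‖u‖ ^ p.toReal + ‖w‖ ^ p.toReal := by
  have hp0 : p ≠ 0 := (lt_of_lt_of_le zero_lt_one hp.out).ne'
  have hpr : 0 < p.toReal := ENNReal.toReal_pos hp0 hp_top
  have key : ∀ f : Lp F p μ, ‖f‖ ^ p.toReal = (∫⁻ x, ‖f x‖ₑ ^ p.toReal ∂μ).toReal := by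
    intro f
    rw [Lp.norm_def, eLpNorm_eq_lintegral_rpow_enorm_toReal hp0 hp_top, ← ENNReal.toReal_rpow,
      ← Real.rpow_mul ENNReal.toReal_nonneg, one_div_mul_cancel hpr.ne', Real.rpow_one]
  have hfin : ∀ f : Lp F p μ, (∫⁻ x, ‖f x‖ₑ ^ p.toReal ∂μ) ≠ ∞ := fun f =>
    (lintegral_rpow_enorm_lt_top_of_eLpNorm_lt_top hp0 hp_top (Lp.memLp f).2).ne
  rw [key, key, key, ← ENNReal.toReal_add (hfin u) (hfin w)]
  congr 1
  rw [← lintegral_add_left' ((Lp.aestronglyMeasurable u).enorm.pow_const _)]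
  apply lintegral_congr_ae
  filter_upwards [Lp.coeFn_add u w, hu, hw] with x h1 h2 h3
  rw [h1, Pi.add_apply]
  by_cases hx : x ∈ S
  · simp [h3 hx, ENNReal.zero_rpow_of_pos hpr]
  · simp [h2 hx, ENNReal.zero_rpow_of_pos hpr]

/-- Continuous functionals on `L^p`, `1 < p < ∞`, are uniformly small on unit vectors carried by
sets of small measure. -/
theorem dual_small_of_measure_small (hp1 : 1 < p) (hp_top : p ≠ ∞) (ℓ : Lp F p μ →L[ℝ] ℝ)
    {ε : ℝ} (hε : 0 < ε) :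
    ∃ δ : ℝ, 0 < δ ∧ ∀ (u : Lp F p μ) (S : Set X), MeasurableSet S → μ S ≤ ENNReal.ofReal δ →
      (∀ᵐ x ∂μ, x ∉ S → u x = 0) → ‖u‖ ≤ 1 → ℓ u ≤ ε := by
  by_contra! hcon
  have hpr1 : 1 < p.toReal := by
    rw [← ENNReal.toReal_one]
    exact (ENNReal.toReal_lt_toReal ENNReal.one_ne_top hp_top).2 hp1
  have hpr : 0 < p.toReal := by linarith
  -- main induction
  have hP : ∀ m : ℕ, ∀ δ : ℝ, 0 < δ → ∃ (u : Lp F p μ) (S : Set X), MeasurableSet S ∧
      μ S ≤ ENNReal.ofReal δ ∧ (∀ᵐ x ∂μ, x ∉ S → u x = 0) ∧ ‖u‖ ^ p.toReal ≤ m ∧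
      m * (ε / 2) ≤ ℓ u := by
    intro m
    induction m with
    | zero =>
      intro δ _
      refine ⟨0, ∅, MeasurableSet.empty, by simp, ?_, ?_, ?_⟩
      · filter_upwards [Lp.coeFn_zero F p μ] with x hx _
        rw [hx]; rfl
      · simp [Real.zero_rpow hpr.ne']
      · simp
    | succ m ih =>
      intro δ hδ
      obtain ⟨u₁, S₁, hS₁, hμ₁, hu₁, hn₁, hl₁⟩ := hcon (δ / 2) (by positivity)
      obtain ⟨δ', hδ', hδ''⟩ := (Lp.memLp u₁).eLpNorm_indicator_le hp1.le hp_top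
        (ε := ε / (2 * (‖ℓ‖ + 1))) (by positivity)
      obtain ⟨u₂, S₂, hS₂, hμ₂, hu₂, hn₂, hl₂⟩ := ih (min (δ / 2) δ') (by positivity)
      have hres : ‖res hS₂ u₁‖ ≤ ε / (2 * (‖ℓ‖ + 1)) := by
        have h1 := hδ'' S₂ hS₂ (hμ₂.trans (ENNReal.ofReal_le_ofReal (min_le_right _ _)))
        rw [Lp.norm_def, eLpNorm_congr_ae (res_ae hS₂ u₁)]
        exact ENNReal.toReal_le_of_le_ofReal (by positivity) h1
      have hlres : ℓ (res hS₂ u₁) ≤ ε / 2 := by
        calc ℓ (res hS₂ u₁) ≤ ‖ℓ (res hS₂ u₁)‖ := Real.le_norm_self _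
          _ ≤ ‖ℓ‖ * ‖res hS₂ u₁‖ := ℓ.le_opNorm _
          _ ≤ (‖ℓ‖ + 1) * (ε / (2 * (‖ℓ‖ + 1))) := by
              apply mul_le_mul (by linarith) hres (norm_nonneg _) (by positivity)
          _ = ε / 2 := by
              have : ‖ℓ‖ + 1 ≠ 0 := by positivity
              field_simp
      have hlc : ε / 2 ≤ ℓ (res hS₂.compl u₁) := by
        have h1 : ℓ u₁ = ℓ (res hS₂ u₁) + ℓ (res hS₂.compl u₁) := by
          rw [← map_add, res_add_res_compl]
        linarith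
      have hncompl : ‖res hS₂.compl u₁‖ ≤ 1 := by
        refine le_trans ?_ hn₁
        apply Lp.norm_le_norm_of_ae_le
        filter_upwards [res_ae hS₂.compl u₁] with x hx
        rw [hx]
        exact norm_indicator_le_norm_self _ _
      refine ⟨u₂ + res hS₂.compl u₁, S₂ ∪ S₁, hS₂.union hS₁, ?_, ?_, ?_, ?_⟩
      · calc μ (S₂ ∪ S₁) ≤ μ S₂ + μ S₁ := measure_union_le _ _
          _ ≤ ENNReal.ofReal (δ / 2) + ENNReal.ofReal (δ / 2) :=
              add_le_add (hμ₂.trans (ENNReal.ofReal_le_ofReal (min_le_left _ _))) hμ₁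
          _ = ENNReal.ofReal δ := by
              rw [← ENNReal.ofReal_add (by positivity) (by positivity)]; congr 1; ring
      · filter_upwards [Lp.coeFn_add u₂ (res hS₂.compl u₁), hu₂, hu₁, res_ae hS₂.compl u₁]
          with x h1 h2 h3 h4 hx
        simp only [mem_union, not_or] at hx
        rw [h1, Pi.add_apply, h2 hx.1, h4, zero_add]
        simp [hx.1, h3 hx.2]
      · rw [norm_rpow_add_of_disjoint hp_top (S := S₂) u₂ (res hS₂.compl u₁) hu₂]
        · push_cast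
          have : ‖res hS₂.compl u₁‖ ^ p.toReal ≤ 1 :=
            Real.rpow_le_one (norm_nonneg _) hncompl hpr.le
          linarith
        · filter_upwards [res_ae hS₂.compl u₁] with x hx hxS
          rw [hx]; simp [hxS]
      · rw [map_add]; push_cast; linarith
  -- contradiction
  have hbound : ∀ m : ℕ, (m : ℝ) * (ε / 2) ≤ ‖ℓ‖ * (m : ℝ) ^ (1 / p.toReal) := by
    intro m
    obtain ⟨u, S, -, -, -, hn, hl⟩ := hP m 1 one_pos
    have h1 : ‖u‖ ≤ (m : ℝ) ^ (1 / p.toReal) := by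
      have h2 : (‖u‖ ^ p.toReal) ^ (1 / p.toReal) ≤ (m : ℝ) ^ (1 / p.toReal) :=
        Real.rpow_le_rpow (by positivity) hn (by positivity)
      rwa [← Real.rpow_mul (norm_nonneg _), mul_one_div_cancel hpr.ne', Real.rpow_one] at h2
    calc (m : ℝ) * (ε / 2) ≤ ℓ u := hl
      _ ≤ ‖ℓ u‖ := Real.le_norm_self _
      _ ≤ ‖ℓ‖ * ‖u‖ := ℓ.le_opNorm _
      _ ≤ ‖ℓ‖ * (m : ℝ) ^ (1 / p.toReal) := mul_le_mul_of_nonneg_left h1 (norm_nonneg _)
  have hlim : Tendsto (fun m : ℕ => (m : ℝ) ^ (1 - 1 / p.toReal)) atTop atTop := by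
    apply (tendsto_rpow_atTop _).comp tendsto_natCast_atTop_atTop
    rw [sub_pos, div_lt_one hpr]; exact hpr1
  obtain ⟨m, hm, hm1⟩ := ((hlim.eventually_gt_atTop (‖ℓ‖ / (ε / 2))).and
    (eventually_ge_atTop 1)).exists
  have hm0 : (0 : ℝ) < m := by exact_mod_cast hm1
  have h2 : (m : ℝ) = (m : ℝ) ^ (1 - 1 / p.toReal) * (m : ℝ) ^ (1 / p.toReal) := by
    rw [← Real.rpow_add hm0]; simp
  have h3 : ‖ℓ‖ < (m : ℝ) ^ (1 - 1 / p.toReal) * (ε / 2) := by
    rwa [div_lt_iff₀ (by positivity)] at hm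
  have h4 : ‖ℓ‖ * (m : ℝ) ^ (1 / p.toReal) < m * (ε / 2) := by
    have h5 : (0 : ℝ) < (m : ℝ) ^ (1 / p.toReal) := Real.rpow_pos_of_pos hm0 _
    calc ‖ℓ‖ * (m : ℝ) ^ (1 / p.toReal)
        < ((m : ℝ) ^ (1 - 1 / p.toReal) * (ε / 2)) * (m : ℝ) ^ (1 / p.toReal) :=
          mul_lt_mul_of_pos_right h3 h5
      _ = ((m : ℝ) ^ (1 - 1 / p.toReal) * (m : ℝ) ^ (1 / p.toReal)) * (ε / 2) := by ring
      _ = m * (ε / 2) := by rw [← h2]
  exact absurd (hbound m) (not_le.2 h4)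

/-- Bounded sequences of `L^p` (`1 < p < ∞`, finite measure) that converge to `0` a.e. are weakly
null. -/
theorem tendsto_dual_zero_of_ae [IsFiniteMeasure μ] (hp1 : 1 < p) (hp_top : p ≠ ∞)
    (w : ℕ → Lp F p μ) {C : ℝ} (hC : ∀ k, ‖w k‖ ≤ C)
    (hae : ∀ᵐ x ∂μ, Tendsto (fun k => w k x) atTop (𝓝 0)) (ℓ : Lp F p μ →L[ℝ] ℝ) :
    Tendsto (fun k => ℓ (w k)) atTop (𝓝 0) := by
  have hC0 : 0 ≤ C := (norm_nonneg _).trans (hC 0)
  have hp0 : p ≠ 0 := (lt_of_lt_of_le zero_lt_one hp.out).ne'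
  rw [Metric.tendsto_atTop]
  intro ε hε
  -- smallness of the functional on small sets
  obtain ⟨δ, hδ, hsmall⟩ := dual_small_of_measure_small hp1 hp_top ℓ
    (ε := ε / (4 * (C + 1))) (by positivity)
  obtain ⟨t, ht, hμt, hunif⟩ := tendstoUniformlyOn_of_ae_tendsto'
    (fun k => Lp.stronglyMeasurable (w k)) (stronglyMeasurable_const (b := (0 : F))) hae hδ
  have habs : ∀ u : Lp F p μ, (∀ᵐ x ∂μ, x ∉ t → u x = 0) → ‖u‖ ≤ C + 1 → |ℓ u| ≤ ε / 4 := by
    intro u hu hun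
    have hC1 : 0 < C + 1 := by positivity
    have key : ∀ s : ℝ, |s| = 1 → s * ℓ u ≤ ε / 4 := by
      intro s hs
      have h1 : ℓ ((s * (C + 1)⁻¹) • u) ≤ ε / (4 * (C + 1)) := by
        apply hsmall _ t ht hμt
        · filter_upwards [Lp.coeFn_smul (s * (C + 1)⁻¹) u, hu] with x h1 h2 hx
          rw [h1, Pi.smul_apply, h2 hx, smul_zero]
        · rw [norm_smul, Real.norm_eq_abs, abs_mul, hs, one_mul, abs_of_pos (inv_pos.2 hC1),
            inv_mul_le_iff₀ hC1, mul_one]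
          exact hun
      rw [map_smul, smul_eq_mul] at h1
      have h2 : s * (C + 1)⁻¹ * ℓ u = (s * ℓ u) / (C + 1) := by field_simp
      rw [h2, div_le_iff₀ hC1] at h1
      calc s * ℓ u ≤ ε / (4 * (C + 1)) * (C + 1) := h1
        _ = ε / 4 := by field_simp
    rw [abs_le]
    constructor
    · have := key (-1) (by simp); linarith
    · have := key 1 (by simp); linarith
  -- uniform smallness off `t`
  set M : ℝ := (μ univ).toReal ^ (1 / p.toReal) with hM
  have hM0 : 0 ≤ M := by positivity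
  set η : ℝ := ε / (4 * (‖ℓ‖ + 1) * (M + 1)) with hη
  have hη0 : 0 < η := by positivity
  rw [Metric.tendstoUniformlyOn_iff] at hunif
  obtain ⟨N, hN⟩ := (eventually_atTop.1 (hunif η hη0))
  refine ⟨N, fun k hk => ?_⟩
  have h1 : |ℓ (res ht (w k))| ≤ ε / 4 := by
    apply habs
    · filter_upwards [res_ae ht (w k)] with x hx hxt
      rw [hx]; simp [hxt]
    · have : ‖res ht (w k)‖ ≤ ‖w k‖ := by
        apply Lp.norm_le_norm_of_ae_le
        filter_upwards [res_ae ht (w k)] with x hx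
        rw [hx]
        exact norm_indicator_le_norm_self _ _
      linarith [hC k]
  have h2 : ‖res ht.compl (w k)‖ ≤ M * η := by
    rw [Lp.norm_def]
    apply ENNReal.toReal_le_of_le_ofReal (by positivity)
    calc eLpNorm (res ht.compl (w k)) p μ ≤ μ univ ^ (p.toReal)⁻¹ * ENNReal.ofReal η := by
          apply eLpNorm_le_of_ae_bound
          filter_upwards [res_ae ht.compl (w k)] with x hx
          rw [hx]
          by_cases hxt : x ∈ t
          · simp [hxt, hη0.le]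
          · have := hN k hk x hxt
            rw [dist_comm, dist_zero_right] at this
            simp [hxt, this.le]
      _ = ENNReal.ofReal (M * η) := by
          rw [ENNReal.ofReal_mul hM0, hM, one_div,
            ← ENNReal.ofReal_rpow_of_nonneg ENNReal.toReal_nonneg (by positivity),
            ENNReal.ofReal_toReal (measure_ne_top _ _)]
  have h3 : |ℓ (res ht.compl (w k))| ≤ ε / 4 := by
    rw [← Real.norm_eq_abs]
    calc ‖ℓ (res ht.compl (w k))‖ ≤ ‖ℓ‖ * ‖res ht.compl (w k)‖ := ℓ.le_opNorm _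
      _ ≤ (‖ℓ‖ + 1) * ((M + 1) * η) := by
          apply mul_le_mul (by linarith) _ (norm_nonneg _) (by positivity)
          exact h2.trans (mul_le_mul_of_nonneg_right (by linarith) hη0.le)
      _ = ε / 4 := by
          rw [hη]
          have h5 : ‖ℓ‖ + 1 ≠ 0 := by positivity
          have h6 : M + 1 ≠ 0 := by positivity
          field_simp
  rw [Real.dist_eq, sub_zero]
  have h4 : ℓ (w k) = ℓ (res ht (w k)) + ℓ (res ht.compl (w k)) := by
    rw [← map_add, res_add_res_compl]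
  rw [h4]
  calc |ℓ (res ht (w k)) + ℓ (res ht.compl (w k))|
      ≤ |ℓ (res ht (w k))| + |ℓ (res ht.compl (w k))| := abs_add_le _ _
    _ ≤ ε / 4 + ε / 4 := add_le_add h1 h3
    _ < ε := by linarith

/-- **Bounded + a.e. convergence implies weak convergence** in `L^p`, `1 < p < ∞`. -/
theorem tendsto_dual_of_ae [IsFiniteMeasure μ] (hp1 : 1 < p) (hp_top : p ≠ ∞)
    (h : ℕ → Lp F p μ) (h' : Lp F p μ) {C : ℝ} (hC : ∀ k, ‖h k‖ ≤ C)
    (hae : ∀ᵐ x ∂μ, Tendsto (fun k => h k x) atTop (𝓝 (h' x))) (ℓ : Lp F p μ →L[ℝ] ℝ) :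
    Tendsto (fun k => ℓ (h k)) atTop (𝓝 (ℓ h')) := by
  have h1 : Tendsto (fun k => ℓ (h k - h')) atTop (𝓝 0) := by
    apply tendsto_dual_zero_of_ae hp1 hp_top (fun k => h k - h') (C := C + ‖h'‖)
    · intro k
      exact (norm_sub_le _ _).trans (add_le_add (hC k) le_rfl)
    · have h2 : ∀ᵐ x ∂μ, ∀ k, (h k - h' : Lp F p μ) x = h k x - h' x := by
        rw [ae_all_iff]
        intro k
        filter_upwards [Lp.coeFn_sub (h k) h'] with x hx
        rw [hx, Pi.sub_apply]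
      filter_upwards [hae, h2] with x hx hx2
      simp_rw [hx2]
      rw [← sub_self (h' x)]
      exact hx.sub_const _
  have h2 := h1.add_const (ℓ h')
  simpa using h2

end Pool.Agent.FC472D
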