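import Mathlib
import Pool.Agent.FC472D.Defs
import Pool.Agent.FC472D.WeakLp

/-!
# Elementary facts on the Sobolev spaces `W1p`
-/

namespace Pool.Agent.FC472D

open MeasureTheory Filter Topology Set
open scoped ENNReal ContDiff RealInnerProductSpace

variable {n : ℕ}

/-- A map which is `C¹` in the open set `Ω` has its classical differential as weak differential. -/
lemma isWeakDeriv_of_contDiffOn {Ω : Set (Rn n)} (hΩ : IsOpen Ω) {g : Rn n → Rn n}
    (hg : ContDiffOn ℝ 1 g Ω) : IsWeakDeriv Ω g (fderiv ℝ g) := by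
  intro φ hφ hc hsub v
  have hDg : ContinuousOn (fderiv ℝ g) Ω := hg.continuousOn_fderiv_of_isOpen hΩ (by simp)
  have hout : ∀ x, x ∉ tsupport φ → φ x = 0 ∧ fderiv ℝ φ x = 0 := by
    intro x hx
    have h1 : φ =ᶠ[𝓝 x] fun _ => 0 := notMem_tsupport_iff_eventuallyEq.1 hx
    refine ⟨h1.self_of_nhds, ?_⟩
    rw [h1.fderiv_eq]; simp
  have e1 : ∫ x in Ω, (fderiv ℝ φ x v) • g x = ∫ x, (fderiv ℝ φ x v) • g x := by
    apply setIntegral_eq_integral_of_forall_compl_eq_zero
    intro x hx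
    rw [(hout x fun h => hx (hsub h)).2]; simp
  have e2 : ∫ x in Ω, φ x • (fderiv ℝ g x v) = ∫ x, φ x • (fderiv ℝ g x v) := by
    apply setIntegral_eq_integral_of_forall_compl_eq_zero
    intro x hx
    rw [(hout x fun h => hx (hsub h)).1]; simp
  have hφd : Continuous (fun x => fderiv ℝ φ x v) :=
    (hφ.continuous_fderiv (by simp)).clm_apply continuous_const
  have i1 : Integrable (fun x => (fderiv ℝ φ x v) • g x) := by
    rw [← integrableOn_iff_integrable_of_support_subset (s := tsupport φ)]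
    · apply ContinuousOn.integrableOn_compact hc.isCompact
      exact hφd.continuousOn.smul (hg.continuousOn.mono hsub)
    · intro x hx
      by_contra hcon
      rw [Function.mem_support, (hout x hcon).2] at hx
      simp at hx
  have i2 : Integrable (fun x => φ x • (fderiv ℝ g x v)) := by
    rw [← integrableOn_iff_integrable_of_support_subset (s := tsupport φ)]
    · apply ContinuousOn.integrableOn_compact hc.isCompact
      exact hφ.continuous.continuousOn.smul ((hDg.mono hsub).clm_apply continuousOn_const)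
    · intro x hx
      by_contra hcon
      rw [Function.mem_support, (hout x hcon).1] at hx
      simp at hx
  have i3 : Integrable (fun x => φ x • g x) := by
    rw [← integrableOn_iff_integrable_of_support_subset (s := tsupport φ)]
    · apply ContinuousOn.integrableOn_compact hc.isCompact
      exact hφ.continuous.continuousOn.smul (hg.continuousOn.mono hsub)
    · intro x hx
      by_contra hcon
      rw [Function.mem_support, (hout x hcon).1] at hx
      simp at hx
  have key := integral_smul_fderiv_eq_neg_fderiv_smul_of_integrable (μ := volume) (f := φ) (g := g)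
    (v := v) i1 i2 i3 (fun x _ => hφ.differentiable (by simp) x)
    (fun x hx => (hg.contDiffAt (hΩ.mem_nhds (hsub hx))).differentiableAt (by simp))
  rw [e1, e2, key, neg_neg]

/-- Uniqueness of the weak differential, in the form needed: if `f = g` a.e. in `Ω` with `g` of
class `C¹` in `Ω`, then a weak differential of `f` is a.e. the classical differential of `g`. -/
lemma weakDeriv_ae_eq {Ω : Set (Rn n)} (hΩ : IsOpen Ω) {p : ℝ≥0∞} [hp : Fact (1 ≤ p)]
    (F : W1p n Ω p) {g : Rn n → Rn n} (hg : ContDiffOn ℝ 1 g Ω)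
    (hfg : (F.1.1 : Rn n → Rn n) =ᵐ[volume.restrict Ω] g) :
    (F.1.2 : Rn n → Rn n →L[ℝ] Rn n) =ᵐ[volume.restrict Ω] fderiv ℝ g := by
  have hDg : ContinuousOn (fderiv ℝ g) Ω := hg.continuousOn_fderiv_of_isOpen hΩ (by simp)
  have main : ∀ v : Rn n, ∀ᵐ x ∂(volume.restrict Ω),
      (F.1.2 : Rn n → Rn n →L[ℝ] Rn n) x v = fderiv ℝ g x v := by
    intro v
    have hloc1 : LocallyIntegrableOn (fun x => fderiv ℝ g x v) Ω volume :=
      (hDg.clm_apply continuousOn_const).locallyIntegrableOn hΩ.measurableSet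
    have hloc2 : LocallyIntegrableOn (fun x => (F.1.2 : Rn n → Rn n →L[ℝ] Rn n) x v) Ω volume := by
      have h1 : LocallyIntegrable (F.1.2 : Rn n → Rn n →L[ℝ] Rn n) (volume.restrict Ω) :=
        (Lp.memLp F.1.2).locallyIntegrable hp.out
      have h2 : LocallyIntegrable (fun x => (F.1.2 : Rn n → Rn n →L[ℝ] Rn n) x v)
          (volume.restrict Ω) := by
        intro x
        obtain ⟨s, hs, hs'⟩ := h1 x
        exact ⟨s, hs, hs'.apply_continuousLinearMap v⟩
      exact locallyIntegrableOn_of_locallyIntegrable_restrict h2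
    have hloc : LocallyIntegrableOn
        (fun x => (F.1.2 : Rn n → Rn n →L[ℝ] Rn n) x v - fderiv ℝ g x v) Ω volume :=
      hloc2.sub hloc1
    have key := IsOpen.ae_eq_zero_of_integral_contDiff_smul_eq_zero hΩ hloc ?_
    · rw [ae_restrict_iff' hΩ.measurableSet]
      filter_upwards [key] with x hx hxΩ
      exact sub_eq_zero.1 (hx hxΩ)
    · intro φ hφ hc hsub
      have hout : ∀ x, x ∉ Ω → φ x = 0 := fun x hx =>
        image_eq_zero_of_notMem_tsupport fun h => hx (hsub h)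
      have e1 : ∫ x, φ x • ((F.1.2 : Rn n → Rn n →L[ℝ] Rn n) x v - fderiv ℝ g x v)
          = ∫ x in Ω, φ x • ((F.1.2 : Rn n → Rn n →L[ℝ] Rn n) x v - fderiv ℝ g x v) := by
        symm
        apply setIntegral_eq_integral_of_forall_compl_eq_zero
        intro x hx
        rw [hout x hx, zero_smul]
      have i1 : Integrable (fun x => φ x • ((F.1.2 : Rn n → Rn n →L[ℝ] Rn n) x v))
          (volume.restrict Ω) := integrable_smul_Lp_apply F.1.2 hφ.continuous hc v
      have i2 : Integrable (fun x => φ x • fderiv ℝ g x v) (volume.restrict Ω) := by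
        have : Integrable (fun x => φ x • fderiv ℝ g x v) := by
          rw [← integrableOn_iff_integrable_of_support_subset (s := tsupport φ)]
          · apply ContinuousOn.integrableOn_compact hc.isCompact
            exact hφ.continuous.continuousOn.smul ((hDg.mono hsub).clm_apply continuousOn_const)
          · intro x hx
            by_contra hcon
            rw [Function.mem_support, image_eq_zero_of_notMem_tsupport hcon] at hx
            simp at hx
        exact this.restrict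
      rw [e1]
      simp_rw [smul_sub]
      rw [integral_sub i1 i2, sub_eq_zero]
      have w1 := F.2 φ hφ hc hsub v
      have w2 := isWeakDeriv_of_contDiffOn hΩ hg φ hφ hc hsub v
      have w3 : ∫ x in Ω, (fderiv ℝ φ x v) • (F.1.1 : Rn n → Rn n) x
          = ∫ x in Ω, (fderiv ℝ φ x v) • g x := by
        apply integral_congr_ae
        filter_upwards [hfg] with x hx
        rw [hx]
      rw [w3, w2] at w1
      exact (neg_injective w1).symm
  have main2 := ae_all_iff.2 fun j : Fin n => main (EuclideanSpace.single j 1)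
  filter_upwards [main2] with x hx
  apply ContinuousLinearMap.coe_injective
  apply (EuclideanSpace.basisFun (Fin n) ℝ).toBasis.ext
  intro j
  simpa using hx j

/-- Pairing with a bounded function and a fixed functional is a continuous functional on `L^p`. -/
lemma exists_pairing {X : Type*} [MeasurableSpace X] {μ : Measure X} [IsFiniteMeasure μ]
    {F : Type*} [NormedAddCommGroup F] [NormedSpace ℝ F] {p : ℝ≥0∞} [hp : Fact (1 ≤ p)]
    {ψ : X → ℝ} (hψ : AEStronglyMeasurable ψ μ) {M : ℝ} (hM : ∀ x, |ψ x| ≤ M) (K : F →L[ℝ] ℝ) :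
    ∃ ℓ : Lp F p μ →L[ℝ] ℝ, ∀ h : Lp F p μ, ℓ h = ∫ x, ψ x * K (h x) ∂μ := by
  have hint : ∀ h : Lp F p μ, Integrable (fun x => h x) μ := fun h =>
    (Lp.memLp h).integrable hp.out
  have hint2 : ∀ h : Lp F p μ, Integrable (fun x => ψ x * K (h x)) μ := by
    intro h
    have h1 : Integrable (fun x => K (h x)) μ := K.integrable_comp (hint h)
    exact h1.bdd_mul hψ (Eventually.of_forall fun x => by
      rw [Real.norm_eq_abs]; exact hM x)
  have hadd : ∀ h g : Lp F p μ, ∫ x, ψ x * K ((h + g : Lp F p μ) x) ∂μ =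
      ∫ x, ψ x * K (h x) ∂μ + ∫ x, ψ x * K (g x) ∂μ := by
    intro h g
    rw [← integral_add (hint2 h) (hint2 g)]
    apply integral_congr_ae
    filter_upwards [Lp.coeFn_add h g] with x hx
    rw [hx, Pi.add_apply, map_add, mul_add]
  have hsmul : ∀ (c : ℝ) (h : Lp F p μ), ∫ x, ψ x * K ((c • h : Lp F p μ) x) ∂μ =
      c * ∫ x, ψ x * K (h x) ∂μ := by
    intro c h
    rw [← integral_const_mul]
    apply integral_congr_ae
    filter_upwards [Lp.coeFn_smul c h] with x hx
    rw [hx, Pi.smul_apply, map_smul, smul_eq_mul]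
    ring
  let L : Lp F p μ →ₗ[ℝ] ℝ :=
    { toFun := fun h => ∫ x, ψ x * K (h x) ∂μ
      map_add' := hadd
      map_smul' := fun c h => by simpa using hsmul c h }
  set A : ℝ := (μ univ ^ (1 / (1 : ℝ≥0∞).toReal - 1 / p.toReal)).toReal with hA
  have hbound : ∀ h : Lp F p μ, ‖L h‖ ≤ (|M| * ‖K‖ * A) * ‖h‖ := by
    intro h
    have h1 : ∫ x, ‖h x‖ ∂μ ≤ A * ‖h‖ := by
      have e1 : ∫ x, ‖h x‖ ∂μ = (eLpNorm h 1 μ).toReal := by
        rw [eLpNorm_one_eq_lintegral_enorm, integral_norm_eq_lintegral_enorm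
          (Lp.aestronglyMeasurable h)]
      have e2 := eLpNorm_le_eLpNorm_mul_rpow_measure_univ hp.out (Lp.aestronglyMeasurable h)
      have hne : (μ univ ^ (1 / (1 : ℝ≥0∞).toReal - 1 / p.toReal)) ≠ ⊤ := by
        apply ENNReal.rpow_ne_top_of_nonneg _ (measure_ne_top _ _)
        rw [ENNReal.toReal_one, sub_nonneg]
        rcases eq_or_ne p ⊤ with h | h
        · rw [h]; simp
        · have : 1 ≤ p.toReal := by
            rw [← ENNReal.toReal_one]
            exact (ENNReal.toReal_le_toReal ENNReal.one_ne_top h).2 hp.out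
          rw [div_le_div_iff₀ (by linarith) one_pos]
          linarith
      rw [e1, Lp.norm_def, hA, mul_comm, ← ENNReal.toReal_mul]
      exact ENNReal.toReal_mono (ENNReal.mul_ne_top (Lp.eLpNorm_ne_top h) hne) e2
    calc ‖∫ x, ψ x * K (h x) ∂μ‖ ≤ ∫ x, ‖ψ x * K (h x)‖ ∂μ := norm_integral_le_integral_norm _
      _ ≤ ∫ x, (|M| * ‖K‖) * ‖h x‖ ∂μ := by
          apply integral_mono (hint2 h).norm ((hint h).norm.const_mul _)
          intro x
          show ‖ψ x * K (h x)‖ ≤ (|M| * ‖K‖) * ‖h x‖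
          rw [norm_mul, mul_assoc]
          apply mul_le_mul _ (K.le_opNorm _) (norm_nonneg _) (abs_nonneg _)
          rw [Real.norm_eq_abs]
          exact (hM x).trans (le_abs_self M)
      _ = (|M| * ‖K‖) * ∫ x, ‖h x‖ ∂μ := integral_const_mul _ _
      _ ≤ (|M| * ‖K‖) * (A * ‖h‖) := mul_le_mul_of_nonneg_left h1 (by positivity)
      _ = (|M| * ‖K‖ * A) * ‖h‖ := by ring
  exact ⟨L.mkContinuous _ hbound, fun h => rfl⟩

/-- **Weak closedness**: if `F k ∈ W^{1,p}`, `F k → F` a.e. (both components), and both components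
are bounded in `L^p`, `1 < p < ∞`, on a domain of finite measure, then `F ∈ W^{1,p}`. -/
lemma mem_W1p_of_ae {Ω : Set (Rn n)} (hfin : volume Ω ≠ ⊤) {p : ℝ≥0∞}
    [hp : Fact (1 ≤ p)] (hp1 : 1 < p) (hp_top : p ≠ ⊤)
    (Fk : ℕ → W1p n Ω p)
    (F : Lp (Rn n) p (volume.restrict Ω) × Lp (Rn n →L[ℝ] Rn n) p (volume.restrict Ω)) {C : ℝ}
    (hC : ∀ k, ‖Fk k‖ ≤ C)
    (h1 : ∀ᵐ x ∂(volume.restrict Ω), Tendsto (fun k => ((Fk k).1.1 : Rn n → Rn n) x) atTop
      (𝓝 ((F.1 : Rn n → Rn n) x)))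
    (h2 : ∀ᵐ x ∂(volume.restrict Ω), Tendsto
      (fun k => ((Fk k).1.2 : Rn n → Rn n →L[ℝ] Rn n) x) atTop
      (𝓝 ((F.2 : Rn n → Rn n →L[ℝ] Rn n) x))) : F ∈ W1p n Ω p := by
  have : IsFiniteMeasure (volume.restrict Ω) := ⟨by
    rw [Measure.restrict_apply_univ]; exact hfin.lt_top⟩
  have hC1 : ∀ k, ‖(Fk k).1.1‖ ≤ C := fun k => (norm_fst_le (Fk k).1).trans (hC k)
  have hC2 : ∀ k, ‖(Fk k).1.2‖ ≤ C := fun k => (norm_snd_le (Fk k).1).trans (hC k)
  intro φ hφ hc hsub v
  have hφd : Continuous (fun x => fderiv ℝ φ x v) :=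
    (hφ.continuous_fderiv (by simp)).clm_apply continuous_const
  obtain ⟨M1, hM1⟩ := hφd.bounded_above_of_compact_support (hc.fderiv_apply ℝ v)
  obtain ⟨M2, hM2⟩ := hφ.continuous.bounded_above_of_compact_support hc
  -- test against an arbitrary vector
  apply ext_inner_left ℝ
  intro u
  obtain ⟨ℓ1, hℓ1⟩ := exists_pairing (μ := volume.restrict Ω) (p := p)
    (hφd.aestronglyMeasurable) hM1 (innerSL ℝ u : Rn n →L[ℝ] ℝ)
  obtain ⟨ℓ2, hℓ2⟩ := exists_pairing (μ := volume.restrict Ω) (p := p)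
    (hφ.continuous.aestronglyMeasurable) hM2
    ((innerSL ℝ u : Rn n →L[ℝ] ℝ).comp (ContinuousLinearMap.apply ℝ (Rn n) v))
  have e1 : ∀ f : Lp (Rn n) p (volume.restrict Ω),
      ⟪u, ∫ x in Ω, (fderiv ℝ φ x v) • (f : Rn n → Rn n) x⟫ = ℓ1 f := by
    intro f
    rw [hℓ1, ← integral_inner (integrable_smul_Lp f hφd (hc.fderiv_apply ℝ v))]
    apply integral_congr_ae
    filter_upwards with x
    rw [real_inner_smul_right]; rfl
  have e2 : ∀ G : Lp (Rn n →L[ℝ] Rn n) p (volume.restrict Ω),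
      ⟪u, ∫ x in Ω, φ x • ((G : Rn n → Rn n →L[ℝ] Rn n) x v)⟫ = ℓ2 G := by
    intro G
    rw [hℓ2, ← integral_inner (integrable_smul_Lp_apply G hφ.continuous hc v)]
    apply integral_congr_ae
    filter_upwards with x
    rw [real_inner_smul_right]; rfl
  have t1 := tendsto_dual_of_ae hp1 hp_top (fun k => (Fk k).1.1) F.1 hC1 h1 ℓ1
  have t2 := tendsto_dual_of_ae hp1 hp_top (fun k => (Fk k).1.2) F.2 hC2 h2 ℓ2
  have t3 : ∀ k, ℓ1 (Fk k).1.1 = - ℓ2 (Fk k).1.2 := by
    intro k
    rw [← e1, ← e2, ← inner_neg_right]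
    congr 1
    exact (Fk k).2 φ hφ hc hsub v
  rw [inner_neg_right, e1, e2]
  have t4 : Tendsto (fun k => ℓ1 (Fk k).1.1) atTop (𝓝 (-ℓ2 F.2)) := by
    simp_rw [t3]; exact t2.neg
  exact tendsto_nhds_unique t1 t4

/-- **Weak convergence** in `W^{1,p}` from a.e. convergence and boundedness. -/
lemma tendsto_dual_W1p {Ω : Set (Rn n)} (hfin : volume Ω ≠ ⊤) {p : ℝ≥0∞}
    [hp : Fact (1 ≤ p)] (hp1 : 1 < p) (hp_top : p ≠ ⊤)
    (Fk : ℕ → W1p n Ω p) (F : W1p n Ω p) {C : ℝ} (hC : ∀ k, ‖Fk k‖ ≤ C)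
    (h1 : ∀ᵐ x ∂(volume.restrict Ω), Tendsto (fun k => ((Fk k).1.1 : Rn n → Rn n) x) atTop
      (𝓝 ((F.1.1 : Rn n → Rn n) x)))
    (h2 : ∀ᵐ x ∂(volume.restrict Ω), Tendsto
      (fun k => ((Fk k).1.2 : Rn n → Rn n →L[ℝ] Rn n) x) atTop
      (𝓝 ((F.1.2 : Rn n → Rn n →L[ℝ] Rn n) x))) (ℓ : W1p n Ω p →L[ℝ] ℝ) :
    Tendsto (fun k => ℓ (Fk k)) atTop (𝓝 (ℓ F)) := by
  have : IsFiniteMeasure (volume.restrict Ω) := ⟨by
    rw [Measure.restrict_apply_univ]; exact hfin.lt_top⟩
  have hC1 : ∀ k, ‖(Fk k).1.1‖ ≤ C := fun k => (norm_fst_le (Fk k).1).trans (hC k)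
  have hC2 : ∀ k, ‖(Fk k).1.2‖ ≤ C := fun k => (norm_snd_le (Fk k).1).trans (hC k)
  obtain ⟨L, hL, -⟩ := exists_extension_norm_eq (W1p n Ω p) ℓ
  have hsplit : ∀ G : W1p n Ω p, ℓ G =
      (L.comp (ContinuousLinearMap.inl ℝ _ _)) G.1.1 + (L.comp (ContinuousLinearMap.inr ℝ _ _)) G.1.2 := by
    intro G
    rw [← hL G, ContinuousLinearMap.comp_apply, ContinuousLinearMap.comp_apply, ← map_add]
    congr 1
    simp
  have t1 := tendsto_dual_of_ae hp1 hp_top (fun k => (Fk k).1.1) F.1.1 hC1 h1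
    (L.comp (ContinuousLinearMap.inl ℝ _ _))
  have t2 := tendsto_dual_of_ae hp1 hp_top (fun k => (Fk k).1.2) F.1.2 hC2 h2
    (L.comp (ContinuousLinearMap.inr ℝ _ _))
  simp_rw [hsplit]
  exact t1.add t2

end Pool.Agent.FC472D
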