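import Mathlib
import Pool.Agent.FC472D.Defs
import Pool.Agent.FC472D.Cutoff
import Pool.Agent.FC472D.Sobolev

/-!
# An obstruction to strong approximation by diffeomorphisms in `W^{1,n-1}`
-/

namespace Pool.Agent.FC472D

open MeasureTheory Filter Topology Set Metric
open scoped ENNReal ContDiff

variable {n : ℕ}

lemma det_id' : (ContinuousLinearMap.id ℝ (Rn n)).det = 1 := by
  exact LinearMap.det_id

lemma IsDiffeo.det_ne_zero {Ω Ω' : Set (Rn n)} (hΩ : IsOpen Ω) (hΩ' : IsOpen Ω') {g : Rn n → Rn n}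
    (hg : IsDiffeo 1 Ω Ω' g) {x : Rn n} (hx : x ∈ Ω) : (fderiv ℝ g x).det ≠ 0 := by
  obtain ⟨hgc, hbij, h, hhc, hmaps, hgh⟩ := hg
  have hhg : ∀ y ∈ Ω, h (g y) = y := fun y hy =>
    hbij.injOn (hmaps (hbij.mapsTo hy)) hy (hgh (g y) (hbij.mapsTo hy))
  have d1 : HasFDerivAt g (fderiv ℝ g x) x :=
    ((hgc.contDiffAt (hΩ.mem_nhds hx)).differentiableAt (by simp)).hasFDerivAt
  have d2 : HasFDerivAt h (fderiv ℝ h (g x)) (g x) :=
    ((hhc.contDiffAt (hΩ'.mem_nhds (hbij.mapsTo hx))).differentiableAt (by simp)).hasFDerivAt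
  have d3 := d2.comp x d1
  have h4 : (h ∘ g) =ᶠ[𝓝 x] id := by
    filter_upwards [hΩ.mem_nhds hx] with y hy using hhg y hy
  have d5 : HasFDerivAt (h ∘ g) (ContinuousLinearMap.id ℝ (Rn n)) x :=
    (hasFDerivAt_id x).congr_of_eventuallyEq h4
  have h6 := d3.unique d5
  intro h0
  have h7 : ((fderiv ℝ h (g x)).comp (fderiv ℝ g x)).det = 1 := by
    rw [h6, det_id']
  have h8 : ((fderiv ℝ h (g x)).comp (fderiv ℝ g x)).det
      = (fderiv ℝ h (g x)).det * (fderiv ℝ g x).det := by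
    show LinearMap.det (((fderiv ℝ h (g x)).comp (fderiv ℝ g x) : Rn n →L[ℝ] Rn n)
      : Rn n →ₗ[ℝ] Rn n) = _
    rw [ContinuousLinearMap.toLinearMap_comp]
    exact LinearMap.det_comp _ _
  rw [h8, h0, mul_zero] at h7
  exact zero_ne_one h7

lemma rowDet_bound_aux {D B : Rn n →L[ℝ] Rn n} {i₀ : Fin n} {om : Rn n →L[ℝ] ℝ} {M : ℝ}
    {y : Rn n} (hM : ‖om‖ ≤ M) (hy : ‖y‖ ≤ 1)
    (h : om = 0 ∨ ∀ i, i ≠ i₀ → ∀ h : Rn n, (B h) i = 0) :
    ‖y i₀ * rowDet D i₀ om‖ ≤ n.factorial * M * ‖D - B‖ ^ (n - 1) := by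
  have hM0 : 0 ≤ M := (norm_nonneg _).trans hM
  rw [norm_mul]
  have b1 : ‖y i₀‖ ≤ 1 := (PiLp.norm_apply_le y i₀).trans hy
  have b2 : ‖rowDet D i₀ om‖ ≤ n.factorial * M * ‖D - B‖ ^ (n - 1) := by
    rcases h with h | h
    · rw [h, rowDet_zero, norm_zero]
      positivity
    · rw [Real.norm_eq_abs]
      refine (abs_rowDet_le h).trans ?_
      have h3 : ‖D - B‖ ^ (n - 1) * ‖om‖ ≤ ‖D - B‖ ^ (n - 1) * M :=
        mul_le_mul_of_nonneg_left hM (by positivity)
      calc _ ≤ (n.factorial : ℝ) * (‖D - B‖ ^ (n - 1) * M) :=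
            mul_le_mul_of_nonneg_left h3 (by positivity)
        _ = _ := by ring
  calc ‖y i₀‖ * ‖rowDet D i₀ om‖ ≤ 1 * (n.factorial * M * ‖D - B‖ ^ (n - 1)) :=
        mul_le_mul b1 b2 (norm_nonneg _) zero_le_one
    _ = _ := one_mul _

lemma eLpNorm_rpow_eq {F : Type*} [NormedAddCommGroup F] {X : Type*} [MeasurableSpace X]
    {μ : Measure X} {p : ℝ≥0∞} (hp0 : p ≠ 0) (hptop : p ≠ ⊤) (f : X → F) :
    (eLpNorm f p μ) ^ p.toReal = ∫⁻ x, ‖f x‖ₑ ^ p.toReal ∂μ := by
  rw [eLpNorm_eq_lintegral_rpow_enorm_toReal hp0 hptop, ← ENNReal.rpow_mul,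
    one_div_mul_cancel (ENNReal.toReal_pos hp0 hptop).ne', ENNReal.rpow_one]

/-- the obstruction -/
theorem not_strong {p : ℝ≥0∞} [hp1 : Fact (1 ≤ p)] (hp : p = ((n - 1 : ℕ) : ℝ≥0∞))
    {B : Set (Rn n)} (hB : B = ball 0 1)
    (F : W1p n B p) (i₀ : Fin n)
    (h1 : ∀ᵐ x ∂(volume.restrict B), 1 / 2 < ‖x‖ → ∀ i, i ≠ i₀ → ∀ h : Rn n,
      ((F.1.2 : Rn n → Rn n →L[ℝ] Rn n) x h) i = 0)
    (h2 : ∀ᵐ x ∂(volume.restrict B), ‖x‖ < 1 / 4 →
      (F.1.2 : Rn n → Rn n →L[ℝ] Rn n) x = ContinuousLinearMap.id ℝ (Rn n)) :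
    ¬ ∃ G : ℕ → W1p n B p, (∀ k, G k ∈ Diffeos 1 B B p) ∧ Tendsto G atTop (𝓝 F) := by
  rintro ⟨G, hG, hlim⟩
  choose g hg hgae using hG
  have hBo : IsOpen B := by rw [hB]; exact isOpen_ball
  have hBpre : IsPreconnected B := by rw [hB]; exact (convex_ball (0 : Rn n) 1).isPreconnected
  have hp0 : p ≠ 0 := (lt_of_lt_of_le zero_lt_one hp1.out).ne'
  have hptop : p ≠ ⊤ := by rw [hp]; exact ENNReal.natCast_ne_top _
  have hpr : p.toReal = ((n - 1 : ℕ) : ℝ) := by rw [hp, ENNReal.toReal_natCast]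
  have hDae : ∀ k, ((G k).1.2 : Rn n → Rn n →L[ℝ] Rn n) =ᵐ[volume.restrict B] fderiv ℝ (g k) :=
    fun k => weakDeriv_ae_eq hBo (G k) (hg k).1 (hgae k)
  -- the cut-offs
  let ζ : ContDiffBump (0 : Rn n) := ⟨3 / 5, 7 / 10, by norm_num, by norm_num⟩
  let χ : ContDiffBump (0 : Rn n) := ⟨4 / 5, 9 / 10, by norm_num, by norm_num⟩
  have hζc : ContDiff ℝ 1 ζ := ζ.contDiff
  have hχc : ContDiff ℝ 1 χ := χ.contDiff
  have hζs : tsupport ζ = closedBall (0 : Rn n) (7 / 10) := ζ.tsupport_eq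
  have hχs : tsupport χ = closedBall (0 : Rn n) (9 / 10) := χ.tsupport_eq
  have hχB : tsupport χ ⊆ B := by
    rw [hχs, hB]; exact closedBall_subset_ball (by norm_num)
  have hζB : tsupport ζ ⊆ B := by
    rw [hζs, hB]; exact closedBall_subset_ball (by norm_num)
  have hχ1 : ∀ x ∈ tsupport ζ, (χ : Rn n → ℝ) =ᶠ[𝓝 x] fun _ => 1 := by
    intro x hx
    apply χ.eventuallyEq_one_of_mem_ball
    rw [hζs] at hx
    exact closedBall_subset_ball (by norm_num : (7 : ℝ) / 10 < 4 / 5) hx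
  have hident := fun k => integral_cutoff_det hBo (hg k).1 hζc hχc ζ.hasCompactSupport
    χ.hasCompactSupport hχB hχ1 i₀
  have hζd0 : ∀ x : Rn n, ‖x‖ ≤ 1 / 2 → fderiv ℝ ζ x = 0 := by
    intro x hx
    have : (ζ : Rn n → ℝ) =ᶠ[𝓝 x] fun _ => 1 := by
      apply ζ.eventuallyEq_one_of_mem_ball
      rw [mem_ball_zero_iff]
      show ‖x‖ < 3 / 5
      linarith
    rw [this.fderiv_eq]; simp
  have hζdout : ∀ x : Rn n, x ∉ B → fderiv ℝ ζ x = 0 := by
    intro x hx
    have h3 : (ζ : Rn n → ℝ) =ᶠ[𝓝 x] fun _ => 0 :=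
      notMem_tsupport_iff_eventuallyEq.1 fun h => hx (hζB h)
    rw [h3.fderiv_eq]; simp
  obtain ⟨M, hM⟩ := (hζc.continuous_fderiv (by simp)).bounded_above_of_compact_support
    (ζ.hasCompactSupport.fderiv ℝ)
  have hM0 : 0 ≤ M := (norm_nonneg _).trans (hM 0)
  -- the key quantities
  set I : ℕ → ℝ := fun k => ∫ x, ζ x * (fderiv ℝ (g k) x).det with hI
  have hIbound : ∀ k, ENNReal.ofReal |I k| ≤ ENNReal.ofReal (n.factorial * M) *
      (eLpNorm (((G k).1.2 : Rn n → Rn n →L[ℝ] Rn n) - (F.1.2 : Rn n → Rn n →L[ℝ] Rn n)) p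
        (volume.restrict B)) ^ p.toReal := by
    intro k
    have e1 : |I k| = ‖∫ x in B, (g k x i₀) * rowDet (fderiv ℝ (g k) x) i₀ (fderiv ℝ ζ x)‖ := by
      rw [hI]
      simp only
      rw [hident k, abs_neg, Real.norm_eq_abs, setIntegral_eq_integral_of_forall_compl_eq_zero]
      intro x hx
      rw [hζdout x hx, rowDet_zero, mul_zero]
    rw [e1, eLpNorm_rpow_eq hp0 hptop, ofReal_norm]
    refine (enorm_integral_le_lintegral_enorm _).trans ?_
    rw [← lintegral_const_mul'']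
    · apply lintegral_mono_ae
      filter_upwards [hDae k, h1, ae_restrict_mem hBo.measurableSet] with x hx1 hx2 hxB
      rw [Pi.sub_apply, hx1, hpr, ENNReal.rpow_natCast, ← ofReal_norm,
        ← ofReal_norm, ← ENNReal.ofReal_pow (norm_nonneg _),
        ← ENNReal.ofReal_mul (by positivity)]
      apply ENNReal.ofReal_le_ofReal
      apply rowDet_bound_aux (hM x)
      · have h3 : g k x ∈ B := (hg k).2.1.mapsTo hxB
        rw [hB, mem_ball_zero_iff] at h3
        exact h3.le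
      · rcases le_or_gt ‖x‖ (1 / 2) with h | h
        · exact Or.inl (hζd0 x h)
        · exact Or.inr (hx2 h)
    · exact (((Lp.aestronglyMeasurable (G k).1.2).sub
        (Lp.aestronglyMeasurable F.1.2)).enorm).pow_const _
  -- hence `I k → 0`
  have hlim2 : Tendsto (fun k => (G k).1.2) atTop (𝓝 F.1.2) :=
    ((continuous_snd.comp continuous_subtype_val).tendsto F).comp hlim
  have hI0 : Tendsto (fun k => ENNReal.ofReal |I k|) atTop (𝓝 0) := by
    have t1 : Tendsto (fun k => eLpNorm (((G k).1.2 : Rn n → Rn n →L[ℝ] Rn n) -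
        (F.1.2 : Rn n → Rn n →L[ℝ] Rn n)) p (volume.restrict B)) atTop (𝓝 0) :=
      (Lp.tendsto_Lp_iff_tendsto_eLpNorm' _ _).1 hlim2
    have t2 : Tendsto (fun k => ENNReal.ofReal (n.factorial * M) *
        (eLpNorm (((G k).1.2 : Rn n → Rn n →L[ℝ] Rn n) - (F.1.2 : Rn n → Rn n →L[ℝ] Rn n)) p
        (volume.restrict B)) ^ p.toReal) atTop (𝓝 0) := by
      have t3 := t1.ennrpow_const p.toReal
      rw [ENNReal.zero_rpow_of_pos (ENNReal.toReal_pos hp0 hptop)] at t3
      have t4 := ENNReal.Tendsto.const_mul (a := ENNReal.ofReal (n.factorial * M)) t3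
        (Or.inr ENNReal.ofReal_ne_top)
      rwa [mul_zero] at t4
    exact tendsto_of_tendsto_of_tendsto_of_le_of_le tendsto_const_nhds t2
      (fun _ => zero_le) hIbound
  -- constant sign of the Jacobian
  have hDcont : ∀ k, ContinuousOn (fderiv ℝ (g k)) B := fun k =>
    (hg k).1.continuousOn_fderiv_of_isOpen hBo (by simp)
  have hdetcont : ∀ k, ContinuousOn (fun x => (fderiv ℝ (g k) x).det) B := fun k =>
    continuous_det'.comp_continuousOn (hDcont k)
  have hsign : ∀ k, (∀ x ∈ B, 0 < (fderiv ℝ (g k) x).det) ∨ (∀ x ∈ B, (fderiv ℝ (g k) x).det < 0) := by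
    intro k
    by_cases hpos : ∃ a ∈ B, 0 < (fderiv ℝ (g k) a).det
    · left
      obtain ⟨a, ha, ha'⟩ := hpos
      intro x hx
      by_contra hcon
      have h3 := (hBpre.intermediate_value hx ha (hdetcont k))
      obtain ⟨y, hy, hy0⟩ := h3 ⟨not_lt.1 hcon, ha'.le⟩
      exact (hg k).det_ne_zero hBo hBo hy hy0
    · right
      push Not at hpos
      intro x hx
      exact lt_of_le_of_ne (hpos x hx) ((hg k).det_ne_zero hBo hBo hx)
  have hout : ∀ x, x ∉ B → ζ x = 0 := fun x hx =>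
    image_eq_zero_of_notMem_tsupport fun h => hx (hζB h)
  have hint : ∀ k, Integrable (fun x => ζ x * |(fderiv ℝ (g k) x).det|) := by
    intro k
    rw [← integrableOn_iff_integrable_of_support_subset (s := tsupport ζ)]
    · apply ContinuousOn.integrableOn_compact ζ.hasCompactSupport.isCompact
      exact ζ.continuous.continuousOn.mul ((hdetcont k).mono hζB).abs
    · intro x hx
      apply subset_tsupport
      simp only [Function.mem_support, ne_eq, mul_eq_zero, not_or] at hx ⊢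
      exact hx.1
  have hJ : ∀ k, ∫ x, ζ x * |(fderiv ℝ (g k) x).det| = |I k| := by
    intro k
    have hnn : 0 ≤ ∫ x, ζ x * |(fderiv ℝ (g k) x).det| :=
      integral_nonneg fun x => mul_nonneg ζ.nonneg (abs_nonneg _)
    rcases hsign k with h | h
    · have : ∫ x, ζ x * |(fderiv ℝ (g k) x).det| = I k := by
        rw [hI]
        apply integral_congr_ae
        filter_upwards with x
        by_cases hx : x ∈ B
        · rw [abs_of_pos (h x hx)]
        · rw [hout x hx, zero_mul, zero_mul]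
      rw [this] at hnn ⊢
      rw [abs_of_nonneg hnn]
    · have : ∫ x, ζ x * |(fderiv ℝ (g k) x).det| = - I k := by
        rw [hI, ← integral_neg]
        apply integral_congr_ae
        filter_upwards with x
        by_cases hx : x ∈ B
        · rw [abs_of_neg (h x hx)]; ring
        · rw [hout x hx, zero_mul, zero_mul, neg_zero]
      rw [this] at hnn ⊢
      rw [abs_of_nonpos (by linarith)]
  set B4 : Set (Rn n) := ball 0 (1 / 4) with hB4
  have hB4B : B4 ⊆ B := by rw [hB]; exact ball_subset_ball (by norm_num)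
  have hle : ∀ k, ∫⁻ x in B4, ENNReal.ofReal |(fderiv ℝ (g k) x).det| ≤ ENNReal.ofReal |I k| := by
    intro k
    rw [← hJ k, ofReal_integral_eq_lintegral_ofReal (hint k)
      (Eventually.of_forall fun x => mul_nonneg ζ.nonneg (abs_nonneg _))]
    calc ∫⁻ x in B4, ENNReal.ofReal |(fderiv ℝ (g k) x).det|
        = ∫⁻ x in B4, ENNReal.ofReal (ζ x * |(fderiv ℝ (g k) x).det|) := by
          apply setLIntegral_congr_fun measurableSet_ball
          intro x hx
          have : ζ x = 1 := by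
            apply ζ.one_of_mem_closedBall
            rw [mem_closedBall_zero_iff]
            rw [mem_ball_zero_iff] at hx
            show ‖x‖ ≤ 3 / 5
            linarith
          simp only [this, one_mul]
      _ ≤ ∫⁻ x, ENNReal.ofReal (ζ x * |(fderiv ℝ (g k) x).det|) := setLIntegral_le_lintegral _ _
  -- a subsequence converging a.e.
  obtain ⟨ns, hns, hnsae⟩ := (tendstoInMeasure_of_tendsto_Lp hlim2).exists_seq_tendsto_ae
  have hDae' : ∀ᵐ x ∂(volume.restrict B), ∀ k,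
      ((G k).1.2 : Rn n → Rn n →L[ℝ] Rn n) x = fderiv ℝ (g k) x := ae_all_iff.2 hDae
  have hlimdet : ∀ᵐ x ∂(volume.restrict B4), Tendsto
      (fun i => ENNReal.ofReal |(fderiv ℝ (g (ns i)) x).det|) atTop (𝓝 1) := by
    have hres : ∀ᵐ x ∂(volume.restrict B), x ∈ B4 → Tendsto
      (fun i => ENNReal.ofReal |(fderiv ℝ (g (ns i)) x).det|) atTop (𝓝 1) := by
      filter_upwards [hnsae, hDae', h2] with x hx1 hx2 hx3 hx4
      rw [hB4, mem_ball_zero_iff] at hx4
      have h3 := hx3 hx4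
      rw [h3] at hx1
      simp_rw [hx2] at hx1
      have h4 : Tendsto (fun i => |(fderiv ℝ (g (ns i)) x).det|) atTop (𝓝 1) := by
        have h5 := ((continuous_det' (n := n)).tendsto (ContinuousLinearMap.id ℝ (Rn n))).comp hx1
        have h6 := h5.abs
        rw [det_id', abs_one] at h6
        exact h6
      have h7 := ENNReal.tendsto_ofReal h4
      rwa [ENNReal.ofReal_one] at h7
    rw [ae_restrict_iff' hBo.measurableSet] at hres
    rw [ae_restrict_iff' measurableSet_ball]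
    filter_upwards [hres] with x hx hx4
    exact hx (hB4B hx4) hx4
  have hfatou : volume B4 ≤ liminf (fun i => ∫⁻ x in B4,
      ENNReal.ofReal |(fderiv ℝ (g (ns i)) x).det|) atTop := by
    calc volume B4 = ∫⁻ x in B4, 1 := by simp
      _ = ∫⁻ x in B4, liminf (fun i => ENNReal.ofReal |(fderiv ℝ (g (ns i)) x).det|) atTop := by
          apply lintegral_congr_ae
          filter_upwards [hlimdet] with x hx
          rw [hx.liminf_eq]
      _ ≤ liminf (fun i => ∫⁻ x in B4,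
            ENNReal.ofReal |(fderiv ℝ (g (ns i)) x).det|) atTop := by
          apply lintegral_liminf_le'
          intro i
          have : ContinuousOn (fun x => ENNReal.ofReal |(fderiv ℝ (g (ns i)) x).det|) B4 :=
            ENNReal.continuous_ofReal.comp_continuousOn ((hdetcont (ns i)).mono hB4B).abs
          exact this.aemeasurable measurableSet_ball
  have hzero : liminf (fun i => ∫⁻ x in B4,
      ENNReal.ofReal |(fderiv ℝ (g (ns i)) x).det|) atTop = 0 := by
    apply Tendsto.liminf_eq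
    exact tendsto_of_tendsto_of_tendsto_of_le_of_le tendsto_const_nhds
      (hI0.comp hns.tendsto_atTop) (fun _ => zero_le) (fun i => hle (ns i))
  rw [hzero] at hfatou
  have hpos : 0 < volume B4 := measure_ball_pos _ _ (by norm_num)
  exact absurd hfatou (not_le.2 hpos)

end Pool.Agent.FC472D
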