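import Mathlib
import Pool.Agent.FC472D.Defs
import Pool.Agent.FC472D.Sobolev
import Pool.Agent.FC472D.Family
import Pool.Agent.FC472D.NonStrong

/-!
# The example: weak but not strong limit of diffeomorphisms of the unit ball
-/

namespace Pool.Agent.FC472D

open MeasureTheory Filter Topology Set Metric Module
open scoped ENNReal ContDiff RealInnerProductSpace

variable {n : ℕ}

lemma norm_single_e (i₀ : Fin n) : ‖(EuclideanSpace.single i₀ (1 : ℝ) : Rn n)‖ = 1 := by simp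

/-- the bad set is negligible -/
lemma ae_sp_pos (hn : 2 ≤ n) {e : Rn n} (he : ‖e‖ = 1) : ∀ᵐ x : Rn n, 0 < sp e x := by
  have hne : (Submodule.span ℝ {e}) ≠ ⊤ := by
    intro h
    have h1 : finrank ℝ (Submodule.span ℝ {e}) = n := by
      rw [h, finrank_top, finrank_euclideanSpace_fin]
    have h2 : finrank ℝ (Submodule.span ℝ {e}) ≤ 1 := by
      have := finrank_span_le_card (R := ℝ) ({e} : Set (Rn n))
      simpa using this
    omega
  have h0 := Measure.addHaar_submodule (volume : Measure (Rn n)) _ hne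
  rw [ae_iff]
  refine measure_mono_null ?_ h0
  intro x hx
  have hx0 : sp e x = 0 := le_antisymm (not_lt.1 hx) (sp_nonneg he x)
  have h1 := norm_sub_sq_e he x
  rw [hx0, zero_mul] at h1
  have h2 : x - ⟪e, x⟫ • e = 0 := by
    rw [← norm_eq_zero]
    exact pow_eq_zero_iff (two_ne_zero) |>.1 h1
  have h3 : x = ⟪e, x⟫ • e := sub_eq_zero.1 h2
  rw [SetLike.mem_coe, h3]
  exact Submodule.smul_mem _ _ (Submodule.mem_span_singleton_self e)

lemma ne_zero_of_sp_pos {e x : Rn n} (h : 0 < sp e x) : x ≠ 0 := by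
  rintro rfl
  simp [sp] at h

/-- uniform energy bound -/
lemma exists_energy_bound {e : Rn n} (he : ‖e‖ = 1) {p : ℝ≥0∞} (hp1 : 1 ≤ p)
    (hp : p = ((n - 1 : ℕ) : ℝ≥0∞)) : ∃ K : ℝ≥0∞, K ≠ ⊤ ∧ ∀ c : ℝ, 0 < c → c ≤ 1 →
      eLpNorm (Gc e c) p (volume.restrict (ball (0 : Rn n) 1)) ≤ K := by
  have hp0 : p ≠ 0 := (lt_of_lt_of_le zero_lt_one hp1).ne'
  have hptop : p ≠ ⊤ := by rw [hp]; exact ENNReal.natCast_ne_top _
  have hpr : p.toReal = ((n - 1 : ℕ) : ℝ) := by rw [hp, ENNReal.toReal_natCast]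
  have hpos : 0 < p.toReal := ENNReal.toReal_pos hp0 hptop
  obtain ⟨C, hC0, hC⟩ := exists_bound_Gc (V := Rn n) he
  rw [finrank_euclideanSpace_fin] at hC
  set B : Set (Rn n) := ball 0 1 with hB
  refine ⟨(ENNReal.ofReal C * (volume B + volume B)) ^ (1 / p.toReal), ?_, ?_⟩
  · apply ENNReal.rpow_ne_top_of_nonneg (by positivity)
    apply ENNReal.mul_ne_top ENNReal.ofReal_ne_top
    exact ENNReal.add_ne_top.2 ⟨measure_ball_lt_top.ne, measure_ball_lt_top.ne⟩
  · intro c hc0 hc1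
    rw [eLpNorm_eq_lintegral_rpow_enorm_toReal hp0 hptop]
    apply ENNReal.rpow_le_rpow _ (by positivity)
    have hsing : volume ({0} : Set (Rn n)) = 0 ∨ n = 0 := by
      rcases Nat.eq_zero_or_pos n with h | h
      · exact Or.inr h
      · left
        have : Nonempty (Fin n) := ⟨⟨0, h⟩⟩
        exact measure_singleton _
    have hn0 : n ≠ 0 := by
      intro h
      rw [hp, h] at hp0
      simp at hp0
    have hsing' : volume ({0} : Set (Rn n)) = 0 := hsing.resolve_right hn0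
    have hae : (B \ {0} : Set (Rn n)) =ᵐ[volume] B := by
      apply sdiff_null_ae_eq_self hsing'
    have e1 : ∫⁻ x in B, ‖Gc e c x‖ₑ ^ p.toReal = ∫⁻ x in B \ {0}, ‖Gc e c x‖ₑ ^ p.toReal := by
      rw [Measure.restrict_congr_set hae]
    have hmeas : MeasurableSet (B \ {0} : Set (Rn n)) :=
      measurableSet_ball.diff (measurableSet_singleton 0)
    rw [e1]
    have hder : ∀ x ∈ (B \ {0} : Set (Rn n)), HasFDerivWithinAt (Fc e c) (Gc e c x) (B \ {0}) x :=
      fun x hx => (hasFDerivAt_Fc he hc0 hc1 (fun h => hx.2 (by simp [h]))).hasFDerivWithinAt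
    have hinj : InjOn (Fc e c) (B \ {0}) := by
      intro x _ y _ hxy
      rw [← Hc_Fc he hc0 hc1 x, ← Hc_Fc he hc0 hc1 y, hxy]
    have hcv := lintegral_abs_det_fderiv_eq_addHaar_image volume hmeas hder hinj
    have himg : Fc e c '' (B \ {0}) ⊆ B := by
      rintro _ ⟨x, hx, rfl⟩
      rw [hB, mem_ball_zero_iff, norm_Fc he]
      exact mem_ball_zero_iff.1 hx.1
    calc ∫⁻ x in B \ {0}, ‖Gc e c x‖ₑ ^ p.toReal
        ≤ ∫⁻ x in B \ {0}, ENNReal.ofReal C * (1 + ENNReal.ofReal |(Gc e c x).det|) := by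
          apply setLIntegral_mono' hmeas
          intro x hx
          rw [hpr, ENNReal.rpow_natCast, ← ofReal_norm, ← ENNReal.ofReal_pow (norm_nonneg _),
            ← ENNReal.ofReal_one, ← ENNReal.ofReal_add zero_le_one (abs_nonneg _),
            ← ENNReal.ofReal_mul hC0.le]
          apply ENNReal.ofReal_le_ofReal
          apply hC c hc0 hc1 x (fun h => hx.2 (by simp [h]))
          exact (mem_ball_zero_iff.1 hx.1).le
      _ = ENNReal.ofReal C * (volume (B \ {0}) + ∫⁻ x in B \ {0}, ENNReal.ofReal |(Gc e c x).det|) := by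
          rw [lintegral_const_mul' _ _ ENNReal.ofReal_ne_top, lintegral_add_left measurable_const]
          simp
      _ = ENNReal.ofReal C * (volume (B \ {0}) + volume (Fc e c '' (B \ {0}))) := by rw [hcv]
      _ ≤ ENNReal.ofReal C * (volume B + volume B) := by
          gcongr
          exact sdiff_subset

lemma isDiffeo_Fc {e : Rn n} (he : ‖e‖ = 1) {c : ℝ} (hc0 : 0 < c) (hc1 : c ≤ 1) (m : ℕ∞) :
    IsDiffeo m (ball 0 1) (ball 0 1) (Fc e c) := by
  refine ⟨((contDiff_Fc he hc0 hc1).of_le (by exact_mod_cast le_top)).contDiffOn, ?_, Hc e c,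
    ((contDiff_Hc he hc0 hc1).of_le (by exact_mod_cast le_top)).contDiffOn, ?_, ?_⟩
  · refine ⟨?_, ?_, ?_⟩
    · intro x hx
      rw [mem_ball_zero_iff, norm_Fc he]
      exact mem_ball_zero_iff.1 hx
    · intro x _ y _ hxy
      rw [← Hc_Fc he hc0 hc1 x, ← Hc_Fc he hc0 hc1 y, hxy]
    · intro y hy
      refine ⟨Hc e c y, ?_, Fc_Hc he hc0 hc1 y⟩
      rw [mem_ball_zero_iff, norm_Hc he]
      exact mem_ball_zero_iff.1 hy
  · intro y hy
    rw [mem_ball_zero_iff, norm_Hc he]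
    exact mem_ball_zero_iff.1 hy
  · intro y _
    exact Fc_Hc he hc0 hc1 y

lemma memLp_Fc {e : Rn n} (he : ‖e‖ = 1) {c : ℝ} (hc0 : 0 < c) (hc1 : c ≤ 1) (p : ℝ≥0∞) :
    MemLp (Fc e c) p (volume.restrict (ball (0 : Rn n) 1)) := by
  have : IsFiniteMeasure (volume.restrict (ball (0 : Rn n) 1)) := ⟨by
    rw [Measure.restrict_apply_univ]; exact measure_ball_lt_top⟩
  apply MemLp.of_bound ((contDiff_Fc he hc0 hc1).continuous.aestronglyMeasurable) 1
  filter_upwards [ae_restrict_mem measurableSet_ball] with x hx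
  rw [norm_Fc he]
  exact (mem_ball_zero_iff.1 hx).le

lemma Gc_ae_eq_fderiv (hn : 2 ≤ n) {e : Rn n} (he : ‖e‖ = 1) {c : ℝ} (hc0 : 0 < c) (hc1 : c ≤ 1) :
    Gc e c =ᵐ[volume.restrict (ball (0 : Rn n) 1)] fderiv ℝ (Fc e c) := by
  apply ae_restrict_of_ae
  filter_upwards [ae_sp_pos hn he] with x hx
  exact (hasFDerivAt_Fc he hc0 hc1 (ne_zero_of_sp_pos hx)).fderiv.symm

lemma aesm_Gc (hn : 2 ≤ n) {e : Rn n} (he : ‖e‖ = 1) {c : ℝ} (hc0 : 0 < c) (hc1 : c ≤ 1) :
    AEStronglyMeasurable (Gc e c) (volume.restrict (ball (0 : Rn n) 1)) := by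
  have h1 : Continuous (fderiv ℝ (Fc e c)) := (contDiff_Fc he hc0 hc1).continuous_fderiv (by simp)
  exact h1.aestronglyMeasurable.congr (Gc_ae_eq_fderiv hn he hc0 hc1).symm

/-- **Main construction.** -/
theorem exists_example (hn : 3 ≤ n) {p : ℝ≥0∞} [hp1 : Fact (1 ≤ p)]
    (hp : p = ((n - 1 : ℕ) : ℝ≥0∞)) (m : ℕ∞) :
    ∃ F : W1p n (ball 0 1) p, F ∈ weakClosure m (ball 0 1) (ball 0 1) p ∧
      ¬ ∃ G : ℕ → W1p n (ball 0 1) p, (∀ k, G k ∈ Diffeos 1 (ball 0 1) (ball 0 1) p) ∧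
        Tendsto G atTop (𝓝 F) := by
  have hn2 : 2 ≤ n := by omega
  set i₀ : Fin n := ⟨0, by omega⟩ with hi₀
  set e : Rn n := EuclideanSpace.single i₀ 1 with he_def
  have he : ‖e‖ = 1 := norm_single_e i₀
  have hp0 : p ≠ 0 := (lt_of_lt_of_le zero_lt_one hp1.out).ne'
  have hptop : p ≠ ⊤ := by rw [hp]; exact ENNReal.natCast_ne_top _
  have hp1' : 1 < p := by
    rw [hp]
    have : 1 < n - 1 := by omega
    exact_mod_cast this
  have hfinB : volume (ball (0 : Rn n) 1) ≠ ⊤ := measure_ball_lt_top.ne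
  have hfin : IsFiniteMeasure (volume.restrict (ball (0 : Rn n) 1)) := ⟨by
    rw [Measure.restrict_apply_univ]; exact measure_ball_lt_top⟩
  obtain ⟨K, hK, hKb⟩ := exists_energy_bound he hp1.out hp
  -- the parameters
  set c : ℕ → ℝ := fun k => 1 / ((k : ℝ) + 1) with hc
  have hc0 : ∀ k, 0 < c k := fun k => by positivity
  have hc1 : ∀ k, c k ≤ 1 := fun k => by
    rw [hc]
    simp only
    rw [div_le_one (by positivity)]
    have : (0 : ℝ) ≤ k := Nat.cast_nonneg k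
    linarith
  have hclim : Tendsto c atTop (𝓝[>] 0) := by
    rw [tendsto_nhdsWithin_iff]
    exact ⟨tendsto_one_div_add_atTop_nhds_zero_nat, Eventually.of_forall hc0⟩
  -- pointwise limits
  have hFlim : ∀ᵐ x ∂(volume.restrict (ball (0 : Rn n) 1)),
      Tendsto (fun k => Fc e (c k) x) atTop (𝓝 (Fc e 0 x)) := by
    apply ae_restrict_of_ae
    filter_upwards [ae_sp_pos hn2 he] with x hx
    exact (tendsto_Fc he hx).comp hclim
  have hGlim : ∀ᵐ x ∂(volume.restrict (ball (0 : Rn n) 1)),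
      Tendsto (fun k => Gc e (c k) x) atTop (𝓝 (Gc e 0 x)) := by
    apply ae_restrict_of_ae
    filter_upwards [ae_sp_pos hn2 he] with x hx
    exact (tendsto_Gc he hx).comp hclim
  -- membership in `L^p`
  have mG : ∀ k, MemLp (Gc e (c k)) p (volume.restrict (ball (0 : Rn n) 1)) := fun k =>
    ⟨aesm_Gc hn2 he (hc0 k) (hc1 k), lt_of_le_of_lt (hKb _ (hc0 k) (hc1 k)) hK.lt_top⟩
  have mF : ∀ k, MemLp (Fc e (c k)) p (volume.restrict (ball (0 : Rn n) 1)) := fun k =>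
    memLp_Fc he (hc0 k) (hc1 k) p
  have mF0 : MemLp (Fc e 0) p (volume.restrict (ball (0 : Rn n) 1)) := by
    apply MemLp.of_bound (aestronglyMeasurable_of_tendsto_ae atTop (fun k => (mF k).1) hFlim) 1
    filter_upwards [ae_restrict_mem measurableSet_ball] with x hx
    rw [norm_Fc he]
    exact (mem_ball_zero_iff.1 hx).le
  have mG0 : MemLp (Gc e 0) p (volume.restrict (ball (0 : Rn n) 1)) := by
    refine ⟨aestronglyMeasurable_of_tendsto_ae atTop (fun k => (mG k).1) hGlim, ?_⟩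
    have h1 := Lp.eLpNorm_lim_le_liminf_eLpNorm (p := p) (fun k => (mG k).1) (Gc e 0) hGlim
    refine lt_of_le_of_lt (h1.trans ?_) hK.lt_top
    calc liminf (fun k => eLpNorm (Gc e (c k)) p (volume.restrict (ball (0 : Rn n) 1))) atTop
        ≤ liminf (fun _ : ℕ => K) atTop :=
          liminf_le_liminf (Eventually.of_forall fun k => hKb _ (hc0 k) (hc1 k))
      _ = K := liminf_const K
  -- the approximating Sobolev diffeomorphisms
  have hW : ∀ k, (((mF k).toLp _, (mG k).toLp _) : Lp (Rn n) p (volume.restrict (ball (0 : Rn n) 1)) ×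
      Lp (Rn n →L[ℝ] Rn n) p (volume.restrict (ball (0 : Rn n) 1))) ∈ W1p n (ball 0 1) p := by
    intro k φ hφ hcs hsub v
    have h1 := isWeakDeriv_of_contDiffOn (isOpen_ball)
      (((contDiff_Fc he (hc0 k) (hc1 k)).of_le (by simp)).contDiffOn : ContDiffOn ℝ 1 _ _)
      φ hφ hcs hsub v
    have e1 : ∫ x in ball (0 : Rn n) 1, (fderiv ℝ φ x v) • ((mF k).toLp _ : Rn n → Rn n) x
        = ∫ x in ball (0 : Rn n) 1, (fderiv ℝ φ x v) • Fc e (c k) x := by
      apply integral_congr_ae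
      filter_upwards [(mF k).coeFn_toLp] with x hx
      rw [hx]
    have e2 : ∫ x in ball (0 : Rn n) 1, φ x • (((mG k).toLp _ : Rn n → Rn n →L[ℝ] Rn n) x v)
        = ∫ x in ball (0 : Rn n) 1, φ x • (fderiv ℝ (Fc e (c k)) x v) := by
      apply integral_congr_ae
      filter_upwards [(mG k).coeFn_toLp, Gc_ae_eq_fderiv hn2 he (hc0 k) (hc1 k)] with x hx hx2
      rw [hx, hx2]
    show ∫ x in ball (0 : Rn n) 1, (fderiv ℝ φ x v) • ((mF k).toLp _ : Rn n → Rn n) x
      = -∫ x in ball (0 : Rn n) 1, φ x • (((mG k).toLp _ : Rn n → Rn n →L[ℝ] Rn n) x v)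
    rw [e1, e2, h1]
  set Fk : ℕ → W1p n (ball 0 1) p := fun k => ⟨_, hW k⟩ with hFk
  set K' : ℝ := max (eLpNorm (fun _ : Rn n => (1 : ℝ)) p
    (volume.restrict (ball (0 : Rn n) 1))).toReal K.toReal with hK'
  have hbound : ∀ k, ‖Fk k‖ ≤ K' := by
    intro k
    have h1 : ‖(mF k).toLp _‖ ≤ (eLpNorm (fun _ : Rn n => (1 : ℝ)) p
        (volume.restrict (ball (0 : Rn n) 1))).toReal := by
      rw [Lp.norm_toLp]
      apply ENNReal.toReal_mono (memLp_const (1 : ℝ)).2.ne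
      apply eLpNorm_mono_ae
      filter_upwards [ae_restrict_mem measurableSet_ball] with x hx
      rw [norm_Fc he, norm_one]
      exact (mem_ball_zero_iff.1 hx).le
    have h2 : ‖(mG k).toLp _‖ ≤ K.toReal := by
      rw [Lp.norm_toLp]
      exact ENNReal.toReal_mono hK (hKb _ (hc0 k) (hc1 k))
    exact max_le_max h1 h2
  have hlim1 : ∀ᵐ x ∂(volume.restrict (ball (0 : Rn n) 1)),
      Tendsto (fun k => ((Fk k).1.1 : Rn n → Rn n) x) atTop (𝓝 ((mF0.toLp _ : Rn n → Rn n) x)) := by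
    have h1 : ∀ᵐ x ∂(volume.restrict (ball (0 : Rn n) 1)), ∀ k,
        ((mF k).toLp _ : Rn n → Rn n) x = Fc e (c k) x :=
      ae_all_iff.2 fun k => (mF k).coeFn_toLp
    filter_upwards [h1, mF0.coeFn_toLp, hFlim] with x hx1 hx2 hx3
    rw [hx2]
    have h2 : (fun k => ((Fk k).1.1 : Rn n → Rn n) x) = fun k => Fc e (c k) x := by
      ext1 k; exact hx1 k
    rw [h2]
    exact hx3
  have hlim2 : ∀ᵐ x ∂(volume.restrict (ball (0 : Rn n) 1)),
      Tendsto (fun k => ((Fk k).1.2 : Rn n → Rn n →L[ℝ] Rn n) x) atTop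
        (𝓝 ((mG0.toLp _ : Rn n → Rn n →L[ℝ] Rn n) x)) := by
    have h1 : ∀ᵐ x ∂(volume.restrict (ball (0 : Rn n) 1)), ∀ k,
        ((mG k).toLp _ : Rn n → Rn n →L[ℝ] Rn n) x = Gc e (c k) x :=
      ae_all_iff.2 fun k => (mG k).coeFn_toLp
    filter_upwards [h1, mG0.coeFn_toLp, hGlim] with x hx1 hx2 hx3
    rw [hx2]
    have h2 : (fun k => ((Fk k).1.2 : Rn n → Rn n →L[ℝ] Rn n) x) = fun k => Gc e (c k) x := by
      ext1 k; exact hx1 k
    rw [h2]
    exact hx3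
  -- the limit
  have hW0 : ((mF0.toLp _, mG0.toLp _) : Lp (Rn n) p (volume.restrict (ball (0 : Rn n) 1)) ×
      Lp (Rn n →L[ℝ] Rn n) p (volume.restrict (ball (0 : Rn n) 1))) ∈ W1p n (ball 0 1) p :=
    mem_W1p_of_ae hfinB hp1' hptop Fk _ hbound hlim1 hlim2
  refine ⟨⟨_, hW0⟩, ⟨?_, Fk, ?_, ?_⟩, ?_⟩
  · show ∀ᵐ x ∂(volume.restrict (ball (0 : Rn n) 1)), (mF0.toLp _ : Rn n → Rn n) x ∈ ball 0 1
    filter_upwards [mF0.coeFn_toLp, ae_restrict_mem measurableSet_ball] with x hx hxB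
    rw [hx, mem_ball_zero_iff, norm_Fc he]
    exact mem_ball_zero_iff.1 hxB
  · intro k
    exact ⟨Fc e (c k), isDiffeo_Fc he (hc0 k) (hc1 k) m, (mF k).coeFn_toLp⟩
  · intro ℓ
    exact tendsto_dual_W1p hfinB hp1' hptop Fk _ hbound hlim1 hlim2 ℓ
  · apply not_strong hp rfl _ i₀
    · show ∀ᵐ x ∂(volume.restrict (ball (0 : Rn n) 1)), 1 / 2 < ‖x‖ → ∀ i, i ≠ i₀ → ∀ h : Rn n,
        ((mG0.toLp _ : Rn n → Rn n →L[ℝ] Rn n) x h) i = 0
      filter_upwards [mG0.coeFn_toLp] with x hx hx2 i hi h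
      rw [hx, Gc_zero_of_gt hx2]
      simp [he_def, hi]
    · show ∀ᵐ x ∂(volume.restrict (ball (0 : Rn n) 1)), ‖x‖ < 1 / 4 →
        (mG0.toLp _ : Rn n → Rn n →L[ℝ] Rn n) x = ContinuousLinearMap.id ℝ (Rn n)
      filter_upwards [mG0.coeFn_toLp, ae_restrict_of_ae (ae_sp_pos hn2 he)] with x hx hx2 hx3
      rw [hx, Gc_zero_of_lt he (ne_zero_of_sp_pos hx2) hx3]

end Pool.Agent.FC472D
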