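import Mathlib
import Pool.Agent.FC472D.Defs
import Pool.Agent.FC472D.Sobolev
import Pool.Agent.FC472D.Example
import Pool.Agent.FC472D.Closure

/-!
# From the functional-analytic formulation to the one with functions
-/

namespace Pool.Agent.FC472D

open MeasureTheory Filter Topology Set Metric
open scoped ENNReal ContDiff RealInnerProductSpace

variable {n : ℕ}

lemma isWeakDeriv_congr {Ω : Set (Rn n)} {f f' : Rn n → Rn n} {G G' : Rn n → Rn n →L[ℝ] Rn n}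
    (h : Sob.IsWeakDeriv Ω f G) (hf : f =ᵐ[volume.restrict Ω] f')
    (hG : G =ᵐ[volume.restrict Ω] G') : Sob.IsWeakDeriv Ω f' G' := by
  intro φ hφ hc hsub v
  have e1 : ∫ x in Ω, (fderiv ℝ φ x v) • f' x = ∫ x in Ω, (fderiv ℝ φ x v) • f x := by
    apply integral_congr_ae
    filter_upwards [hf] with x hx
    rw [hx]
  have e2 : ∫ x in Ω, φ x • (G' x v) = ∫ x in Ω, φ x • (G x v) := by
    apply integral_congr_ae
    filter_upwards [hG] with x hx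
    rw [hx]
  rw [e1, e2]
  exact h φ hφ hc hsub v

lemma isSobolev_congr {Ω : Set (Rn n)} {p : ℝ≥0∞} {f f' : Rn n → Rn n}
    {G G' : Rn n → Rn n →L[ℝ] Rn n}
    (h : Sob.IsSobolev Ω p f G) (hf : f =ᵐ[volume.restrict Ω] f')
    (hG : G =ᵐ[volume.restrict Ω] G') : Sob.IsSobolev Ω p f' G' :=
  ⟨h.1.ae_eq hf, h.2.1.ae_eq hG, isWeakDeriv_congr h.2.2 hf hG⟩

lemma isSobolev_of_W1p {Ω : Set (Rn n)} {p : ℝ≥0∞} [Fact (1 ≤ p)] (F : W1p n Ω p) :
    Sob.IsSobolev Ω p (F.1.1 : Rn n → Rn n) (F.1.2 : Rn n → Rn n →L[ℝ] Rn n) :=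
  ⟨Lp.memLp F.1.1, Lp.memLp F.1.2, F.2⟩

/-- the element of `W1p` defined by a Sobolev pair -/
lemma exists_W1p {Ω : Set (Rn n)} {p : ℝ≥0∞} [Fact (1 ≤ p)] {f : Rn n → Rn n}
    {G : Rn n → Rn n →L[ℝ] Rn n} (h : Sob.IsSobolev Ω p f G) :
    ∃ F : W1p n Ω p, (F.1.1 : Rn n → Rn n) =ᵐ[volume.restrict Ω] f ∧
      (F.1.2 : Rn n → Rn n →L[ℝ] Rn n) =ᵐ[volume.restrict Ω] G := by
  refine ⟨⟨(h.1.toLp f, h.2.1.toLp G), ?_⟩, h.1.coeFn_toLp, h.2.1.coeFn_toLp⟩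
  exact isWeakDeriv_congr h.2.2 h.1.coeFn_toLp.symm h.2.1.coeFn_toLp.symm

/-- Uniqueness of the weak differential. -/
lemma weakDeriv_unique {Ω : Set (Rn n)} (hΩ : IsOpen Ω) {p : ℝ≥0∞} [hp : Fact (1 ≤ p)]
    (F F' : W1p n Ω p)
    (hfg : (F.1.1 : Rn n → Rn n) =ᵐ[volume.restrict Ω] (F'.1.1 : Rn n → Rn n)) :
    (F.1.2 : Rn n → Rn n →L[ℝ] Rn n) =ᵐ[volume.restrict Ω]
      (F'.1.2 : Rn n → Rn n →L[ℝ] Rn n) := by
  have hl : ∀ (H : W1p n Ω p) (v : Rn n),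
      LocallyIntegrableOn (fun x => (H.1.2 : Rn n → Rn n →L[ℝ] Rn n) x v) Ω volume := by
    intro H v
    have h1 : LocallyIntegrable (H.1.2 : Rn n → Rn n →L[ℝ] Rn n) (volume.restrict Ω) :=
      (Lp.memLp H.1.2).locallyIntegrable hp.out
    have h2 : LocallyIntegrable (fun x => (H.1.2 : Rn n → Rn n →L[ℝ] Rn n) x v)
        (volume.restrict Ω) := by
      intro x
      obtain ⟨s, hs, hs'⟩ := h1 x
      exact ⟨s, hs, hs'.apply_continuousLinearMap v⟩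
    exact locallyIntegrableOn_of_locallyIntegrable_restrict h2
  have main : ∀ v : Rn n, ∀ᵐ x ∂(volume.restrict Ω),
      (F.1.2 : Rn n → Rn n →L[ℝ] Rn n) x v = (F'.1.2 : Rn n → Rn n →L[ℝ] Rn n) x v := by
    intro v
    have hloc : LocallyIntegrableOn
        (fun x => (F.1.2 : Rn n → Rn n →L[ℝ] Rn n) x v
          - (F'.1.2 : Rn n → Rn n →L[ℝ] Rn n) x v) Ω volume :=
      (hl F v).sub (hl F' v)
    have key := IsOpen.ae_eq_zero_of_integral_contDiff_smul_eq_zero hΩ hloc ?_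
    · rw [ae_restrict_iff' hΩ.measurableSet]
      filter_upwards [key] with x hx hxΩ
      exact sub_eq_zero.1 (hx hxΩ)
    · intro φ hφ hc hsub
      have hout : ∀ x, x ∉ Ω → φ x = 0 := fun x hx =>
        image_eq_zero_of_notMem_tsupport fun h => hx (hsub h)
      have e1 : ∫ x, φ x • ((F.1.2 : Rn n → Rn n →L[ℝ] Rn n) x v
            - (F'.1.2 : Rn n → Rn n →L[ℝ] Rn n) x v)
          = ∫ x in Ω, φ x • ((F.1.2 : Rn n → Rn n →L[ℝ] Rn n) x v
            - (F'.1.2 : Rn n → Rn n →L[ℝ] Rn n) x v) := by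
        symm
        apply setIntegral_eq_integral_of_forall_compl_eq_zero
        intro x hx
        rw [hout x hx, zero_smul]
      have i1 : Integrable (fun x => φ x • ((F.1.2 : Rn n → Rn n →L[ℝ] Rn n) x v))
          (volume.restrict Ω) := integrable_smul_Lp_apply F.1.2 hφ.continuous hc v
      have i2 : Integrable (fun x => φ x • ((F'.1.2 : Rn n → Rn n →L[ℝ] Rn n) x v))
          (volume.restrict Ω) := integrable_smul_Lp_apply F'.1.2 hφ.continuous hc v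
      rw [e1]
      simp_rw [smul_sub]
      rw [integral_sub i1 i2, sub_eq_zero]
      have w1 := F.2 φ hφ hc hsub v
      have w2 := F'.2 φ hφ hc hsub v
      have w3 : ∫ x in Ω, (fderiv ℝ φ x v) • (F.1.1 : Rn n → Rn n) x
          = ∫ x in Ω, (fderiv ℝ φ x v) • (F'.1.1 : Rn n → Rn n) x := by
        apply integral_congr_ae
        filter_upwards [hfg] with x hx
        rw [hx]
      rw [w3, w2] at w1
      exact (neg_injective w1).symm
  have main2 := ae_all_iff.2 fun j : Fin n => main (EuclideanSpace.single j 1)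
  filter_upwards [main2] with x hx
  apply ContinuousLinearMap.coe_injective
  apply (EuclideanSpace.basisFun (Fin n) ℝ).toBasis.ext
  intro j
  simpa using hx j

/-- weak convergence tested on `L^q` functions -/
lemma weakConv_of_dual {Ω : Set (Rn n)} {p : ℝ≥0∞} [hp : Fact (1 ≤ p)]
    {Fk : ℕ → W1p n Ω p} {F : W1p n Ω p}
    (h : ∀ ℓ : W1p n Ω p →L[ℝ] ℝ, Tendsto (fun k => ℓ (Fk k)) atTop (𝓝 (ℓ F)))
    {fk : ℕ → Rn n → Rn n}
    (hfk : ∀ k, ((Fk k).1.1 : Rn n → Rn n) =ᵐ[volume.restrict Ω] fk k) :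
    Sob.WeakConv Ω p fk (fun k => ((Fk k).1.2 : Rn n → Rn n →L[ℝ] Rn n))
      (F.1.1 : Rn n → Rn n) (F.1.2 : Rn n → Rn n →L[ℝ] Rn n) := by
  intro q hq ψ hψ
  have : Fact (1 ≤ q) := ⟨hq.symm.one_le⟩
  constructor
  · let ℓ : W1p n Ω p →L[ℝ] ℝ :=
      ((((innerSL ℝ : Rn n →L[ℝ] Rn n →L[ℝ] ℝ).lpPairing (volume.restrict Ω) p q).flip
        (hψ.toLp ψ)).comp (ContinuousLinearMap.fst ℝ _ _)).comp (W1p n Ω p).subtypeL
    have hℓ : ∀ H : W1p n Ω p, ℓ H = ∫ x in Ω, ⟪(H.1.1 : Rn n → Rn n) x, ψ x⟫ := by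
      intro H
      show ((innerSL ℝ : Rn n →L[ℝ] Rn n →L[ℝ] ℝ).lpPairing (volume.restrict Ω) p q)
        H.1.1 (hψ.toLp ψ) = _
      rw [ContinuousLinearMap.lpPairing_eq_integral]
      apply integral_congr_ae
      filter_upwards [hψ.coeFn_toLp] with x hx
      rw [hx]; rfl
    have h1 := h ℓ
    rw [hℓ F] at h1
    refine h1.congr fun k => ?_
    rw [hℓ]
    apply integral_congr_ae
    filter_upwards [hfk k] with x hx
    rw [hx]
  · intro v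
    let B : (Rn n →L[ℝ] Rn n) →L[ℝ] Rn n →L[ℝ] ℝ :=
      (innerSL ℝ : Rn n →L[ℝ] Rn n →L[ℝ] ℝ).comp (ContinuousLinearMap.apply ℝ (Rn n) v)
    let ℓ : W1p n Ω p →L[ℝ] ℝ :=
      (((B.lpPairing (volume.restrict Ω) p q).flip
        (hψ.toLp ψ)).comp (ContinuousLinearMap.snd ℝ _ _)).comp (W1p n Ω p).subtypeL
    have hℓ : ∀ H : W1p n Ω p,
        ℓ H = ∫ x in Ω, ⟪(H.1.2 : Rn n → Rn n →L[ℝ] Rn n) x v, ψ x⟫ := by
      intro H
      show (B.lpPairing (volume.restrict Ω) p q) H.1.2 (hψ.toLp ψ) = _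
      rw [ContinuousLinearMap.lpPairing_eq_integral]
      apply integral_congr_ae
      filter_upwards [hψ.coeFn_toLp] with x hx
      rw [hx]; rfl
    have h1 := h ℓ
    rw [hℓ F] at h1
    refine h1.congr fun k => ?_
    rw [hℓ]

/-- weak closure, functional-analytic form to function form -/
lemma mem_weakClosure {Ω Ω' : Set (Rn n)} {p : ℝ≥0∞} [hp : Fact (1 ≤ p)] {m : ℕ∞}
    {F : W1p n Ω p} (hF : F ∈ weakClosure m Ω Ω' p) :
    (F.1.1 : Rn n → Rn n) ∈ Sob.weakClosure m Ω Ω' p := by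
  obtain ⟨hv, Fk, hFk, hlim⟩ := hF
  choose g hg hgae using hFk
  refine ⟨hv, (F.1.2 : Rn n → Rn n →L[ℝ] Rn n), g,
    fun k => ((Fk k).1.2 : Rn n → Rn n →L[ℝ] Rn n), isSobolev_of_W1p F, fun k => ⟨hg k, ?_⟩,
    weakConv_of_dual hlim hgae⟩
  exact isSobolev_congr (isSobolev_of_W1p (Fk k)) (hgae k) (ae_eq_refl _)

/-- strong closure, function form to functional-analytic form -/
lemma of_mem_strongClosure {Ω Ω' : Set (Rn n)} (hΩ : IsOpen Ω) {p : ℝ≥0∞} [hp : Fact (1 ≤ p)]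
    {m : ℕ∞} {F : W1p n Ω p} (hF : (F.1.1 : Rn n → Rn n) ∈ Sob.strongClosure m Ω Ω' p) :
    ∃ G : ℕ → W1p n Ω p, (∀ k, G k ∈ Diffeos m Ω Ω' p) ∧ Tendsto G atTop (𝓝 F) := by
  obtain ⟨-, G, fk, Gk, hG, hk, h1, h2⟩ := hF
  obtain ⟨F', hF'1, hF'2⟩ := exists_W1p hG
  have hD : G =ᵐ[volume.restrict Ω] (F.1.2 : Rn n → Rn n →L[ℝ] Rn n) :=
    hF'2.symm.trans (weakDeriv_unique hΩ F' F hF'1)
  choose H hH1 hH2 using fun k => exists_W1p (hk k).2
  refine ⟨H, fun k => ⟨fk k, (hk k).1, hH1 k⟩, ?_⟩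
  rw [tendsto_subtype_rng, Prod.tendsto_iff]
  constructor
  · rw [Lp.tendsto_Lp_iff_tendsto_eLpNorm']
    refine h1.congr fun k => ?_
    apply eLpNorm_congr_ae
    filter_upwards [hH1 k] with x hx
    rw [Pi.sub_apply, hx]
  · rw [Lp.tendsto_Lp_iff_tendsto_eLpNorm']
    refine h2.congr fun k => ?_
    apply eLpNorm_congr_ae
    filter_upwards [hH2 k, hD] with x hx hx'
    rw [Pi.sub_apply, hx, hx']

end Pool.Agent.FC472D
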